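import Mathlib
import Pool.Agent.H81.G1.Exists

set_option autoImplicit false
open Finset

/-! # The random labels of an environment as tiles

For every environment `X` and every enumeration `lb` of its random labels: the corners of the tile `e`
are `e` (west), `e + (0,1)` (north), `e + (1,1)` (east), `e + (1,0)` (south), and the label of the east
neighbour is `e + (1,1)`, the label of the north neighbour is `e + (-1,1)`. -/

namespace Pool.Agent.H30.Mid

open Pool.Agent.H75.Perc Pool.Agent.H75.TwoArm Pool.Agent.Q1 Pool.Agent.H81.G1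

/-- the corner at the end `d` of the tile with the label `e` -/
def crn (e : ℤ × ℤ) (d : Dir) : ℤ × ℤ :=
  match d with
  | .W => e
  | .N => (e.1, e.2 + 1)
  | .E => (e.1 + 1, e.2 + 1)
  | .S => (e.1 + 1, e.2)

/-- the parity of a label -/
def pE (e : ℤ × ℤ) : Bool := decide (e.1 % 2 = 1)

lemma pE_true {e : ℤ × ℤ} : pE e = true ↔ e.1 % 2 = 1 := by unfold pE; simp

lemma pE_false {e : ℤ × ℤ} : pE e = false ↔ e.1 % 2 = 0 := by
  unfold pE; rw [decide_eq_false_iff_not]; omega

/-- **the random labels of an environment are tiles** -/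
theorem tiles_gen {ι : Type*} (X : Env) (lb : ι → ℤ × ℤ) (h1 : Function.Injective lb)
    (h2 : ∀ i, lb i ∈ X.E) (h3 : ∀ e ∈ X.E, ∃ i, lb i = e) :
    Tiles X lb (fun i => pE (lb i)) (fun x => crn (lb x.1) x.2) := by
  refine ⟨h1, h2, h3, ?_, ?_⟩
  · intro i hp
    have ho := X.odd _ (h2 i)
    have hp := pE_true.1 hp
    revert ho hp
    generalize lb i = e
    intro ho hp
    obtain ⟨a, b⟩ := e
    simp only at ho hp
    have hb : b % 2 = 0 := by omega
    have ha1 : ¬ (a + 1) % 2 = 1 := by omega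
    have ha2 : (a + 1) % 2 = 0 := by omega
    have hb2 : ¬ (b + 1) % 2 = 0 := by omega
    have ha0 : ¬ a % 2 = 0 := by omega
    refine ⟨?_, ?_, ?_, ?_, ?_⟩
    · simp only [crn, lab, hb, ha0, if_true, if_false]
    · simp only [crn, lab, hb2, ha2, if_true, if_false]
      rw [Prod.mk.injEq]; omega
    · simp only [crn, ne_eq, Prod.mk.injEq]; omega
    · simp only [crn, nxC, hb, ha0, if_true, if_false]
    · simp only [crn, nxC, hb2, ha2, if_true, if_false]
      rw [Prod.mk.injEq]; omega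
  · intro i hp
    have ho := X.odd _ (h2 i)
    have hp := pE_false.1 hp
    revert ho hp
    generalize lb i = e
    intro ho hp
    obtain ⟨a, b⟩ := e
    simp only at ho hp
    have hb : ¬ b % 2 = 0 := by omega
    have hb2 : (b + 1) % 2 = 0 := by omega
    have ha1 : ¬ (a + 1) % 2 = 0 := by omega
    refine ⟨?_, ?_, ?_, ?_, ?_⟩
    · simp only [crn, lab, hb2, hp, if_true]
      rw [Prod.mk.injEq]; omega
    · simp only [crn, lab, hb, ha1, if_false]
      rw [Prod.mk.injEq]; omega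
    · simp only [crn, ne_eq, Prod.mk.injEq]; omega
    · simp only [crn, nxC, hb2, hp, if_true]
    · simp only [crn, nxC, hb, ha1, if_false]
      rw [Prod.mk.injEq]; omega

section

variable {ι : Type*} {X : Env} {lb : ι → ℤ × ℤ}

/-- east neighbours -/
lemma inc_E {i j : ι} (h : lb j = ((lb i).1 + 1, (lb i).2 + 1)) :
    inc (fun i => pE (lb i)) (i, .E) = !inc (fun i => pE (lb i)) (j, .W) := by
  unfold inc
  simp only [Dir.v]
  have h1 : (lb j).1 = (lb i).1 + 1 := by rw [h]
  cases hp : pE (lb i)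
  · have h2 : pE (lb j) = true := pE_true.2 (by have := pE_false.1 hp; omega)
    rw [h2]; rfl
  · have h2 : pE (lb j) = false := pE_false.2 (by have := pE_true.1 hp; omega)
    rw [h2]; rfl

/-- north neighbours -/
lemma inc_N {i j : ι} (h : lb j = ((lb i).1 - 1, (lb i).2 + 1)) :
    inc (fun i => pE (lb i)) (i, .N) = !inc (fun i => pE (lb i)) (j, .S) := by
  unfold inc
  simp only [Dir.v]
  have h1 : (lb j).1 = (lb i).1 - 1 := by rw [h]
  cases hp : pE (lb i)
  · have h2 : pE (lb j) = true := pE_true.2 (by have := pE_false.1 hp; omega)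
    rw [h2]; rfl
  · have h2 : pE (lb j) = false := pE_false.2 (by have := pE_true.1 hp; omega)
    rw [h2]; rfl

lemma crn_E {e f : ℤ × ℤ} (h : f = (e.1 + 1, e.2 + 1)) : crn e .E = crn f .W := by
  rw [h]; rfl

lemma crn_N {e f : ℤ × ℤ} (h : f = (e.1 - 1, e.2 + 1)) : crn e .N = crn f .S := by
  rw [h]
  refine Prod.ext ?_ ?_
  · show e.1 = e.1 - 1 + 1
    ring
  · rfl

variable [Fintype ι] {p : ι → Bool} {cr : ι × Dir → ℤ × ℤ}

/-- two ends with the same corner are joined, without turning -/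
lemma wire0 (T : Tiles X lb p cr) {x y : ι × Dir} (h : inc p x = !inc p y) (hc : cr x = cr y) :
    wπ T x = y ∧ wπ T y = x ∧ wτ T x = 0 ∧ wτ T y = 0 := by
  have key : ∀ {x y : ι × Dir}, inc p x = false → inc p y = true → cr x = cr y →
      wπ T x = y ∧ wπ T y = x ∧ wτ T x = 0 ∧ wτ T y = 0 := by
    intro x y hx hy hc
    obtain ⟨h1, h2⟩ := wired_pi T (n := 0) hx hy (fun i hi => absurd hi (by omega)) hc
    have e1 : wπ T x = y := by unfold wπ; rw [if_pos hx, h2]
    have e2 : wτ T x = 0 := by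
      unfold wτ wt; rw [if_pos hx, h1]; simp
    refine ⟨e1, ?_, e2, ?_⟩
    · rw [← e1, wπ_wπ]
    · rw [← e1, wτ_wπ, e2]; rfl
  cases hy : inc p y
  · rw [hy] at h
    obtain ⟨a, b, c, d⟩ := key hy h hc.symm
    exact ⟨b, a, d, c⟩
  · rw [hy] at h
    exact key h hy hc

/-- the wire between east-west neighbours -/
lemma wire_E (h1 : Function.Injective lb) (h2 : ∀ i, lb i ∈ X.E) (h3 : ∀ e ∈ X.E, ∃ i, lb i = e)
    {i j : ι} (h : lb j = ((lb i).1 + 1, (lb i).2 + 1)) :
    wπ (tiles_gen X lb h1 h2 h3) (i, .E) = (j, .W) ∧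
      wπ (tiles_gen X lb h1 h2 h3) (j, .W) = (i, .E) ∧
      wτ (tiles_gen X lb h1 h2 h3) (i, .E) = 0 ∧ wτ (tiles_gen X lb h1 h2 h3) (j, .W) = 0 :=
  wire0 _ (inc_E h) (crn_E h)

/-- the wire between north-south neighbours -/
lemma wire_N (h1 : Function.Injective lb) (h2 : ∀ i, lb i ∈ X.E) (h3 : ∀ e ∈ X.E, ∃ i, lb i = e)
    {i j : ι} (h : lb j = ((lb i).1 - 1, (lb i).2 + 1)) :
    wπ (tiles_gen X lb h1 h2 h3) (i, .N) = (j, .S) ∧
      wπ (tiles_gen X lb h1 h2 h3) (j, .S) = (i, .N) ∧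
      wτ (tiles_gen X lb h1 h2 h3) (i, .N) = 0 ∧ wτ (tiles_gen X lb h1 h2 h3) (j, .S) = 0 :=
  wire0 _ (inc_N h) (crn_N h)

end

/-! ### The set of the random labels as index set -/

/-- the tiles of an environment -/
def Rt (X : Env) := {e : ℤ × ℤ // e ∈ X.E}

noncomputable instance (X : Env) : Fintype (Rt X) := by unfold Rt; infer_instance

instance (X : Env) : DecidableEq (Rt X) := by unfold Rt; infer_instance

/-- the label -/
def Rt.lb {X : Env} (e : Rt X) : ℤ × ℤ := e.1

theorem tilesR (X : Env) : Tiles X Rt.lb (fun i : Rt X => pE i.lb) (fun x => crn x.1.lb x.2) :=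
  tiles_gen X Rt.lb (fun _ _ h => Subtype.ext h) (fun i => i.2) (fun e he => ⟨⟨e, he⟩, rfl⟩)

end Pool.Agent.H30.Mid
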