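import Mathlib
import Pool.Agent.H30.Mid.EnvTiles
import Pool.Agent.H69.M6b.EnvInd
import Pool.Agent.Q1.M6a.WClosed
import Pool.Agent.Q1.M6b.Glue

set_option autoImplicit false
open Finset

/-! # The row network of an environment: amplitudes and the expansion in coupons

`X` : an environment whose random labels contain the labels of the tiles `(x0 + c, y0)`, `c < N` (the row);
for every configuration `ω` of the other labels the environment `X.freeze row ω` has a network on the
tiles of the row. `AR X y a b ω` : the weighted increment at the end `y` of the row, `a c`, `b c` =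
weights of the states `{W-N, S-E}`, `{W-S, N-E}` of the column `c`. -/

namespace Pool.Agent.H30.Mid

open Pool.Agent.H75.Perc Pool.Agent.H75.TwoArm Pool.Agent.Q1 Pool.Agent.H81.G1
open Pool.Agent.H69.M6b (lbt lbt_inj lbt_odd pr0)

variable {N : ℕ}

/-- labels of the row -/
def rl (x0 y0 : ℤ) (c : Fin N) : ℤ × ℤ := lbt (x0 + (c : ℕ)) y0

/-- parities of the row -/
def rp (x0 y0 : ℤ) (c : Fin N) : Bool := pr0 (rl x0 y0 c)

/-- corners of the row -/
def rcr (x0 y0 : ℤ) (x : Fin N × Dir) : ℤ × ℤ := Pool.Agent.H69.M6b.crn (rl x0 y0 x.1) x.2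

/-- set of the labels of the row -/
noncomputable def RS (N : ℕ) (x0 y0 : ℤ) : Finset (ℤ × ℤ) := univ.image (rl (N := N) x0 y0)

lemma mem_RS {x0 y0 : ℤ} {e : ℤ × ℤ} : e ∈ RS N x0 y0 ↔ ∃ c : Fin N, rl x0 y0 c = e := by
  unfold RS; simp

lemma rl_inj (x0 y0 : ℤ) : Function.Injective (rl (N := N) x0 y0) := by
  intro a b h
  have := (lbt_inj h).1
  exact Fin.ext (by omega)

/-- the row consists of random labels -/
def HasRow (X : Env) (N : ℕ) (x0 y0 : ℤ) : Prop := RS N x0 y0 ⊆ X.E

variable {X : Env} {x0 y0 : ℤ}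

lemma crn_eq (e : ℤ × ℤ) (d : Dir) : crn e d = Pool.Agent.H69.M6b.crn e d := by
  cases d <;> rfl

/-- the tiles of the row -/
theorem rtiles (h : HasRow X N x0 y0) (ω : Finset (ℤ × ℤ)) :
    Tiles (X.freeze (RS N x0 y0) ω) (rl (N := N) x0 y0) (rp x0 y0) (rcr x0 y0) := by
  have h1 := tiles_gen (X.freeze (RS N x0 y0) ω) (rl (N := N) x0 y0) (rl_inj x0 y0) (fun i => by
      rw [Env.freeze_E, mem_inter]
      have : rl x0 y0 i ∈ RS N x0 y0 := mem_RS.2 ⟨i, rfl⟩
      exact ⟨h this, this⟩) (fun e he => by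
      rw [Env.freeze_E, mem_inter] at he
      exact mem_RS.1 he.2)
  have e1 : (fun i => pE (rl (N := N) x0 y0 i)) = rp x0 y0 := rfl
  have e2 : (fun x : Fin N × Dir => crn (rl (N := N) x0 y0 x.1) x.2) = rcr x0 y0 := by
    funext x; exact crn_eq _ _
  rw [e1, e2] at h1
  exact h1

lemma frz_E (h : HasRow X N x0 y0) (ω : Finset (ℤ × ℤ)) :
    (X.freeze (RS N x0 y0) ω).E = RS N x0 y0 := by
  rw [Env.freeze_E]; exact inter_eq_right.2 h

/-- weighted increment at the end `y` of the row -/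
noncomputable def AR (X : Env) (x0 y0 : ℤ) (y : Fin N × Dir) (a b : Fin N → ℂ)
    (ω : Finset (ℤ × ℤ)) : ℂ :=
  ∑ s : Fin N → Bool, (∏ i, if s i then b i else a i) *
    (X.freeze (RS N x0 y0) ω).incO (osn (rl x0 y0) (rp x0 y0) s) (rcr x0 y0 y)

/-- sums over the configurations of the tiles = sums over the states -/
lemma Ec_states {Y : Env} {ι : Type*} [Fintype ι] [DecidableEq ι] {lb : ι → ℤ × ℤ} {p : ι → Bool}
    {cr : ι × Dir → ℤ × ℤ} (T : Tiles Y lb p cr) (q : ℤ × ℤ → ℂ) (F : Finset (ℤ × ℤ) → ℂ) :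
    Ec q Y.E F = ∑ s : ι → Bool, (∏ i, if s i then wB lb p q i else wA lb p q i) *
      F (osn lb p s) := by
  unfold Ec
  refine Finset.sum_bij' (i := fun ω _ => stt lb p ω) (j := fun s _ => osn lb p s) ?_ ?_ ?_ ?_ ?_
  · intro ω _; exact mem_univ _
  · intro s _; exact mem_powerset.2 (osn_sub T s)
  · intro ω hω; exact osn_stt T (mem_powerset.1 hω)
  · intro s _; exact stt_osn T s
  · intro ω hω
    have hω := mem_powerset.1 hω
    have hE : Y.E = univ.image lb := by
      ext e
      rw [mem_image]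
      constructor
      · intro he; obtain ⟨i, hi⟩ := T.surj e he; exact ⟨i, mem_univ _, hi⟩
      · rintro ⟨i, _, rfl⟩; exact T.mem i
    have hw : wtc q Y.E ω = ∏ i, (if stt lb p ω i then wB lb p q i else wA lb p q i) := by
      unfold wtc
      have e1 : ω = Y.E.filter (fun e => e ∈ ω) := by
        ext e; rw [mem_filter]; exact ⟨fun h => ⟨hω h, h⟩, fun h => h.2⟩
      have e2 : Y.E \ ω = Y.E.filter (fun e => ¬ e ∈ ω) := by
        ext e; rw [mem_filter, mem_sdiff]
      have e3 : (∏ e ∈ ω, q e) * ∏ e ∈ Y.E \ ω, (1 - q e) =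
          ∏ e ∈ Y.E, (if e ∈ ω then q e else 1 - q e) := by
        rw [Finset.prod_ite, ← e2, ← e1]
      rw [e3, hE, Finset.prod_image (fun a _ b _ h => T.inj h)]
      refine Finset.prod_congr rfl fun i _ => ?_
      unfold stt wA wB
      by_cases h : lb i ∈ ω <;> cases hp : p i <;> simp [h]
    rw [hw, osn_stt T hω]

/-- **The weighted increments of `X` through the row.** -/
theorem incW_row (h : HasRow X N x0 y0) (q : ℤ × ℤ → ℂ) (y : Fin N × Dir) :
    X.incW q (rcr x0 y0 y) = Ec q (X.E \ RS N x0 y0)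
      (AR X x0 y0 y (wA (rl x0 y0) (rp x0 y0) q) (wB (rl x0 y0) (rp x0 y0) q)) := by
  unfold Env.incW
  rw [Ec_split q h, Ec_swap]
  refine Ec_congr fun ω1 h1 => ?_
  unfold AR
  have h2 : (X.freeze (RS N x0 y0) ω1).E = RS N x0 y0 := frz_E h ω1
  have h3 := Ec_states (rtiles h ω1) q
    (fun ρ => (X.freeze (RS N x0 y0) ω1).incO ρ (rcr x0 y0 y))
  rw [h2] at h3
  rw [← h3]
  refine Ec_congr fun ρ hρ => ?_
  rw [Env.freeze_incO (by rwa [inter_eq_right.2 h])]
  congr 2
  exact (inter_eq_left.2 h1).symm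

/-! ### Value of the amplitude -/

section

variable {y : Fin N × Dir} {a b : Fin N → ℂ} {ω : Finset (ℤ × ℤ)}

/-- the root does not meet the row -/
lemma AR_none (h : HasRow X N x0 y0) (hy : inc (rp x0 y0) y = true)
    (hm : ¬ Meets (X.freeze (RS N x0 y0) ω)) : AR X x0 y0 y a b ω = 0 := by
  unfold AR
  refine Finset.sum_eq_zero fun s _ => ?_
  set Y := X.freeze (RS N x0 y0) ω with hY
  have T := rtiles (N := N) h ω
  rw [← hY] at T
  have hρ := osn_sub T s
  have hno : ∀ i, lab (Y.out^[i] Y.c0) ∉ Y.E := fun i hi => hm ⟨i, hi⟩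
  have h0 : Y.incO (osn (rl x0 y0) (rp x0 y0) s) (rcr x0 y0 y) = 0 := by
    unfold Env.incO
    refine Finset.sum_eq_zero fun i _ => if_neg ?_
    intro hz
    have e := (wire_iter hρ Y.c0_mem (n := i) (fun j _ => hno j)).1 i le_rfl
    apply hno i
    rw [← e]
    have h1 : Y.z (osn (rl x0 y0) (rp x0 y0) s) i = (Y.f (osn (rl x0 y0) (rp x0 y0) s))^[i] Y.c0 := rfl
    rw [← h1, hz]
    exact mem_cr T hy
  rw [h0, mul_zero]

/-- the mark is the first end of the row which the root meets -/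
lemma AR_triv (h : HasRow X N x0 y0) (hm : Meets (X.freeze (RS N x0 y0) ω))
    (hy : y = rx0 (rtiles h ω) hm) : AR X x0 y0 y a b ω =
      ph ((X.freeze (RS N x0 y0) ω).k0 + dsh (X.freeze (RS N x0 y0) ω)
        (rn0 (X.freeze (RS N x0 y0) ω))) * ∏ i, (a i + b i) := by
  unfold AR
  have h1 : ∀ s : Fin N → Bool, (X.freeze (RS N x0 y0) ω).incO (osn (rl x0 y0) (rp x0 y0) s)
      (rcr x0 y0 y) = ph ((X.freeze (RS N x0 y0) ω).k0 + dsh (X.freeze (RS N x0 y0) ω)
        (rn0 (X.freeze (RS N x0 y0) ω))) := by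
    intro s
    rw [hy]
    exact incO_root (rtiles h ω) hm (osn_sub (rtiles h ω) s)
  simp only [h1]
  rw [← Finset.sum_mul, mul_comm]
  congr 1
  have h2 := Finset.prod_univ_sum (fun _ : Fin N => (univ : Finset Bool))
    (fun i (u : Bool) => if u then b i else a i)
  rw [Fintype.piFinset_univ] at h2
  rw [← h2]
  refine Finset.prod_congr rfl fun i _ => ?_
  rw [Fintype.sum_bool]
  simp [add_comm]

/-- the general case: state sum of the network of the row -/
lemma AR_net (h : HasRow X N x0 y0) (hy : inc (rp x0 y0) y = true)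
    (hm : Meets (X.freeze (RS N x0 y0) ω)) (hne : y ≠ rx0 (rtiles h ω) hm) :
    AR X x0 y0 y a b ω = zt ^ (6 * ty (rcr x0 y0 y) - 2 * ((X.freeze (RS N x0 y0) ω).k0 +
      dsh (X.freeze (RS N x0 y0) ω) (rn0 (X.freeze (RS N x0 y0) ω)))) *
      (net (rtiles h ω) hm y).Z a b := by
  unfold AR Net.Z
  rw [Finset.mul_sum]
  refine Finset.sum_congr rfl fun s _ => ?_
  have hW := net_wired (rtiles h ω) hm hy hne
  have h1 := incO_amp hW (osn_sub (rtiles h ω) s)
  rw [stt_osn (rtiles h ω)] at h1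
  have h2 : (net (rtiles h ω) hm y).y0 = y := rfl
  rw [h2] at h1
  rw [h1]
  ring

/-- the unimodular factor of the amplitude -/
lemma zt_norm_zpow (k : ℤ) : ‖zt ^ k‖ = 1 := by rw [norm_zpow, zt_norm, one_zpow]

end

/-! ### Coupons -/

/-- expansion of a multilinear sum -/
theorem coupons (a b κ : Fin N → ℂ) (G : (Fin N → Bool) → ℂ) :
    ∑ s : Fin N → Bool, (∏ i, if s i then b i - κ i else a i + κ i) * G s =
      ∑ S : Finset (Fin N), (∏ i ∈ S, κ i) * ∑ s : Fin N → Bool,
        (∏ i, if s i then (if i ∈ S then (-1 : ℂ) else b i) else if i ∈ S then 1 else a i) * G s := by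
  have h1 : ∀ s : Fin N → Bool, (∏ i, if s i then b i - κ i else a i + κ i) =
      ∑ S : Finset (Fin N), (∏ i ∈ S, κ i) *
        ∏ i, if s i then (if i ∈ S then (-1 : ℂ) else b i) else if i ∈ S then 1 else a i := by
    intro s
    have e1 : (∏ i, if s i then b i - κ i else a i + κ i) =
        ∏ i, ((if s i then -κ i else κ i) + (if s i then b i else a i)) := by
      refine Finset.prod_congr rfl fun i _ => ?_
      split_ifs <;> ring
    rw [e1, Finset.prod_add, Finset.powerset_univ]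
    refine Finset.sum_congr rfl fun S _ => ?_
    have e2 : (∏ i, if s i then (if i ∈ S then (-1 : ℂ) else b i) else if i ∈ S then 1 else a i) =
        (∏ i ∈ S, if s i then (-1 : ℂ) else 1) * ∏ i ∈ univ \ S, (if s i then b i else a i) := by
      rw [← Finset.prod_sdiff (Finset.subset_univ S), mul_comm]
      congr 1
      · refine Finset.prod_congr rfl fun i hi => ?_
        simp only [hi, if_true]
      · refine Finset.prod_congr rfl fun i hi => ?_
        have hi : i ∉ S := (mem_sdiff.1 hi).2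
        simp only [hi, if_false]
    rw [e2, ← mul_assoc, ← Finset.prod_mul_distrib]
    congr 1
    refine Finset.prod_congr rfl fun i _ => ?_
    split_ifs <;> ring
  simp only [h1, Finset.sum_mul]
  rw [Finset.sum_comm]
  refine Finset.sum_congr rfl fun S _ => ?_
  rw [Finset.mul_sum]
  exact Finset.sum_congr rfl fun s _ => by ring

/-- weights with coupons at `S` -/
def cA (S : Finset (Fin N)) (a : ℂ) (i : Fin N) : ℂ := if i ∈ S then 1 else a

/-- weights with coupons at `S` -/
def cB (S : Finset (Fin N)) (b : ℂ) (i : Fin N) : ℂ := if i ∈ S then -1 else b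

/-- **The expansion in coupons.** -/
theorem AR_coupons (X : Env) (x0 y0 : ℤ) (y : Fin N × Dir) (a b κ : ℂ) (ω : Finset (ℤ × ℤ)) :
    AR X x0 y0 y (fun _ => a + κ) (fun _ => b - κ) ω =
      ∑ S : Finset (Fin N), κ ^ S.card * AR X x0 y0 y (cA S a) (cB S b) ω := by
  have h := coupons (N := N) (fun _ => a) (fun _ => b) (fun _ => κ)
    (fun s => (X.freeze (RS N x0 y0) ω).incO (osn (rl x0 y0) (rp x0 y0) s) (rcr x0 y0 y))
  unfold AR
  rw [h]
  refine Finset.sum_congr rfl fun S _ => ?_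
  rw [Finset.prod_const]
  rfl

/-- with a coupon the trivial case gives zero -/
lemma AR_triv_zero {y : Fin N × Dir} {ω : Finset (ℤ × ℤ)} (h : HasRow X N x0 y0)
    (hm : Meets (X.freeze (RS N x0 y0) ω)) (hy : y = rx0 (rtiles h ω) hm) {S : Finset (Fin N)}
    (hS : S.Nonempty) (a b : ℂ) : AR X x0 y0 y (cA S a) (cB S b) ω = 0 := by
  rw [AR_triv h hm hy]
  obtain ⟨i, hi⟩ := hS
  rw [Finset.prod_eq_zero (mem_univ i), mul_zero]
  unfold cA cB
  rw [if_pos hi, if_pos hi]
  ring

end Pool.Agent.H30.Mid
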