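import Mathlib
import Pool.Agent.H30.Mid.Row
import Pool.Agent.H74.R45.Geo

set_option autoImplicit false
open Finset

/-! # The network of all the tiles of the plane

`t = (x, y)` : tile coordinates; `uf L` : one step through a tile whose state is given by the set `L` of
open labels; along incoming ends it is the step map `nx L`. -/

namespace Pool.Agent.H30.Mid

open Pool.Agent.H75.Perc Pool.Agent.H75.TwoArm Pool.Agent.Q1 Pool.Agent.H81.G1
open Pool.Agent.H69.M6b (lbt lbt_inj lbt_odd pr0 PR Pn TD rect_tiles se Kp Bx' Wires tt)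
open Pool.Agent.H74.R45

/-- the wires between neighbours -/
def UW (z : (ℤ × ℤ) × Dir) : (ℤ × ℤ) × Dir :=
  match z.2 with
  | .E => ((z.1.1 + 1, z.1.2), .W)
  | .W => ((z.1.1 - 1, z.1.2), .E)
  | .N => ((z.1.1, z.1.2 + 1), .S)
  | .S => ((z.1.1, z.1.2 - 1), .N)

/-- state of a tile -/
def us (L : Finset (ℤ × ℤ)) (t : ℤ × ℤ) : Bool := decide (lbt t.1 t.2 ∈ L) == pr0 (lbt t.1 t.2)

/-- step -/
def uf (L : Finset (ℤ × ℤ)) (z : (ℤ × ℤ) × Dir) : (ℤ × ℤ) × Dir := UW (z.1, Dir.mate (us L z.1) z.2)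

/-- turning of a step -/
def ud (L : Finset (ℤ × ℤ)) (z : (ℤ × ℤ) × Dir) : ℤ := Dir.tn (us L z.1) z.2

/-- corner of an end -/
def uc (z : (ℤ × ℤ) × Dir) : ℤ × ℤ := Pool.Agent.H69.M6b.crn (lbt z.1.1 z.1.2) z.2

/-- incoming ends -/
def ui (z : (ℤ × ℤ) × Dir) : Bool := xor (pr0 (lbt z.1.1 z.1.2)) z.2.v

lemma lbt_lt (x y : ℤ) : lbt x y = Pool.Agent.H33.Q1.lt (x, y) := rfl

lemma uc_W (x y : ℤ) : uc ((x, y), .W) = ve (x, y) := rfl

lemma uc_E (x y : ℤ) : uc ((x, y), .E) = ve (x + 1, y) := by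
  unfold uc Pool.Agent.H69.M6b.crn lbt ve
  refine Prod.ext ?_ ?_ <;> simp only <;> ring

lemma uc_N (x y : ℤ) : uc ((x, y), .N) = he (x, y + 1) := by
  unfold uc Pool.Agent.H69.M6b.crn lbt he
  refine Prod.ext ?_ ?_ <;> simp only <;> ring

lemma uc_S (x y : ℤ) : uc ((x, y), .S) = he (x, y) := by
  unfold uc Pool.Agent.H69.M6b.crn lbt he
  refine Prod.ext ?_ ?_ <;> simp only

lemma pr0_lbt_true {x y : ℤ} : pr0 (lbt x y) = true ↔ (x + y) % 2 = 1 := by
  unfold pr0 lbt
  rw [decide_eq_true_eq]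
  constructor <;> intro h <;> simp only at * <;> omega

lemma pr0_lbt_false {x y : ℤ} : pr0 (lbt x y) = false ↔ (x + y) % 2 = 0 := by
  unfold pr0 lbt
  rw [decide_eq_false_iff_not]
  constructor <;> intro h <;> simp only at * <;> omega

/-- **One step along an incoming end.** -/
lemma ustep (L : Finset (ℤ × ℤ)) {z : (ℤ × ℤ) × Dir} (hz : ui z = true) :
    uc (uf L z) = nx L (uc z) ∧ ud L z = del L (uc z) ∧ lab (uc z) = lbt z.1.1 z.1.2 ∧
      ui (uf L z) = true := by
  obtain ⟨⟨x, y⟩, d⟩ := z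
  unfold ui at hz
  cases hp : pr0 (lbt x y)
  · have hxy := pr0_lbt_false.1 hp
    have n1 : pr0 (lbt (x + 1) y) = true := pr0_lbt_true.2 (by omega)
    have n2 : pr0 (lbt (x - 1) y) = true := pr0_lbt_true.2 (by omega)
    cases d
    · simp [hp, Dir.v] at hz
    · have g : (x + (y + 1)) % 2 = 1 := by omega
      by_cases hL : lbt x y ∈ L
      · have hs : us L (x, y) = false := by unfold us; simp only [hp, hL]; rfl
        have h1 := SW (w := L) g (by rw [add_sub_cancel_right]; exact hL)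
        rw [add_sub_cancel_right] at h1
        have e1 : uf L ((x, y), .N) = ((x - 1, y), .E) := by
          unfold uf UW; simp only [hs, Dir.mate]
        rw [e1, uc_N, uc_E, h1.1, h1.2, lab_he_S g]
        refine ⟨by rw [sub_add_cancel], ?_, by rw [add_sub_cancel_right]; rfl, ?_⟩
        · unfold ud; simp only [hs, Dir.tn]
        · unfold ui; simp only [n2, Dir.v]; rfl
      · have hs : us L (x, y) = true := by unfold us; simp only [hp, hL]; rfl
        have h1 := SE (w := L) g (by rw [add_sub_cancel_right]; exact hL)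
        rw [add_sub_cancel_right] at h1
        have e1 : uf L ((x, y), .N) = ((x + 1, y), .W) := by
          unfold uf UW; simp only [hs, Dir.mate]
        rw [e1, uc_N, uc_W, h1.1, h1.2, lab_he_S g]
        refine ⟨rfl, ?_, by rw [add_sub_cancel_right]; rfl, ?_⟩
        · unfold ud; simp only [hs, Dir.tn]
        · unfold ui; simp only [n1, Dir.v]; rfl
    · simp [hp, Dir.v] at hz
    · by_cases hL : lbt x y ∈ L
      · have hs : us L (x, y) = false := by unfold us; simp only [hp, hL]; rfl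
        have h1 := NE (w := L) hxy hL
        have e1 : uf L ((x, y), .S) = ((x + 1, y), .W) := by
          unfold uf UW; simp only [hs, Dir.mate]
        rw [e1, uc_S, uc_W, h1.1, h1.2, lab_he_N hxy]
        refine ⟨rfl, ?_, rfl, ?_⟩
        · unfold ud; simp only [hs, Dir.tn]
        · unfold ui; simp only [n1, Dir.v]; rfl
      · have hs : us L (x, y) = true := by unfold us; simp only [hp, hL]; rfl
        have h1 := NW (w := L) hxy hL
        have e1 : uf L ((x, y), .S) = ((x - 1, y), .E) := by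
          unfold uf UW; simp only [hs, Dir.mate]
        rw [e1, uc_S, uc_E, h1.1, h1.2, lab_he_N hxy]
        refine ⟨by rw [sub_add_cancel], ?_, rfl, ?_⟩
        · unfold ud; simp only [hs, Dir.tn]
        · unfold ui; simp only [n2, Dir.v]; rfl
  · have hxy := pr0_lbt_true.1 hp
    have n1 : pr0 (lbt x (y + 1)) = false := pr0_lbt_false.2 (by omega)
    have n2 : pr0 (lbt x (y - 1)) = false := pr0_lbt_false.2 (by omega)
    cases d
    · by_cases hL : lbt x y ∈ L
      · have hs : us L (x, y) = true := by unfold us; simp only [hp, hL]; rfl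
        have h1 := ES (w := L) hxy hL
        have e1 : uf L ((x, y), .W) = ((x, y - 1), .N) := by
          unfold uf UW; simp only [hs, Dir.mate]
        rw [e1, uc_W, uc_N, h1.1, h1.2, lab_ve_E hxy]
        refine ⟨by rw [sub_add_cancel], ?_, rfl, ?_⟩
        · unfold ud; simp only [hs, Dir.tn]
        · unfold ui; simp only [n2, Dir.v]; rfl
      · have hs : us L (x, y) = false := by unfold us; simp only [hp, hL]; rfl
        have h1 := EN (w := L) hxy hL
        have e1 : uf L ((x, y), .W) = ((x, y + 1), .S) := by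
          unfold uf UW; simp only [hs, Dir.mate]
        rw [e1, uc_W, uc_S, h1.1, h1.2, lab_ve_E hxy]
        refine ⟨rfl, ?_, rfl, ?_⟩
        · unfold ud; simp only [hs, Dir.tn]
        · unfold ui; simp only [n1, Dir.v]; rfl
    · simp [hp, Dir.v] at hz
    · have g : (x + 1 + y) % 2 = 0 := by omega
      by_cases hL : lbt x y ∈ L
      · have hs : us L (x, y) = true := by unfold us; simp only [hp, hL]; rfl
        have h1 := WN (w := L) g (by rw [add_sub_cancel_right]; exact hL)
        rw [add_sub_cancel_right] at h1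
        have e1 : uf L ((x, y), .E) = ((x, y + 1), .S) := by
          unfold uf UW; simp only [hs, Dir.mate]
        rw [e1, uc_E, uc_S, h1.1, h1.2, lab_ve_W g]
        refine ⟨rfl, ?_, by rw [add_sub_cancel_right]; rfl, ?_⟩
        · unfold ud; simp only [hs, Dir.tn]
        · unfold ui; simp only [n1, Dir.v]; rfl
      · have hs : us L (x, y) = false := by unfold us; simp only [hp, hL]; rfl
        have h1 := WS (w := L) g (by rw [add_sub_cancel_right]; exact hL)
        rw [add_sub_cancel_right] at h1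
        have e1 : uf L ((x, y), .E) = ((x, y - 1), .N) := by
          unfold uf UW; simp only [hs, Dir.mate]
        rw [e1, uc_E, uc_N, h1.1, h1.2, lab_ve_W g]
        refine ⟨by rw [sub_add_cancel], ?_, by rw [add_sub_cancel_right]; rfl, ?_⟩
        · unfold ud; simp only [hs, Dir.tn]
        · unfold ui; simp only [n2, Dir.v]; rfl
    · simp [hp, Dir.v] at hz

/-- the iterates along an incoming end -/
lemma uiter (L : Finset (ℤ × ℤ)) {z : (ℤ × ℤ) × Dir} (hz : ui z = true) (n : ℕ) :
    uc ((uf L)^[n] z) = (nx L)^[n] (uc z) ∧ ui ((uf L)^[n] z) = true := by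
  induction n with
  | zero => exact ⟨rfl, hz⟩
  | succ n ih =>
    rw [Function.iterate_succ_apply', Function.iterate_succ_apply']
    obtain ⟨h1, -, -, h4⟩ := ustep L ih.2
    exact ⟨by rw [h1, ih.1], h4⟩

/-- **A path of the tiles is a path of the step map.** -/
lemma upath (L : Finset (ℤ × ℤ)) {R : Set ((ℤ × ℤ) × Dir)} {n : ℕ} {z z' : (ℤ × ℤ) × Dir} {t : ℤ}
    (hz : ui z = true) (h : Pn (uf L) (ud L) R n z z' t) :
    (nx L)^[n] (uc z) = uc z' ∧ ui z' = true ∧
      (∀ i < n, ∃ u, (u, (((uf L)^[i] z).2)) ∈ R ∧ lab ((nx L)^[i] (uc z)) = lbt u.1 u.2) ∧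
      t = ∑ i ∈ range n, del L ((nx L)^[i] (uc z)) := by
  obtain ⟨h1, h2, h3⟩ := h
  refine ⟨?_, ?_, ?_, ?_⟩
  · rw [← (uiter L hz n).1, h1]
  · rw [← h1]; exact (uiter L hz n).2
  · intro i hi
    refine ⟨((uf L)^[i] z).1, h2 i hi, ?_⟩
    obtain ⟨e1, e2⟩ := uiter L hz i
    rw [← e1]
    exact (ustep L e2).2.2.1
  · rw [h3]
    refine sum_congr rfl fun i _ => ?_
    obtain ⟨e1, e2⟩ := uiter L hz i
    rw [← e1]
    exact (ustep L e2).2.1

/-! ### Rectangles -/

/-- tiles of the rectangle with the corner `(xL, yB)` -/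
def TT (xL yB : ℤ) (i j : ℕ) : ℤ × ℤ := (xL + (i : ℤ), yB + (j : ℤ))

lemma wiresTT (xL yB : ℤ) (w h : ℕ) : Wires (TT xL yB) UW w h := by
  refine ⟨?_, ?_, ?_, ?_⟩ <;> intro i j _ _ <;> unfold UW TT <;>
    refine Prod.ext (Prod.ext ?_ ?_) rfl <;> simp only <;> push_cast <;> ring

/-- **The strands of a rectangle of tiles**, for every set of open labels. -/
theorem rectTD (L : Finset (ℤ × ℤ)) (xL yB : ℤ) {w h : ℕ} (hw : 0 < w) (hh : 0 < h) :
    ∃ M, TD (uf L) (ud L) (Bx' (TT xL yB) w 0 h) (h + w) (se (TT xL yB) w h)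
      (fun k => UW (se (TT xL yB) w h k)) (Kp w h) M :=
  rect_tiles (s := us L) hw hh (fun _ _ _ _ _ => rfl) (fun _ _ _ _ _ => rfl) (wiresTT xL yB w h)

end Pool.Agent.H30.Mid
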