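import Mathlib
import Pool.Agent.H30.Mid.Uni
import Pool.Agent.Q1.M6b.PB

set_option autoImplicit false
open Finset

/-! # The wires of the row on one side of the row

`U = [xL, xL+w) × [y0+1, y0+1+h)` above, `D = [xL, xL+w) × [y0-h, y0)` below the row `(x0 + c, y0)`,
`c < N`. The strands of the rectangle (all tiles frozen) give a noncrossing matching of its ports; the
exceptional columns are those which leave the rectangle elsewhere. -/

namespace Pool.Agent.H30.Mid

open Pool.Agent.H75.Perc Pool.Agent.H75.TwoArm Pool.Agent.Q1 Pool.Agent.H81.G1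
open Pool.Agent.H69.M6b (lbt lbt_inj lbt_odd pr0 PR Pn TD rect_tiles se Kp Bx' Wires tt)
open Pool.Agent.Q1.M6b.Meander (dir dir_lt dir_gt)

variable {N : ℕ}

/-- noncrossing matching of the columns outside `Ex`, which does not separate the columns of `Ex` -/
structure Side (Ex : Finset (Fin N)) (U : Fin N → Fin N) : Prop where
  mem : ∀ c, c ∉ Ex → U c ∉ Ex
  inv : ∀ c, c ∉ Ex → U (U c) = c
  ne : ∀ c, c ∉ Ex → U c ≠ c
  nc : ∀ x, x ∉ Ex → ∀ y, y ∉ Ex → x < y → y < U x → x < U y ∧ U y < U x
  ex : ∀ x, x ∉ Ex → ∀ c ∈ Ex, ¬ (x < c ∧ c < U x)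

/-- port of the column -/
def prt (up : Bool) (p0 : ℕ) (c : Fin N) : ℕ := if up then p0 + c else p0 - c

open Classical in
/-- exceptional columns -/
noncomputable def exc (N : ℕ) (M : ℕ → ℕ) (up : Bool) (p0 : ℕ) : Finset (Fin N) :=
  univ.filter (fun c => ∀ c' : Fin N, M (prt up p0 c) ≠ prt up p0 c')

open Classical in
/-- partner of a column -/
noncomputable def mt (N : ℕ) (M : ℕ → ℕ) (up : Bool) (p0 : ℕ) (c : Fin N) : Fin N :=
  if h : ∃ c' : Fin N, M (prt up p0 c) = prt up p0 c' then Classical.choose h else c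

section

variable {M : ℕ → ℕ} {up : Bool} {p0 n : ℕ}

lemma mem_exc {c : Fin N} : c ∈ exc N M up p0 ↔ ∀ c' : Fin N, M (prt up p0 c) ≠ prt up p0 c' := by
  unfold exc; simp

lemma not_exc {c : Fin N} (h : c ∉ exc N M up p0) :
    M (prt up p0 c) = prt up p0 (mt N M up p0 c) := by
  rw [mem_exc] at h
  push Not at h
  unfold mt
  rw [dif_pos h]
  exact Classical.choose_spec h

lemma prt_inj (hp : up = false → N ≤ p0 + 1) {c c' : Fin N} (h : prt up p0 c = prt up p0 c') :
    c = c' := by
  unfold prt at h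
  have h1 := c.2
  have h2 := c'.2
  cases up
  · have := hp rfl
    simp only [Bool.false_eq_true, if_false] at h
    exact Fin.ext (by omega)
  · simp only [if_true] at h
    exact Fin.ext (by omega)

/-- **The matching of the columns on one side.** -/
theorem side_of {D : Type*} {f : D → D} {δ : D → ℤ} {R : Set D} {inn out : ℕ → D} {K : ℕ → ℤ}
    (hT : TD f δ R n inn out K M) (hp : up = false → N ≤ p0 + 1) (hlt : ∀ c : Fin N, prt up p0 c < 2 * n) :
    Side (exc N M up p0) (mt N M up p0) := by
  have hinv : ∀ c, c ∉ exc N M up p0 → M (prt up p0 (mt N M up p0 c)) = prt up p0 c := by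
    intro c hc
    rw [← not_exc hc]
    exact hT.inv _ (hlt c)
  have hmem : ∀ c, c ∉ exc N M up p0 → mt N M up p0 c ∉ exc N M up p0 := by
    intro c hc h
    exact mem_exc.1 h c (hinv c hc)
  have hi : ∀ c, c ∉ exc N M up p0 → mt N M up p0 (mt N M up p0 c) = c := by
    intro c hc
    apply prt_inj hp
    rw [← not_exc (hmem c hc), hinv c hc]
  have hne : ∀ c, c ∉ exc N M up p0 → mt N M up p0 c ≠ c := by
    intro c hc h
    apply hT.ne _ (hlt c)
    rw [not_exc hc, h]
  refine ⟨hmem, hi, hne, ?_, ?_⟩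
  · intro x hx y hy h1 h2
    have hk := hlt x
    have hl := hlt y
    have e1 := not_exc hx
    have e2 := not_exc hy
    have n1 : prt up p0 y ≠ prt up p0 x := fun h => by
      have := prt_inj hp h
      rw [this] at h1
      exact lt_irrefl _ h1
    have n2 : prt up p0 y ≠ M (prt up p0 x) := fun h => by
      rw [e1] at h
      have := prt_inj hp h
      rw [← this] at h2
      exact lt_irrefl _ h2
    have n3 : mt N M up p0 y ≠ x := fun h => by
      have := hi y hy
      rw [h] at this
      rw [this] at h2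
      exact lt_irrefl _ h2
    have n4 : mt N M up p0 y ≠ mt N M up p0 x := fun h => by
      have := congrArg (mt N M up p0) h
      rw [hi y hy, hi x hx] at this
      rw [this] at h1
      exact lt_irrefl _ h1
    have key := hT.nc _ hk _ hl n1 n2
    rw [e1, e2] at key
    have b1 := (mt N M up p0 x).2
    have b2 := (mt N M up p0 y).2
    have b3 := y.2
    have b4 := x.2
    have c1 : (x : ℕ) < y := h1
    have c2 : (y : ℕ) < mt N M up p0 x := h2
    have c3 : ((mt N M up p0 y : Fin N) : ℕ) ≠ x := fun h => n3 (Fin.ext h)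
    have c4 : ((mt N M up p0 y : Fin N) : ℕ) ≠ mt N M up p0 x := fun h => n4 (Fin.ext h)
    rw [Fin.lt_def, Fin.lt_def]
    unfold prt at key
    cases up
    · have := hp rfl
      simp only [Bool.false_eq_true, if_false] at key
      omega
    · simp only [if_true] at key
      omega
  · rintro x hx c hc ⟨h1, h2⟩
    have hk := hlt x
    have hl := hlt c
    have e1 := not_exc hx
    have n1 : prt up p0 c ≠ prt up p0 x := fun h => by
      have := prt_inj hp h
      rw [this] at h1
      exact lt_irrefl _ h1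
    have n2 : prt up p0 c ≠ M (prt up p0 x) := fun h => by
      rw [e1] at h
      have := prt_inj hp h
      rw [← this] at h2
      exact lt_irrefl _ h2
    have key := hT.nc _ hk _ hl n1 n2
    rw [e1] at key
    have b1 := (mt N M up p0 x).2
    have b3 := c.2
    have b4 := x.2
    have c1 : (x : ℕ) < c := h1
    have c2 : (c : ℕ) < mt N M up p0 x := h2
    have hcc := mem_exc.1 hc
    unfold prt at key hcc
    cases up
    · have := hp rfl
      simp only [Bool.false_eq_true, if_false] at key hcc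
      have h3 : p0 - (mt N M false p0 x : ℕ) ≤ M (p0 - c) ∧ M (p0 - c) ≤ p0 - x := by omega
      exact hcc ⟨p0 - M (p0 - c), by omega⟩ (by simp only; omega)
    · simp only [if_true] at key hcc
      have h3 : p0 + (x : ℕ) ≤ M (p0 + c) ∧ M (p0 + c) ≤ p0 + (mt N M true p0 x : ℕ) := by omega
      exact hcc ⟨M (p0 + c) - p0, by omega⟩ (by simp only; omega)

end

/-! ### Wires -/

section

variable {X2 : Env} {x0 y0 : ℤ} {Nw : Net (Fin N)} {n0 : ℕ} {L : Finset (ℤ × ℤ)}

/-- outside the random labels the step map is `nx L` -/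
def OutL (X : Env) (L : Finset (ℤ × ℤ)) : Prop :=
  ∀ c, lab c ∉ X.E → X.out c = nx L c ∧ X.dout c = del L c

lemma outL_iter (ho : OutL X2 L) {c : ℤ × ℤ} {n : ℕ} (h : ∀ i < n, lab ((nx L)^[i] c) ∉ X2.E) :
    ∀ i ≤ n, X2.out^[i] c = (nx L)^[i] c := by
  intro i
  induction i with
  | zero => intro _; rfl
  | succ i ih =>
    intro hi
    rw [Function.iterate_succ_apply', Function.iterate_succ_apply', ih (by omega)]
    exact (ho _ (h i (by omega))).1

/-- a path between two ends of the row, off the row, is a wire -/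
lemma wire_of_path (W : Wired X2 (rl x0 y0) (rp x0 y0) (rcr x0 y0) Nw n0) (ho : OutL X2 L)
    {x x' : Fin N × Dir} (hx : inc (rp x0 y0) x = false) (hx' : inc (rp x0 y0) x' = true) {n : ℕ}
    (h1 : (nx L)^[n] (rcr x0 y0 x) = rcr x0 y0 x')
    (h2 : ∀ i < n, lab ((nx L)^[i] (rcr x0 y0 x)) ∉ X2.E) :
    Nw.π x = x' ∧ Nw.t x = ∑ i ∈ range n, del L ((nx L)^[i] (rcr x0 y0 x)) := by
  obtain ⟨m, w1, w2, w3⟩ := W.wire x hx
  have hi := outL_iter ho h2
  have hπ : inc (rp x0 y0) (Nw.π x) = true := by rw [W.good.ty, hx]; rfl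
  have hmn : m = n := by
    rcases lt_trichotomy m n with h | h | h
    · exfalso
      apply h2 m h
      rw [← hi m h.le, ← w2]
      exact mem_cr W.tiles hπ
    · exact h
    · exfalso
      apply w1 n h
      rw [hi n le_rfl, h1]
      exact mem_cr W.tiles hx'
  subst hmn
  refine ⟨?_, ?_⟩
  · apply cr_inj W.tiles hπ hx'
    rw [w2, hi m le_rfl, h1]
  · rw [w3]
    refine sum_congr rfl fun i hi' => ?_
    have hi' := mem_range.1 hi'
    rw [hi i hi'.le]
    exact (ho _ (h2 i hi')).2

end

end Pool.Agent.H30.Mid
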