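import Mathlib
import Pool.Agent.H30.Mid.Half

set_option autoImplicit false
open Finset

/-! # The wires above and below the row -/

namespace Pool.Agent.H30.Mid

open Pool.Agent.H75.Perc Pool.Agent.H75.TwoArm Pool.Agent.Q1 Pool.Agent.H81.G1
open Pool.Agent.H69.M6b (lbt lbt_inj lbt_odd pr0 PR Pn TD rect_tiles se Kp Bx' Wires tt)
open Pool.Agent.Q1.M6b.Meander (dir dir_lt dir_gt)
open Pool.Agent.H74.R45 (he ve)

variable {N : ℕ}

/-! ### Parity is preserved by the step map of the tiles -/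

lemma ui_UW (z : (ℤ × ℤ) × Dir) : ui (UW z) = !ui z := by
  obtain ⟨⟨x, y⟩, d⟩ := z
  have flip : ∀ {a b a' b' : ℤ}, (a + b + a' + b') % 2 = 1 → pr0 (lbt a' b') = !pr0 (lbt a b) := by
    intro a b a' b' h
    cases h1 : pr0 (lbt a b)
    · have := pr0_lbt_false.1 h1
      exact pr0_lbt_true.2 (by omega)
    · have := pr0_lbt_true.1 h1
      exact pr0_lbt_false.2 (by omega)
  unfold ui UW
  cases d <;> simp only [Dir.v]
  · rw [flip (a := x) (b := y) (a' := x - 1) (b' := y) (by omega)]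
    cases pr0 (lbt x y) <;> rfl
  · rw [flip (a := x) (b := y) (a' := x) (b' := y + 1) (by omega)]
    cases pr0 (lbt x y) <;> rfl
  · rw [flip (a := x) (b := y) (a' := x + 1) (b' := y) (by omega)]
    cases pr0 (lbt x y) <;> rfl
  · rw [flip (a := x) (b := y) (a' := x) (b' := y - 1) (by omega)]
    cases pr0 (lbt x y) <;> rfl

lemma ui_mate (t : ℤ × ℤ) (s : Bool) (d : Dir) : ui (t, Dir.mate s d) = !ui (t, d) := by
  unfold ui
  cases s <;> cases d <;> simp [Dir.mate, Dir.v]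

lemma ui_uf (L : Finset (ℤ × ℤ)) (z : (ℤ × ℤ) × Dir) : ui (uf L z) = ui z := by
  unfold uf
  rw [ui_UW, ui_mate, Bool.not_not]

lemma ui_iter (L : Finset (ℤ × ℤ)) (z : (ℤ × ℤ) × Dir) (n : ℕ) : ui ((uf L)^[n] z) = ui z := by
  induction n with
  | zero => rfl
  | succ n ih => rw [Function.iterate_succ_apply', ui_uf, ih]

/-! ### Ports of the rectangles -/

section

variable {x0 y0 : ℤ} {o w h : ℕ}

/-- above the row -/
lemma se_up (c : Fin N) (how : o + N ≤ w) :
    se (TT (x0 - o) (y0 + 1)) w h (prt true (h + o) c) = ((x0 + (c : ℕ), y0 + 1), .S) := by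
  have hc := c.2
  have e : prt true (h + o) c = h + o + c := rfl
  rw [e]
  unfold se TT
  rw [if_neg (by omega), if_pos (by omega)]
  refine Prod.ext (Prod.ext ?_ ?_) rfl
  · simp only
    have : ((h + o + (c : ℕ) - h : ℕ) : ℤ) = o + (c : ℕ) := by omega
    rw [this]; ring
  · simp

/-- below the row -/
lemma se_dn (c : Fin N) (how : o + N ≤ w) (hh : 0 < h) :
    se (TT (x0 - o) (y0 - h)) w h (prt false (2 * (h + w) - 1 - o) c) =
      ((x0 + (c : ℕ), y0 - 1), .N) := by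
  have hc := c.2
  have e : prt false (2 * (h + w) - 1 - o) c = 2 * (h + w) - 1 - o - c := rfl
  rw [e]
  unfold se TT
  rw [if_neg (by omega), if_neg (by omega), if_neg (by omega)]
  refine Prod.ext (Prod.ext ?_ ?_) rfl
  · simp only
    have : ((2 * (h + w) - 1 - (2 * (h + w) - 1 - o - (c : ℕ)) : ℕ) : ℤ) = o + (c : ℕ) := by omega
    rw [this]; ring
  · simp only
    omega

lemma Kp_up (c : Fin N) (how : o + N ≤ w) : Kp w h (prt true (h + o) c) = 1 := by
  have hc := c.2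
  have e : prt true (h + o) c = h + o + c := rfl
  rw [e]
  unfold Kp
  rw [if_neg (by omega), if_pos (by omega)]

lemma Kp_dn (c : Fin N) (how : o + N ≤ w) : Kp w h (prt false (2 * (h + w) - 1 - o) c) = 1 := by
  have hc := c.2
  have e : prt false (2 * (h + w) - 1 - o) c = 2 * (h + w) - 1 - o - c := rfl
  rw [e]
  unfold Kp
  rw [if_neg (by omega), if_neg (by omega), if_neg (by omega)]

lemma tt_up {c c' : Fin N} (hne : c ≠ c') (how : o + N ≤ w) :
    tt (h + w) (Kp w h) (prt true (h + o) c) (prt true (h + o) c') = -2 * dir c c' := by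
  have hc := c.2
  have hc' := c'.2
  unfold tt
  rw [Kp_up c how, Kp_up c' how]
  have e : prt true (h + o) c = h + o + c := rfl
  have e' : prt true (h + o) c' = h + o + c' := rfl
  rw [e, e', if_pos (by omega)]
  rcases lt_or_gt_of_ne hne with h1 | h1
  · have h2 : (c : ℕ) < c' := h1
    rw [dir_lt h1, if_pos (by omega)]; ring
  · have h2 : (c' : ℕ) < c := h1
    rw [dir_gt h1, if_neg (by omega)]; ring

lemma tt_dn {c c' : Fin N} (hne : c ≠ c') (how : o + N ≤ w) :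
    tt (h + w) (Kp w h) (prt false (2 * (h + w) - 1 - o) c) (prt false (2 * (h + w) - 1 - o) c') =
      2 * dir c c' := by
  have hc := c.2
  have hc' := c'.2
  unfold tt
  rw [Kp_dn c how, Kp_dn c' how]
  have e : prt false (2 * (h + w) - 1 - o) c = 2 * (h + w) - 1 - o - c := rfl
  have e' : prt false (2 * (h + w) - 1 - o) c' = 2 * (h + w) - 1 - o - c' := rfl
  rw [e, e', if_pos (by omega)]
  rcases lt_or_gt_of_ne hne with h1 | h1
  · have h2 : (c : ℕ) < c' := h1
    rw [dir_lt h1, if_neg (by omega)]; ring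
  · have h2 : (c' : ℕ) < c := h1
    rw [dir_gt h1, if_pos (by omega)]; ring

lemma rcr_N (c : Fin N) : rcr x0 y0 (c, .N) = he (x0 + (c : ℕ), y0 + 1) := by
  have := uc_N (x0 + (c : ℕ)) y0
  exact this

lemma rcr_S (c : Fin N) : rcr x0 y0 (c, .S) = he (x0 + (c : ℕ), y0) := by
  have := uc_S (x0 + (c : ℕ)) y0
  exact this

lemma rcr_W (c : Fin N) : rcr x0 y0 (c, .W) = ve (x0 + (c : ℕ), y0) := by
  have := uc_W (x0 + (c : ℕ)) y0
  exact this

lemma rcr_E (c : Fin N) : rcr x0 y0 (c, .E) = ve (x0 + (c : ℕ) + 1, y0) := by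
  have := uc_E (x0 + (c : ℕ)) y0
  exact this

lemma rp_true (c : Fin N) : rp x0 y0 c = true ↔ (x0 + (c : ℕ) + y0) % 2 = 1 := pr0_lbt_true

lemma rp_false (c : Fin N) : rp x0 y0 c = false ↔ (x0 + (c : ℕ) + y0) % 2 = 0 := pr0_lbt_false

lemma not_RS {x y : ℤ} (hy : y ≠ y0) : lbt x y ∉ RS N x0 y0 := by
  rw [mem_RS]
  rintro ⟨c, hc⟩
  exact hy (lbt_inj hc).2.symm

/-! ### The wires -/

variable {X2 : Env} {Nw : Net (Fin N)} {n0 : ℕ} {L : Finset (ℤ × ℤ)} {M : ℕ → ℕ}

lemma sideU (how : o + N ≤ w)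
    (hT : TD (uf L) (ud L) (Bx' (TT (x0 - o) (y0 + 1)) w 0 h) (h + w) (se (TT (x0 - o) (y0 + 1)) w h)
      (fun k => UW (se (TT (x0 - o) (y0 + 1)) w h k)) (Kp w h) M) :
    Side (exc N M true (h + o)) (mt N M true (h + o)) := by
  refine side_of hT (N := N) (up := true) (p0 := h + o) (fun h => by simp at h) (fun c => ?_)
  have e : prt true (h + o) c = h + o + c := rfl
  have := c.2
  omega

lemma sideD (how : o + N ≤ w) (hh : 0 < h)
    (hT : TD (uf L) (ud L) (Bx' (TT (x0 - o) (y0 - h)) w 0 h) (h + w) (se (TT (x0 - o) (y0 - h)) w h)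
      (fun k => UW (se (TT (x0 - o) (y0 - h)) w h k)) (Kp w h) M) :
    Side (exc N M false (2 * (h + w) - 1 - o)) (mt N M false (2 * (h + w) - 1 - o)) := by
  refine side_of hT (N := N) (up := false) (p0 := 2 * (h + w) - 1 - o) (fun _ => by omega) (fun c => ?_)
  have e : prt false (2 * (h + w) - 1 - o) c = 2 * (h + w) - 1 - o - c := rfl
  have := c.2
  omega

/-- strands above the row: from an outgoing column -/
lemma up_path (how : o + N ≤ w) (hh : 0 < h)
    (hT : TD (uf L) (ud L) (Bx' (TT (x0 - o) (y0 + 1)) w 0 h) (h + w) (se (TT (x0 - o) (y0 + 1)) w h)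
      (fun k => UW (se (TT (x0 - o) (y0 + 1)) w h k)) (Kp w h) M)
    {c : Fin N} (hc : c ∉ exc N M true (h + o)) (hp : rp x0 y0 c = true) :
    ∃ n, (nx L)^[n] (rcr x0 y0 (c, .N)) = rcr x0 y0 (mt N M true (h + o) c, .N) ∧
      rp x0 y0 (mt N M true (h + o) c) = false ∧
      (∀ i < n, ∃ x y : ℤ, lab ((nx L)^[i] (rcr x0 y0 (c, .N))) = lbt x y ∧
        x0 - o ≤ x ∧ x < x0 - o + w ∧ y0 + 1 ≤ y ∧ y < y0 + 1 + h) ∧
      ∑ i ∈ range n, del L ((nx L)^[i] (rcr x0 y0 (c, .N))) = -2 * dir c (mt N M true (h + o) c) := by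
  have hcN := c.2
  have hk : prt true (h + o) c < 2 * (h + w) := by
    have e : prt true (h + o) c = h + o + c := rfl
    omega
  have hS := sideU how hT
  set c' := mt N M true (h + o) c with hc'
  obtain ⟨n, hn⟩ := hT.path _ hk
  rw [not_exc hc, ← hc', se_up c how, se_up c' how, tt_up (hS.ne c hc).symm how] at hn
  have e1 : UW ((x0 + ((c' : Fin N) : ℕ), y0 + 1), Dir.S) = ((x0 + (c' : ℕ), y0), Dir.N) := by
    unfold UW
    refine Prod.ext (Prod.ext rfl ?_) rfl
    simp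
  rw [e1] at hn
  have hz : ui ((x0 + (c : ℕ), y0 + 1), Dir.S) = true := by
    have h1 := (rp_true c).1 hp
    have h2 : pr0 (lbt (x0 + (c : ℕ)) (y0 + 1)) = false := pr0_lbt_false.2 (by omega)
    unfold ui; simp only [h2, Dir.v]; rfl
  obtain ⟨a1, a2, a3, a4⟩ := upath L hz hn
  rw [uc_S, uc_N, ← rcr_N (x0 := x0) (y0 := y0) c, ← rcr_N (x0 := x0) (y0 := y0) c'] at a1
  rw [uc_S, ← rcr_N (x0 := x0) (y0 := y0) c] at a3 a4
  refine ⟨n, a1, ?_, ?_, a4.symm⟩
  · have h1 : ui ((x0 + ((c' : Fin N) : ℕ), y0), Dir.N) = xor (rp x0 y0 c') true := rfl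
    rw [h1] at a2
    cases h2 : rp x0 y0 c'
    · rfl
    · rw [h2] at a2; simp at a2
  · intro i hi
    obtain ⟨u, hu, hl⟩ := a3 i hi
    obtain ⟨i', hi', j', -, hj', e⟩ := hu
    simp only at e
    refine ⟨u.1, u.2, hl, ?_, ?_, ?_, ?_⟩ <;> rw [e] <;> unfold TT <;> simp only <;> omega

/-- strands below the row: from an outgoing column -/
lemma dn_path (how : o + N ≤ w) (hh : 0 < h)
    (hT : TD (uf L) (ud L) (Bx' (TT (x0 - o) (y0 - h)) w 0 h) (h + w) (se (TT (x0 - o) (y0 - h)) w h)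
      (fun k => UW (se (TT (x0 - o) (y0 - h)) w h k)) (Kp w h) M)
    {c : Fin N} (hc : c ∉ exc N M false (2 * (h + w) - 1 - o)) (hp : rp x0 y0 c = true) :
    ∃ n, (nx L)^[n] (rcr x0 y0 (c, .S)) = rcr x0 y0 (mt N M false (2 * (h + w) - 1 - o) c, .S) ∧
      rp x0 y0 (mt N M false (2 * (h + w) - 1 - o) c) = false ∧
      (∀ i < n, ∃ x y : ℤ, lab ((nx L)^[i] (rcr x0 y0 (c, .S))) = lbt x y ∧
        x0 - o ≤ x ∧ x < x0 - o + w ∧ y0 - h ≤ y ∧ y < y0) ∧
      ∑ i ∈ range n, del L ((nx L)^[i] (rcr x0 y0 (c, .S))) =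
        2 * dir c (mt N M false (2 * (h + w) - 1 - o) c) := by
  have hcN := c.2
  have hprt : ∀ c : Fin N, prt false (2 * (h + w) - 1 - o) c = 2 * (h + w) - 1 - o - c := fun _ => rfl
  have hk : prt false (2 * (h + w) - 1 - o) c < 2 * (h + w) := by
    rw [hprt]; omega
  have hS := sideD how hh hT
  set c' := mt N M false (2 * (h + w) - 1 - o) c with hc'
  obtain ⟨n, hn⟩ := hT.path _ hk
  rw [not_exc hc, ← hc', se_dn c how hh, se_dn c' how hh, tt_dn (hS.ne c hc).symm how] at hn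
  have e1 : UW ((x0 + ((c' : Fin N) : ℕ), y0 - 1), Dir.N) = ((x0 + (c' : ℕ), y0), Dir.S) := by
    unfold UW
    refine Prod.ext (Prod.ext rfl ?_) rfl
    simp
  rw [e1] at hn
  have hz : ui ((x0 + (c : ℕ), y0 - 1), Dir.N) = true := by
    have h1 := (rp_true c).1 hp
    have h2 : pr0 (lbt (x0 + (c : ℕ)) (y0 - 1)) = false := pr0_lbt_false.2 (by omega)
    unfold ui; simp only [h2, Dir.v]; rfl
  obtain ⟨a1, a2, a3, a4⟩ := upath L hz hn
  rw [uc_N, uc_S, sub_add_cancel, ← rcr_S (x0 := x0) (y0 := y0) c,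
    ← rcr_S (x0 := x0) (y0 := y0) c'] at a1
  rw [uc_N, sub_add_cancel, ← rcr_S (x0 := x0) (y0 := y0) c] at a3 a4
  refine ⟨n, a1, ?_, ?_, a4.symm⟩
  · have h1 : ui ((x0 + ((c' : Fin N) : ℕ), y0), Dir.S) = xor (rp x0 y0 c') true := rfl
    rw [h1] at a2
    cases h2 : rp x0 y0 c'
    · rfl
    · rw [h2] at a2; simp at a2
  · intro i hi
    obtain ⟨u, hu, hl⟩ := a3 i hi
    obtain ⟨i', hi', j', -, hj', e⟩ := hu
    simp only at e
    refine ⟨u.1, u.2, hl, ?_, ?_, ?_, ?_⟩ <;> rw [e] <;> unfold TT <;> simp only <;> omega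

/-- the partner of an incoming column is outgoing -/
lemma up_par (how : o + N ≤ w)
    (hT : TD (uf L) (ud L) (Bx' (TT (x0 - o) (y0 + 1)) w 0 h) (h + w) (se (TT (x0 - o) (y0 + 1)) w h)
      (fun k => UW (se (TT (x0 - o) (y0 + 1)) w h k)) (Kp w h) M)
    {c : Fin N} (hc : c ∉ exc N M true (h + o)) (hp : rp x0 y0 c = false) :
    rp x0 y0 (mt N M true (h + o) c) = true := by
  have hcN := c.2
  have hk : prt true (h + o) c < 2 * (h + w) := by
    have e : prt true (h + o) c = h + o + c := rfl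
    omega
  set c' := mt N M true (h + o) c with hc'
  obtain ⟨n, hn, -, -⟩ := hT.path _ hk
  rw [not_exc hc, ← hc', se_up c how] at hn
  simp only [se_up c' how] at hn
  have h1 : ui ((x0 + (c : ℕ), y0 + 1), Dir.S) = false := by
    have h1 := (rp_false c).1 hp
    have h2 : pr0 (lbt (x0 + (c : ℕ)) (y0 + 1)) = true := pr0_lbt_true.2 (by omega)
    unfold ui; simp only [h2, Dir.v]; rfl
  rw [← ui_iter L _ n, hn, ui_UW] at h1
  have h2 : ui ((x0 + (c' : ℕ), y0 + 1), Dir.S) = true := by simpa using h1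
  unfold ui at h2
  simp only [Dir.v] at h2
  have h3 : pr0 (lbt (x0 + (c' : ℕ)) (y0 + 1)) = false := by
    cases h4 : pr0 (lbt (x0 + (c' : ℕ)) (y0 + 1))
    · rfl
    · rw [h4] at h2; simp at h2
  have h4 := pr0_lbt_false.1 h3
  exact (rp_true c').2 (by omega)

/-- the partner of an incoming column is outgoing -/
lemma dn_par (how : o + N ≤ w) (hh : 0 < h)
    (hT : TD (uf L) (ud L) (Bx' (TT (x0 - o) (y0 - h)) w 0 h) (h + w) (se (TT (x0 - o) (y0 - h)) w h)
      (fun k => UW (se (TT (x0 - o) (y0 - h)) w h k)) (Kp w h) M)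
    {c : Fin N} (hc : c ∉ exc N M false (2 * (h + w) - 1 - o)) (hp : rp x0 y0 c = false) :
    rp x0 y0 (mt N M false (2 * (h + w) - 1 - o) c) = true := by
  have hcN := c.2
  have hprt : ∀ c : Fin N, prt false (2 * (h + w) - 1 - o) c = 2 * (h + w) - 1 - o - c := fun _ => rfl
  have hk : prt false (2 * (h + w) - 1 - o) c < 2 * (h + w) := by
    rw [hprt]; omega
  set c' := mt N M false (2 * (h + w) - 1 - o) c with hc'
  obtain ⟨n, hn, -, -⟩ := hT.path _ hk
  rw [not_exc hc, ← hc', se_dn c how hh] at hn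
  simp only [se_dn c' how hh] at hn
  have h1 : ui ((x0 + (c : ℕ), y0 - 1), Dir.N) = false := by
    have h1 := (rp_false c).1 hp
    have h2 : pr0 (lbt (x0 + (c : ℕ)) (y0 - 1)) = true := pr0_lbt_true.2 (by omega)
    unfold ui; simp only [h2, Dir.v]; rfl
  rw [← ui_iter L _ n, hn, ui_UW] at h1
  have h2 : ui ((x0 + (c' : ℕ), y0 - 1), Dir.N) = true := by simpa using h1
  unfold ui at h2
  simp only [Dir.v] at h2
  have h3 : pr0 (lbt (x0 + (c' : ℕ)) (y0 - 1)) = false := by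
    cases h4 : pr0 (lbt (x0 + (c' : ℕ)) (y0 - 1))
    · rfl
    · rw [h4] at h2; simp at h2
  have h4 := pr0_lbt_false.1 h3
  exact (rp_true c').2 (by omega)

lemma dir_symm {c c' : Fin N} (h : c ≠ c') : dir c' c = -dir c c' := by
  rcases lt_or_gt_of_ne h with h1 | h1
  · rw [dir_lt h1, dir_gt h1]
  · rw [dir_lt h1, dir_gt h1]; rfl

/-- **The wires above the row.** -/
theorem up_wire (W : Wired X2 (rl x0 y0) (rp x0 y0) (rcr x0 y0) Nw n0) (ho : OutL X2 L)
    (hE : X2.E = RS N x0 y0) (how : o + N ≤ w) (hh : 0 < h)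
    (hT : TD (uf L) (ud L) (Bx' (TT (x0 - o) (y0 + 1)) w 0 h) (h + w) (se (TT (x0 - o) (y0 + 1)) w h)
      (fun k => UW (se (TT (x0 - o) (y0 + 1)) w h k)) (Kp w h) M)
    {c : Fin N} (hc : c ∉ exc N M true (h + o)) :
    Nw.π (c, .N) = (mt N M true (h + o) c, .N) ∧
      Nw.t (c, .N) = -2 * dir c (mt N M true (h + o) c) := by
  have hS := sideU how hT
  have key : ∀ c, c ∉ exc N M true (h + o) → rp x0 y0 c = true →
      Nw.π (c, .N) = (mt N M true (h + o) c, .N) ∧
        Nw.t (c, .N) = -2 * dir c (mt N M true (h + o) c) := by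
    intro c hc hp
    obtain ⟨n, a1, a2, a3, a4⟩ := up_path how hh hT hc hp
    have hx : inc (rp x0 y0) (c, Dir.N) = false := by
      unfold inc; simp only [hp, Dir.v]; rfl
    have hx' : inc (rp x0 y0) (mt N M true (h + o) c, Dir.N) = true := by
      unfold inc; simp only [a2, Dir.v]; rfl
    obtain ⟨b1, b2⟩ := wire_of_path W ho hx hx' a1 (fun i hi => by
      obtain ⟨x, y, e, -, -, hy, -⟩ := a3 i hi
      rw [hE, e]
      exact not_RS (by omega))
    exact ⟨b1, by rw [b2, a4]⟩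
  cases hp : rp x0 y0 c
  · have h1 := hS.mem c hc
    obtain ⟨b1, b2⟩ := key _ h1 (up_par how hT hc hp)
    rw [hS.inv c hc] at b1 b2
    have e1 : Nw.π (c, .N) = (mt N M true (h + o) c, .N) := by rw [← b1, W.good.inv]
    refine ⟨e1, ?_⟩
    have e2 := W.good.t_neg (mt N M true (h + o) c, .N)
    rw [b1, b2] at e2
    rw [e2, dir_symm (hS.ne c hc).symm]
    ring
  · exact key c hc hp

/-- **The wires below the row.** -/
theorem dn_wire (W : Wired X2 (rl x0 y0) (rp x0 y0) (rcr x0 y0) Nw n0) (ho : OutL X2 L)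
    (hE : X2.E = RS N x0 y0) (how : o + N ≤ w) (hh : 0 < h)
    (hT : TD (uf L) (ud L) (Bx' (TT (x0 - o) (y0 - h)) w 0 h) (h + w) (se (TT (x0 - o) (y0 - h)) w h)
      (fun k => UW (se (TT (x0 - o) (y0 - h)) w h k)) (Kp w h) M)
    {c : Fin N} (hc : c ∉ exc N M false (2 * (h + w) - 1 - o)) :
    Nw.π (c, .S) = (mt N M false (2 * (h + w) - 1 - o) c, .S) ∧
      Nw.t (c, .S) = 2 * dir c (mt N M false (2 * (h + w) - 1 - o) c) := by
  have hS := sideD how hh hT
  have key : ∀ c, c ∉ exc N M false (2 * (h + w) - 1 - o) → rp x0 y0 c = true →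
      Nw.π (c, .S) = (mt N M false (2 * (h + w) - 1 - o) c, .S) ∧
        Nw.t (c, .S) = 2 * dir c (mt N M false (2 * (h + w) - 1 - o) c) := by
    intro c hc hp
    obtain ⟨n, a1, a2, a3, a4⟩ := dn_path how hh hT hc hp
    have hx : inc (rp x0 y0) (c, Dir.S) = false := by
      unfold inc; simp only [hp, Dir.v]; rfl
    have hx' : inc (rp x0 y0) (mt N M false (2 * (h + w) - 1 - o) c, Dir.S) = true := by
      unfold inc; simp only [a2, Dir.v]; rfl
    obtain ⟨b1, b2⟩ := wire_of_path W ho hx hx' a1 (fun i hi => by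
      obtain ⟨x, y, e, -, -, hy, hy'⟩ := a3 i hi
      rw [hE, e]
      exact not_RS (by omega))
    exact ⟨b1, by rw [b2, a4]⟩
  cases hp : rp x0 y0 c
  · have h1 := hS.mem c hc
    obtain ⟨b1, b2⟩ := key _ h1 (dn_par how hh hT hc hp)
    rw [hS.inv c hc] at b1 b2
    have e1 : Nw.π (c, .S) = (mt N M false (2 * (h + w) - 1 - o) c, .S) := by rw [← b1, W.good.inv]
    refine ⟨e1, ?_⟩
    have e2 := W.good.t_neg (mt N M false (2 * (h + w) - 1 - o) c, .S)
    rw [b1, b2] at e2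
    rw [e2, dir_symm (hS.ne c hc).symm]
    ring
  · exact key c hc hp

end

end Pool.Agent.H30.Mid
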