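import Mathlib
import Pool.Agent.H30.Mid.Sides

set_option autoImplicit false
open Finset

/-! # Planarity of the network of the row -/

namespace Pool.Agent.H30.Mid

open Pool.Agent.H75.Perc Pool.Agent.H75.TwoArm Pool.Agent.Q1 Pool.Agent.H81.G1
open Pool.Agent.H69.M6b (lbt lbt_inj lbt_odd pr0 PR Pn TD rect_tiles se Kp Bx' Wires tt)
open Pool.Agent.Q1.M6b.Meander (dir dir_lt dir_gt)
open Pool.Agent.Q1.M6b.ExN Pool.Agent.Q1.M6b.Strand
open Pool.Agent.H74.R45 (he ve)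

variable {N : ℕ}

lemma first_hit {α : Type*} {f : α → α} {P : α → Prop} {c : α} {m n : ℕ}
    (h1 : ∀ i < m, ¬ P (f^[i] c)) (h2 : P (f^[m] c)) (h3 : ∀ i < n, ¬ P (f^[i] c))
    (h4 : P (f^[n] c)) : m = n := by
  rcases lt_trichotomy m n with h | h | h
  · exact absurd h2 (h3 m h)
  · exact h
  · exact absurd h4 (h1 n h)

section

variable {x0 y0 : ℤ} {X2 : Env} {Nw : Net (Fin N)} {n0 : ℕ} {L : Finset (ℤ × ℤ)}

lemma outL_iter' (ho : OutL X2 L) {c : ℤ × ℤ} {n : ℕ} (h : ∀ i < n, lab (X2.out^[i] c) ∉ X2.E) :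
    ∀ i ≤ n, X2.out^[i] c = (nx L)^[i] c := by
  intro i
  induction i with
  | zero => intro _; rfl
  | succ i ih =>
    intro hi
    rw [Function.iterate_succ_apply', Function.iterate_succ_apply', ← ih (by omega)]
    exact (ho _ (h i (by omega))).1

/-- the label before an outgoing end of the row -/
lemma plab_out (T : Tiles X2 (rl (N := N) x0 y0) (rp x0 y0) (rcr x0 y0)) {x : Fin N × Dir}
    (hx : inc (rp x0 y0) x = false) : plab (rcr x0 y0 x) = rl x0 y0 x.1 := by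
  have h1 : inc (rp x0 y0) (par (stt (rl x0 y0) (rp x0 y0) ∅) x) = true := by
    rw [inc_par, hx]; rfl
  rw [cr_out (ω := ∅) T hx, Env.f_in (mem_cr T h1), plab_nx, lab_cr T h1]
  rfl

/-- the wires of the row -/
lemma row_wire (W : Wired X2 (rl x0 y0) (rp x0 y0) (rcr x0 y0) Nw n0) {c c' : Fin N}
    (h : (c' : ℕ) = c + 1) : Nw.π (c, .E) = (c', .W) ∧ Nw.π (c', .W) = (c, .E) := by
  have hc : rcr x0 y0 (c, .E) = rcr x0 y0 (c', .W) := by
    rw [rcr_E, rcr_W, h]; push_cast; rw [add_assoc]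
  have hi : inc (rp x0 y0) (c, Dir.E) = !inc (rp x0 y0) (c', Dir.W) := by
    unfold inc
    simp only [Dir.v]
    cases h1 : rp x0 y0 c
    · have h2 := (rp_false c).1 h1
      have h3 : rp x0 y0 c' = true := (rp_true c').2 (by omega)
      rw [h3]; rfl
    · have h2 := (rp_true c).1 h1
      have h3 : rp x0 y0 c' = false := (rp_false c').2 (by omega)
      rw [h3]; rfl
  have key : ∀ {x y : Fin N × Dir}, rcr x0 y0 x = rcr x0 y0 y → inc (rp x0 y0) x = false →
      inc (rp x0 y0) y = true → Nw.π x = y := by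
    intro x y e h1 h2
    obtain ⟨n, w1, w2, -⟩ := W.wire x h1
    have hn : n = 0 := by
      rcases Nat.eq_zero_or_pos n with h3 | h3
      · exact h3
      · exfalso
        apply w1 0 h3
        show lab (rcr x0 y0 x) ∈ X2.E
        rw [e]
        exact mem_cr W.tiles h2
    subst hn
    apply cr_inj W.tiles (by rw [W.good.ty, h1]; rfl) h2
    rw [w2]
    exact e
  cases h1 : inc (rp x0 y0) (c', Dir.W)
  · rw [h1] at hi
    have := key hc.symm h1 hi
    exact ⟨by rw [← this, W.good.inv], this⟩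
  · rw [h1] at hi
    have := key hc hi h1
    exact ⟨this, by rw [← this, W.good.inv]⟩

/-- all the ends of the row line are anchored at the mark -/
lemma anc_row (W : Wired X2 (rl x0 y0) (rp x0 y0) (rcr x0 y0) Nw n0) (sp : Finset (Fin N))
    {k : Fin N} (hy : Nw.y0 = (k, .W) ∨ Nw.y0 = (k, .E)) (z : Fin N) :
    Anch Nw sp (z, .W) ∧ Anch Nw sp (z, .E) := by
  have eq1 : ∀ z : Fin N, Anch Nw sp (z, .W) ↔ Anch Nw sp (z, .E) := fun z =>
    ⟨fun h => Anch.opp (z, .E) h, fun h => Anch.opp (z, .W) h⟩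
  have h0 : Anch Nw sp (k, .W) ∧ Anch Nw sp (k, .E) := by
    rcases hy with h | h
    · have h1 : Anch Nw sp (k, .W) := Anch.spc _ (Or.inr (Or.inr (Or.inl h.symm)))
      exact ⟨h1, (eq1 k).1 h1⟩
    · have h1 : Anch Nw sp (k, .E) := Anch.spc _ (Or.inr (Or.inr (Or.inl h.symm)))
      exact ⟨(eq1 k).2 h1, h1⟩
  have up : ∀ (n : ℕ) (z : Fin N), (z : ℕ) = k + n → Anch Nw sp (z, .W) := by
    intro n
    induction n with
    | zero =>
      intro z hz
      have : z = k := Fin.ext (by omega)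
      rw [this]; exact h0.1
    | succ n ih =>
      intro z hz
      have hz2 := z.2
      have h1 := ih ⟨k + n, by omega⟩ rfl
      have h2 := (row_wire W (c := ⟨k + n, by omega⟩) (c' := z) (by simp only; omega)).2
      refine Anch.wire _ ?_
      rw [h2]
      exact (eq1 _).1 h1
  have dn : ∀ (n : ℕ) (z : Fin N), (z : ℕ) + n = k → Anch Nw sp (z, .E) := by
    intro n
    induction n with
    | zero =>
      intro z hz
      have : z = k := Fin.ext (by omega)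
      rw [this]; exact h0.2
    | succ n ih =>
      intro z hz
      have hk2 := k.2
      have h1 := ih ⟨z + 1, by omega⟩ (by simp only; omega)
      have h2 := (row_wire W (c := z) (c' := ⟨z + 1, by omega⟩) rfl).1
      refine Anch.wire _ ?_
      rw [h2]
      exact (eq1 _).2 h1
  rcases Nat.lt_or_ge (z : ℕ) k with h | h
  · have h1 := dn (k - z) z (by omega)
    exact ⟨(eq1 z).2 h1, h1⟩
  · have h1 := up (z - k) z (by omega)
    exact ⟨h1, (eq1 z).1 h1⟩

end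

/-- **The frame**: the rectangles above and below the row, with the matchings of their ports. -/
structure Frame (L : Finset (ℤ × ℤ)) (N : ℕ) (x0 y0 : ℤ) where
  oU : ℕ
  wU : ℕ
  hU : ℕ
  oD : ℕ
  wD : ℕ
  hD : ℕ
  u1 : oU + N ≤ wU
  u2 : 0 < hU
  d1 : oD + N ≤ wD
  d2 : 0 < hD
  MU : ℕ → ℕ
  MD : ℕ → ℕ
  TU : TD (uf L) (ud L) (Bx' (TT (x0 - oU) (y0 + 1)) wU 0 hU) (hU + wU)
    (se (TT (x0 - oU) (y0 + 1)) wU hU) (fun k => UW (se (TT (x0 - oU) (y0 + 1)) wU hU k))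
    (Kp wU hU) MU
  TD' : TD (uf L) (ud L) (Bx' (TT (x0 - oD) (y0 - hD)) wD 0 hD) (hD + wD)
    (se (TT (x0 - oD) (y0 - hD)) wD hD) (fun k => UW (se (TT (x0 - oD) (y0 - hD)) wD hD k))
    (Kp wD hD) MD

namespace Frame

variable {L : Finset (ℤ × ℤ)} {x0 y0 : ℤ} (F : Frame L N x0 y0)

/-- exceptional columns above -/
noncomputable def EU : Finset (Fin N) := exc N F.MU true (F.hU + F.oU)

/-- exceptional columns below -/
noncomputable def ED : Finset (Fin N) := exc N F.MD false (2 * (F.hD + F.wD) - 1 - F.oD)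

/-- partner above -/
noncomputable def U : Fin N → Fin N := mt N F.MU true (F.hU + F.oU)

/-- partner below -/
noncomputable def D : Fin N → Fin N := mt N F.MD false (2 * (F.hD + F.wD) - 1 - F.oD)

/-- labels of the rectangles and of the row -/
def In (F : Frame L N x0 y0) (e : ℤ × ℤ) : Prop :=
  (∃ x y : ℤ, e = lbt x y ∧ x0 - F.oU ≤ x ∧ x < x0 - F.oU + F.wU ∧ y0 + 1 ≤ y ∧ y < y0 + 1 + F.hU) ∨
  (∃ x y : ℤ, e = lbt x y ∧ x0 - F.oD ≤ x ∧ x < x0 - F.oD + F.wD ∧ y0 - F.hD ≤ y ∧ y < y0) ∨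
  ∃ c : Fin N, e = rl x0 y0 c

lemma sU : Side F.EU F.U := sideU F.u1 F.TU

lemma sD : Side F.ED F.D := sideD F.d1 F.d2 F.TD'

/-- the ends whose wires stay on one side -/
def Inn (x : Fin N × Dir) : Prop :=
  match x.2 with
  | .N => x.1 ∉ F.EU
  | .S => x.1 ∉ F.ED
  | .E => (x.1 : ℕ) + 1 < N
  | .W => 0 < (x.1 : ℕ)

variable {F}
variable {X2 : Env} {Nw : Net (Fin N)} {n0 : ℕ}

/-- the wire of an inner end: partner, and the labels of its path -/
theorem inn_wire (W : Wired X2 (rl x0 y0) (rp x0 y0) (rcr x0 y0) Nw n0) (ho : OutL X2 L)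
    (hE : X2.E = RS N x0 y0) {x : Fin N × Dir} (hx : F.Inn x) : F.Inn (Nw.π x) ∧
      (inc (rp x0 y0) x = false → ∃ n, (nx L)^[n] (rcr x0 y0 x) = rcr x0 y0 (Nw.π x) ∧
        ∀ i < n, F.In (lab ((nx L)^[i] (rcr x0 y0 x))) ∧ lab ((nx L)^[i] (rcr x0 y0 x)) ∉ X2.E) := by
  obtain ⟨c, d⟩ := x
  cases d
  · -- W
    have hc : 0 < (c : ℕ) := hx
    have hc2 := c.2
    have h1 := (row_wire W (c := ⟨c - 1, by omega⟩) (c' := c) (by simp only; omega)).2
    rw [h1]
    refine ⟨?_, fun _ => ⟨0, ?_, fun i hi => absurd hi (Nat.not_lt_zero i)⟩⟩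
    · show (c : ℕ) - 1 + 1 < N
      omega
    · show rcr x0 y0 (c, .W) = _
      rw [rcr_W, rcr_E]
      have : (((c : ℕ) - 1 : ℕ) : ℤ) = (c : ℕ) - 1 := by omega
      simp only [this]
      congr 1
      refine Prod.ext ?_ rfl
      simp only
      ring
  · -- N
    have hc : c ∉ F.EU := hx
    obtain ⟨h1, -⟩ := up_wire W ho hE F.u1 F.u2 F.TU hc
    rw [h1]
    refine ⟨F.sU.mem c hc, fun hi => ?_⟩
    have hp : rp x0 y0 c = true := by
      unfold inc at hi
      cases h2 : rp x0 y0 c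
      · rw [h2] at hi; simp [Dir.v] at hi
      · rfl
    obtain ⟨n, a1, -, a3, -⟩ := up_path F.u1 F.u2 F.TU hc hp
    refine ⟨n, a1, fun i hi => ?_⟩
    obtain ⟨x, y, e, b1, b2, b3, b4⟩ := a3 i hi
    refine ⟨Or.inl ⟨x, y, e, b1, b2, b3, b4⟩, ?_⟩
    rw [hE, e]
    exact not_RS (by omega)
  · -- E
    have hc : (c : ℕ) + 1 < N := hx
    have h1 := (row_wire W (c := c) (c' := ⟨c + 1, hc⟩) rfl).1
    rw [h1]
    refine ⟨?_, fun _ => ⟨0, ?_, fun i hi => absurd hi (Nat.not_lt_zero i)⟩⟩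
    · show 0 < (c : ℕ) + 1
      omega
    · show rcr x0 y0 (c, .E) = _
      rw [rcr_W, rcr_E]
      push_cast
      rw [add_assoc]
  · -- S
    have hc : c ∉ F.ED := hx
    obtain ⟨h1, -⟩ := dn_wire W ho hE F.d1 F.d2 F.TD' hc
    rw [h1]
    refine ⟨F.sD.mem c hc, fun hi => ?_⟩
    have hp : rp x0 y0 c = true := by
      unfold inc at hi
      cases h2 : rp x0 y0 c
      · rw [h2] at hi; simp [Dir.v] at hi
      · rfl
    obtain ⟨n, a1, -, a3, -⟩ := dn_path F.d1 F.d2 F.TD' hc hp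
    refine ⟨n, a1, fun i hi => ?_⟩
    obtain ⟨x, y, e, b1, b2, b3, b4⟩ := a3 i hi
    refine ⟨Or.inr (Or.inl ⟨x, y, e, b1, b2, b3, b4⟩), ?_⟩
    rw [hE, e]
    exact not_RS (by omega)

/-- the first end which the root meets is not inner -/
theorem root_not_inn (W : Wired X2 (rl x0 y0) (rp x0 y0) (rcr x0 y0) Nw n0) (ho : OutL X2 L)
    (hE : X2.E = RS N x0 y0) (hroot : ¬ F.In (plab X2.c0)) : ¬ F.Inn Nw.x0 := by
  intro hx
  obtain ⟨h1, -⟩ := inn_wire W ho hE hx
  have hout : inc (rp x0 y0) (Nw.π Nw.x0) = false := by rw [W.good.ty, W.good.x0_in]; rfl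
  obtain ⟨-, h2⟩ := inn_wire W ho hE h1
  obtain ⟨n, e1, e2⟩ := h2 hout
  rw [W.good.inv] at e1
  obtain ⟨r1, r2⟩ := W.root
  have hr := outL_iter' ho r1
  have e3 : (nx L)^[n] (rcr x0 y0 (Nw.π Nw.x0)) = (nx L)^[n0] X2.c0 := by
    rw [e1, r2, hr n0 le_rfl]
  have hpl := plab_out W.tiles hout
  rcases Nat.lt_or_ge n n0 with h3 | h3
  · -- the root path passes the outgoing end
    obtain ⟨m, rfl⟩ : ∃ m, n0 = n + (m + 1) := ⟨n0 - n - 1, by omega⟩
    rw [Function.iterate_add_apply] at e3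
    have e4 := ((nx_injective L).iterate n) e3
    rw [Function.iterate_succ_apply'] at e4
    have e5 := hpl
    rw [e4, plab_nx, ← hr m (by omega)] at e5
    apply r1 m (by omega)
    rw [e5]
    exact W.tiles.mem _
  · obtain ⟨m, rfl⟩ : ∃ m, n = n0 + m := ⟨n - n0, by omega⟩
    rw [Function.iterate_add_apply] at e3
    have e4 := ((nx_injective L).iterate n0) e3
    apply hroot
    rw [← e4]
    rcases Nat.eq_zero_or_pos m with h4 | h4
    · subst h4
      rw [Function.iterate_zero, id_eq, hpl]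
      exact Or.inr (Or.inr ⟨_, rfl⟩)
    · obtain ⟨j, rfl⟩ : ∃ j, m = j + 1 := ⟨m - 1, by omega⟩
      rw [Function.iterate_succ_apply', plab_nx]
      exact (e2 j (by omega)).1

/-- no strand of `K` separates the ends which are not inner from the outside -/
lemma good_pos {K : Finset (Fin N)} (hU : ∀ c ∈ K, c ∉ F.EU) (hD : ∀ c ∈ K, c ∉ F.ED)
    {x : Fin N × Dir} (hx : ¬ F.Inn x) : Pr K F.U F.D 0 (pos x) := by
  obtain ⟨c, d⟩ := x
  cases d
  · have hc : ¬ 0 < (c : ℕ) := hx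
    left
    intro z _ _ h2
    exfalso
    have h3 : pos (c, Dir.W) = (c : ℕ) := rfl
    omega
  · have hc : c ∈ F.EU := by
      by_contra h; exact hx h
    left
    intro z hz _ h2
    have h3 : pos (c, Dir.N) = (c : ℕ) := rfl
    rw [h3] at h2 ⊢
    refine ⟨Nat.zero_le _, ?_⟩
    by_contra h4
    have h5 := F.sU.mem z (hU z hz)
    have h6 : F.U z ≠ c := fun h => h5 (h ▸ hc)
    have h7 : (F.U z : ℕ) ≠ c := fun h => h6 (Fin.ext h)
    exact F.sU.ex z (hU z hz) c hc ⟨h2, by rw [Fin.lt_def]; omega⟩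
  · have hc : ¬ (c : ℕ) + 1 < N := hx
    left
    intro z _ _ _
    have h3 : pos (c, Dir.E) = (c : ℕ) + 1 := rfl
    have := c.2
    have := (F.U z).2
    omega
  · have hc : c ∈ F.ED := by
      by_contra h; exact hx h
    right
    intro z hz _ h2
    have h3 : pos (c, Dir.S) = (c : ℕ) := rfl
    rw [h3] at h2 ⊢
    refine ⟨Nat.zero_le _, ?_⟩
    by_contra h4
    have h5 := F.sD.mem z (hD z hz)
    have h6 : F.D z ≠ c := fun h => h5 (h ▸ hc)
    have h7 : (F.D z : ℕ) ≠ c := fun h => h6 (Fin.ext h)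
    exact F.sD.ex z (hD z hz) c hc ⟨h2, by rw [Fin.lt_def]; omega⟩

/-- an arc preserves the columns below it -/
lemma side_pres {Ex : Finset (Fin N)} {f : Fin N → Fin N} (hS : Side Ex f) {K : Finset (Fin N)}
    (hK : ∀ c ∈ K, c ∉ Ex) {c : Fin N} (hc : c ∉ Ex) (h1 : c ∉ K) (h2 : f c ∉ K) :
    (c < f c → Pres K f c (f c)) ∧ (f c < c → Pres K f (f c) c) := by
  constructor
  · intro hlt z hz h3 h4
    have hne : z ≠ c := fun h => h1 (h ▸ hz)
    have h5 : c < z := Fin.lt_def.2 (lt_of_le_of_ne h3 fun h => hne (Fin.ext h.symm))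
    have h6 := hS.nc c hc z (hK z hz) h5 (Fin.lt_def.2 h4)
    exact ⟨(Fin.lt_def.1 h6.1).le, Fin.lt_def.1 h6.2⟩
  · intro hlt z hz h3 h4
    have hne : z ≠ f c := fun h => h2 (h ▸ hz)
    have h5 : f c < z := Fin.lt_def.2 (lt_of_le_of_ne h3 fun h => hne (Fin.ext h.symm))
    have h6 := hS.nc (f c) (hS.mem c hc) z (hK z hz) h5 (by rw [hS.inv c hc]; exact Fin.lt_def.2 h4)
    rw [hS.inv c hc] at h6
    exact ⟨(Fin.lt_def.1 h6.1).le, Fin.lt_def.1 h6.2⟩

/-- **Planarity of the network of the row.** -/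
theorem planar (W : Wired X2 (rl x0 y0) (rp x0 y0) (rcr x0 y0) Nw n0) (ho : OutL X2 L)
    (hE : X2.E = RS N x0 y0) (hroot : ¬ F.In (plab X2.c0)) {k : Fin N}
    (hy : Nw.y0 = (k, .W) ∨ Nw.y0 = (k, .E)) {sp : Finset (Fin N)} (h1 : F.EU ⊆ sp)
    (h2 : F.ED ⊆ sp) : Planar Nw (Pool.Agent.Q1.M6b.PB.Kn Nw sp) F.U F.D (fun _ => 0) := by
  set K := Pool.Agent.Q1.M6b.PB.Kn Nw sp with hK
  have hA := anc_row W sp hy
  have hStr : Str Nw K := Pool.Agent.Q1.M6b.PB.Kn_str hA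
  have hsp : ∀ c ∈ K, c ∉ sp := fun c hc => Pool.Agent.Q1.M6b.PB.Kn_sp hc
  have hKU : ∀ c ∈ K, c ∉ F.EU := fun c hc h => hsp c hc (h1 h)
  have hKD : ∀ c ∈ K, c ∉ F.ED := fun c hc h => hsp c hc (h2 h)
  have wU : ∀ c, c ∉ F.EU → Nw.π (c, .N) = (F.U c, .N) ∧ Nw.t (c, .N) = -2 * dir c (F.U c) :=
    fun c hc => up_wire W ho hE F.u1 F.u2 F.TU hc
  have wD : ∀ c, c ∉ F.ED → Nw.π (c, .S) = (F.D c, .S) ∧ Nw.t (c, .S) = 2 * dir c (F.D c) :=
    fun c hc => dn_wire W ho hE F.d1 F.d2 F.TD' hc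
  refine ⟨fun c hc => (wU c (hKU c hc)).1, fun c hc => (wD c (hKD c hc)).1, ?_, ?_, ?_, ?_, ?_, ?_⟩
  · intro x hx y hy h3 h4
    exact F.sU.nc x (hKU x hx) y (hKU y hy) h3 h4
  · intro x hx y hy h3 h4
    exact F.sD.nc x (hKD x hx) y (hKD y hy) h3 h4
  · intro c hc
    rw [(wU c (hKU c hc)).2]; ring
  · intro c hc
    rw [(wD c (hKD c hc)).2]; ring
  · intro x hx
    have hx' : Nw.π x ∉ VE K := by
      intro h
      apply hx
      have := hStr.mem _ h
      rwa [W.good.inv] at this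
    by_cases hi : F.Inn x
    · obtain ⟨c, d⟩ := x
      cases d
      · -- W
        have hc : 0 < (c : ℕ) := hi
        have hc2 := c.2
        have e := (row_wire W (c := ⟨c - 1, by omega⟩) (c' := c) (by simp only; omega)).2
        rw [e]
        left
        have e1 : pos (c, Dir.W) = (c : ℕ) := rfl
        have e2 : pos ((⟨c - 1, by omega⟩ : Fin N), Dir.E) = (c : ℕ) - 1 + 1 := rfl
        rw [e1, e2, Nat.sub_add_cancel hc]
        exact ⟨le_rfl, Or.inl fun z _ h3 h4 => by omega⟩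
      · -- N
        have hc : c ∉ F.EU := hi
        have e := (wU c hc).1
        rw [e] at hx' ⊢
        have k1 : c ∉ K := fun h => hx (mem_VE.2 ⟨h, Or.inl rfl⟩)
        have k2 : F.U c ∉ K := fun h => hx' (mem_VE.2 ⟨h, Or.inl rfl⟩)
        obtain ⟨q1, q2⟩ := side_pres F.sU hKU hc k1 k2
        rcases lt_or_gt_of_ne (F.sU.ne c hc).symm with h3 | h3
        · exact Or.inl ⟨(Fin.lt_def.1 h3).le, Or.inl (q1 h3)⟩
        · exact Or.inr (Or.inl ⟨(Fin.lt_def.1 h3).le, Or.inl (q2 h3)⟩)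
      · -- E
        have hc : (c : ℕ) + 1 < N := hi
        have e := (row_wire W (c := c) (c' := ⟨c + 1, hc⟩) rfl).1
        rw [e]
        left
        have e1 : pos (c, Dir.E) = (c : ℕ) + 1 := rfl
        have e2 : pos ((⟨c + 1, hc⟩ : Fin N), Dir.W) = (c : ℕ) + 1 := rfl
        rw [e1, e2]
        exact ⟨le_rfl, Or.inl fun z _ h3 h4 => by omega⟩
      · -- S
        have hc : c ∉ F.ED := hi
        have e := (wD c hc).1
        rw [e] at hx' ⊢
        have k1 : c ∉ K := fun h => hx (mem_VE.2 ⟨h, Or.inr rfl⟩)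
        have k2 : F.D c ∉ K := fun h => hx' (mem_VE.2 ⟨h, Or.inr rfl⟩)
        obtain ⟨q1, q2⟩ := side_pres F.sD hKD hc k1 k2
        rcases lt_or_gt_of_ne (F.sD.ne c hc).symm with h3 | h3
        · exact Or.inl ⟨(Fin.lt_def.1 h3).le, Or.inr (q1 h3)⟩
        · exact Or.inr (Or.inl ⟨(Fin.lt_def.1 h3).le, Or.inr (q2 h3)⟩)
    · have hi' : ¬ F.Inn (Nw.π x) := by
        intro h
        apply hi
        have := (inn_wire W ho hE h).1
        rwa [W.good.inv] at this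
      exact Or.inr (Or.inr ⟨good_pos hKU hKD hi, good_pos hKU hKD hi'⟩)
  · exact good_pos hKU hKD (root_not_inn W ho hE hroot)

end Frame

end Pool.Agent.H30.Mid
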