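import Mathlib
import Pool.Agent.H30.Mid.Plan

set_option autoImplicit false
open Finset

/-! # The ports of a rectangle which are joined to a neighbour by two steps -/

namespace Pool.Agent.H30.Mid

open Pool.Agent.H75.Perc Pool.Agent.H75.TwoArm Pool.Agent.Q1 Pool.Agent.H81.G1
open Pool.Agent.H69.M6b (lbt lbt_inj lbt_odd pr0 PR Pn TD rect_tiles se Kp Bx' Wires tt)

variable {L : Finset (ℤ × ℤ)} {xL yB : ℤ} {w h : ℕ} {M : ℕ → ℕ}

lemma UW_UW (z : (ℤ × ℤ) × Dir) : UW (UW z) = z := by
  obtain ⟨⟨x, y⟩, d⟩ := z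
  cases d <;> unfold UW <;> simp

lemma UW_inj {z z' : (ℤ × ℤ) × Dir} (h : UW z = UW z') : z = z' := by
  rw [← UW_UW z, h, UW_UW]

lemma TT_inj {i j i' j' : ℕ} (h : TT xL yB i j = TT xL yB i' j') : i = i' ∧ j = j' := by
  unfold TT at h
  have h1 := congrArg Prod.fst h
  have h2 := congrArg Prod.snd h
  simp only at h1 h2
  omega

/-- the four sides -/
lemma se_left {k : ℕ} (hk : k < h) : se (TT xL yB) w h k = (TT xL yB 0 (h - 1 - k), .W) := by
  unfold se; rw [if_pos hk]

lemma se_bot {i : ℕ} (hi : i < w) : se (TT xL yB) w h (h + i) = (TT xL yB i 0, .S) := by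
  unfold se
  rw [if_neg (by omega), if_pos (by omega)]
  congr 2
  omega

lemma se_right {j : ℕ} (hj : j < h) : se (TT xL yB) w h (h + w + j) = (TT xL yB (w - 1) j, .E) := by
  unfold se
  rw [if_neg (by omega), if_neg (by omega), if_pos (by omega)]
  congr 2
  omega

lemma se_top {i : ℕ} (hi : i < w) :
    se (TT xL yB) w h (2 * (h + w) - 1 - i) = (TT xL yB i (h - 1), .N) := by
  unfold se
  rw [if_neg (by omega), if_neg (by omega), if_neg (by omega)]
  congr 2
  omega

lemma se_inj (hw : 0 < w) {k k' : ℕ} (hk : k < 2 * (h + w)) (hk' : k' < 2 * (h + w))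
    (he : se (TT xL yB) w h k = se (TT xL yB) w h k') : k = k' := by
  unfold se at he
  have h1 := congrArg Prod.fst he
  have h2 := congrArg Prod.snd he
  split_ifs at h1 h2 <;> first
    | (cases h2; done)
    | (have := TT_inj h1; omega)

/-- the positions after leaving the rectangle are outside -/
lemma out_notin (hw : 0 < w) (hh : 0 < h) {k : ℕ} :
    UW (se (TT xL yB) w h k) ∉ Bx' (TT xL yB) w 0 h := by
  rintro ⟨i, hi, j, -, hj, e⟩
  unfold se UW TT at e
  split_ifs at e <;> simp only at e <;>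
    (have e1 := congrArg Prod.fst e; have e2 := congrArg Prod.snd e; simp only at e1 e2; omega)

/-- a path between two ports determines the matching -/
lemma M_of_path (hw : 0 < w) (hh : 0 < h)
    (hT : TD (uf L) (ud L) (Bx' (TT xL yB) w 0 h) (h + w) (se (TT xL yB) w h)
      (fun k => UW (se (TT xL yB) w h k)) (Kp w h) M) {k k' : ℕ} (hk : k < 2 * (h + w))
    (hk' : k' < 2 * (h + w)) {n : ℕ}
    (hp : ∃ t, Pn (uf L) (ud L) (Bx' (TT xL yB) w 0 h) n (se (TT xL yB) w h k)
      (UW (se (TT xL yB) w h k')) t) : M k = k' := by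
  obtain ⟨t, hp⟩ := hp
  have h1 := (hT.path k hk).uniq hp.pr (out_notin hw hh) (out_notin hw hh)
  exact se_inj hw (hT.lt k hk) hk' (UW_inj h1.1)

lemma mem_Bx {i j : ℕ} (hi : i < w) (hj : j < h) (d : Dir) :
    ((TT xL yB i j, d) : (ℤ × ℤ) × Dir) ∈ Bx' (TT xL yB) w 0 h :=
  ⟨i, hi, j, Nat.zero_le _, hj, rfl⟩

/-- a path of two steps -/
lemma two_step {R : Set ((ℤ × ℤ) × Dir)} {z z1 z2 : (ℤ × ℤ) × Dir} (h1 : z ∈ R) (h2 : uf L z = z1)
    (h3 : z1 ∈ R) (h4 : uf L z1 = z2) : Pn (uf L) (ud L) R 2 z z2 (ud L z + ud L z1) := by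
  refine ⟨?_, ?_, ?_⟩
  · show (uf L)^[2] z = z2
    rw [Function.iterate_succ_apply, Function.iterate_one, h2, h4]
  · intro i hi
    rcases (by omega : i = 0 ∨ i = 1) with rfl | rfl
    · exact h1
    · rw [Function.iterate_one, h2]; exact h3
  · rw [Finset.sum_range_succ, Finset.sum_range_one, Function.iterate_zero, id_eq,
      Function.iterate_one, h2]

section

variable (hw : 0 < w) (hh : 0 < h)
  (hT : TD (uf L) (ud L) (Bx' (TT xL yB) w 0 h) (h + w) (se (TT xL yB) w h)
    (fun k => UW (se (TT xL yB) w h k)) (Kp w h) M)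

include hw hh hT

/-- left side: the rows `j`, `j + 1` -/
lemma dead_left {j : ℕ} (hj : j + 1 < h) (h1 : us L (TT xL yB 0 j) = false)
    (h2 : us L (TT xL yB 0 (j + 1)) = true) : M (h - 1 - j) = h - 1 - (j + 1) := by
  have e1 : se (TT xL yB) w h (h - 1 - j) = (TT xL yB 0 j, .W) := by
    rw [se_left (by omega)]; congr 2; omega
  have e2 : se (TT xL yB) w h (h - 1 - (j + 1)) = (TT xL yB 0 (j + 1), .W) := by
    rw [se_left (by omega)]; congr 2; omega
  refine M_of_path hw hh hT (by omega) (by omega) (n := 2) ?_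
  rw [e1, e2]
  refine ⟨_, two_step (z1 := (TT xL yB 0 (j + 1), .S)) (mem_Bx hw (by omega) _) ?_
    (mem_Bx hw hj _) ?_⟩
  · unfold uf UW
    simp only [h1, Dir.mate]
    refine Prod.ext (Prod.ext rfl ?_) rfl
    unfold TT; simp only; push_cast; ring
  · unfold uf
    simp only [h2, Dir.mate]

/-- right side: the rows `j`, `j + 1` -/
lemma dead_right {j : ℕ} (hj : j + 1 < h) (h1 : us L (TT xL yB (w - 1) j) = true)
    (h2 : us L (TT xL yB (w - 1) (j + 1)) = false) : M (h + w + j) = h + w + (j + 1) := by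
  refine M_of_path hw hh hT (by omega) (by omega) (n := 2) ?_
  rw [se_right (by omega), se_right hj]
  refine ⟨_, two_step (z1 := (TT xL yB (w - 1) (j + 1), .S)) (mem_Bx (by omega) (by omega) _) ?_
    (mem_Bx (by omega) hj _) ?_⟩
  · unfold uf UW
    simp only [h1, Dir.mate]
    refine Prod.ext (Prod.ext rfl ?_) rfl
    unfold TT; simp only; push_cast; ring
  · unfold uf
    simp only [h2, Dir.mate]

/-- bottom side: the columns `i`, `i + 1` -/
lemma dead_bot {i : ℕ} (hi : i + 1 < w) (h1 : us L (TT xL yB i 0) = false)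
    (h2 : us L (TT xL yB (i + 1) 0) = true) : M (h + i) = h + (i + 1) := by
  refine M_of_path hw hh hT (by omega) (by omega) (n := 2) ?_
  rw [se_bot (by omega), se_bot hi]
  refine ⟨_, two_step (z1 := (TT xL yB (i + 1) 0, .W)) (mem_Bx (by omega) hh _) ?_
    (mem_Bx hi hh _) ?_⟩
  · unfold uf UW
    simp only [h1, Dir.mate]
    refine Prod.ext (Prod.ext ?_ rfl) rfl
    unfold TT; simp only; push_cast; ring
  · unfold uf
    simp only [h2, Dir.mate]

/-- top side: the columns `i`, `i + 1` -/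
lemma dead_top {i : ℕ} (hi : i + 1 < w) (h1 : us L (TT xL yB i (h - 1)) = true)
    (h2 : us L (TT xL yB (i + 1) (h - 1)) = false) :
    M (2 * (h + w) - 1 - i) = 2 * (h + w) - 1 - (i + 1) := by
  refine M_of_path hw hh hT (by omega) (by omega) (n := 2) ?_
  rw [se_top (by omega), se_top hi]
  refine ⟨_, two_step (z1 := (TT xL yB (i + 1) (h - 1), .W)) (mem_Bx (by omega) (by omega) _) ?_
    (mem_Bx hi (by omega) _) ?_⟩
  · unfold uf UW
    simp only [h1, Dir.mate]
    refine Prod.ext (Prod.ext ?_ rfl) rfl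
    unfold TT; simp only; push_cast; ring
  · unfold uf
    simp only [h2, Dir.mate]

end

/-- state of a tile from the colour -/
lemma us_open {x y : ℤ} (h : lbt x y ∈ L) : us L (x, y) = decide ((x + y) % 2 = 1) := by
  unfold us
  simp only [h, decide_true]
  cases hp : pr0 (lbt x y)
  · have := pr0_lbt_false.1 hp
    rw [decide_eq_false (by omega)]; rfl
  · have := pr0_lbt_true.1 hp
    rw [decide_eq_true this]; rfl

lemma us_closed {x y : ℤ} (h : lbt x y ∉ L) : us L (x, y) = decide ((x + y) % 2 = 0) := by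
  unfold us
  simp only [h, decide_false]
  cases hp : pr0 (lbt x y)
  · have := pr0_lbt_false.1 hp
    rw [decide_eq_true this]; rfl
  · have := pr0_lbt_true.1 hp
    rw [decide_eq_false (by omega)]; rfl

/-! ### Number of the exceptional columns -/

/-- the exceptional columns are not more than the live ports -/
lemma exc_card {N n p0 : ℕ} {up : Bool} {D : Type*} {f : D → D} {δ : D → ℤ} {R : Set D}
    {inn out : ℕ → D} {K : ℕ → ℤ} (hT : TD f δ R n inn out K M) (hp : up = false → N ≤ p0 + 1)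
    (hlt : ∀ c : Fin N, prt up p0 c < 2 * n) (live : Finset ℕ)
    (hl : ∀ l < 2 * n, l ∉ live → (∃ c : Fin N, l = prt up p0 c) ∨
      ∀ c : Fin N, M l ≠ prt up p0 c) : (exc N M up p0).card ≤ live.card := by
  refine Finset.card_le_card_of_injOn (fun c => M (prt up p0 c)) ?_ ?_
  · intro c hc
    have hc' : c ∈ exc N M up p0 := hc
    rw [mem_exc] at hc'
    by_contra h
    rcases hl _ (hT.lt _ (hlt c)) h with ⟨c', h1⟩ | h1
    · exact hc' c' h1
    · exact h1 c (hT.inv _ (hlt c))
  · intro c _ c' _ h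
    have h1 := congrArg M (show M (prt up p0 c) = M (prt up p0 c') from h)
    rw [hT.inv _ (hlt c), hT.inv _ (hlt c')] at h1
    exact prt_inj hp h1

end Pool.Agent.H30.Mid
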