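import Mathlib
import Pool.Agent.H30.Mid.Dead
import Pool.Agent.H74.R45.Def

set_option autoImplicit false
open Finset

/-! # The frame of a row of the rectangle (R45): at most 18 exceptional columns -/

namespace Pool.Agent.H30.Mid

open Pool.Agent.H75.Perc Pool.Agent.H75.TwoArm Pool.Agent.Q1 Pool.Agent.H81.G1
open Pool.Agent.H69.M6b (lbt lbt_inj lbt_odd pr0 PR Pn TD rect_tiles se Kp Bx' Wires tt)
open Pool.Agent.H74.R45

variable {L : Finset (ℤ × ℤ)} {N : ℕ} {h j : ℤ}

/-- the outer layers of the rectangle `[0,N) × [-1,h)`: left and right walls open, ceiling and floor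
closed -/
structure Lay (L : Finset (ℤ × ℤ)) (N : ℕ) (h : ℤ) : Prop where
  left : ∀ y : ℤ, -1 ≤ y → y < h → lbt (-2) y ∈ L
  right : ∀ y : ℤ, -1 ≤ y → y < h → lbt (N + 1) y ∈ L
  top : ∀ x : ℤ, -2 ≤ x → x < N + 2 → lbt x h ∉ L
  bot : ∀ x : ℤ, -2 ≤ x → x < N + 2 → lbt x (-2) ∉ L

lemma TD_pair {n : ℕ} {D : Type*} {f : D → D} {δ : D → ℤ} {R : Set D}
    {inn out : ℕ → D} {K : ℕ → ℤ} {M : ℕ → ℕ} (hT : TD f δ R n inn out K M) {k l : ℕ}
    (hk : k < 2 * n) (h : M k = l) : M l = k := by rw [← h]; exact hT.inv k hk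

/-- the matching above the row `j - 1` -/
lemma exc_up (hL : Lay L N h) (hN : N % 2 = 0) (h2 : h % 2 = 0) (j2 : j % 2 = 0) (hj0 : 0 ≤ j)
    (hj : j ≤ h)
    {H : ℕ} (hH : (H : ℤ) = h + 1 - j) {M : ℕ → ℕ}
    (hT : TD (uf L) (ud L) (Bx' (TT (-2) j) (N + 4) 0 H) (H + (N + 4)) (se (TT (-2) j) (N + 4) H)
      (fun k => UW (se (TT (-2) j) (N + 4) H k)) (Kp (N + 4) H) M) :
    (exc N M true (H + 2)).card ≤ 6 := by
  have hH0 : 0 < H := by omega
  have hH2 : H % 2 = 1 := by omega
  have hW0 : 0 < N + 4 := by omega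
  have hprt : ∀ c : Fin N, prt true (H + 2) c = H + 2 + c := fun _ => rfl
  have usL : ∀ j' : ℕ, j' + 1 < H → us L (TT (-2) j 0 j') = decide (j' % 2 = 1) := by
    intro j' hj'
    have e : TT (-2) j 0 j' = (-2, j + j') := by unfold TT; simp
    rw [e, us_open (hL.left _ (by omega) (by omega))]
    by_cases h1 : j' % 2 = 1
    · rw [decide_eq_true h1, decide_eq_true (by omega)]
    · rw [decide_eq_false h1, decide_eq_false (by omega)]
  have usR : ∀ j' : ℕ, j' + 1 < H → us L (TT (-2) j (N + 4 - 1) j') = decide (j' % 2 = 0) := by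
    intro j' hj'
    have e : TT (-2) j (N + 4 - 1) j' = ((N : ℤ) + 1, j + j') := by
      unfold TT
      have : ((N + 4 - 1 : ℕ) : ℤ) = N + 3 := by omega
      rw [this]
      refine Prod.ext ?_ rfl
      simp only; ring
    rw [e, us_open (hL.right _ (by omega) (by omega))]
    by_cases h1 : j' % 2 = 0
    · rw [decide_eq_true h1, decide_eq_true (by omega)]
    · rw [decide_eq_false h1, decide_eq_false (by omega)]
  have usT : ∀ i : ℕ, i < N + 4 → us L (TT (-2) j i (H - 1)) = decide (i % 2 = 0) := by
    intro i hi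
    have e : TT (-2) j i (H - 1) = (-2 + (i : ℤ), h) := by
      unfold TT
      refine Prod.ext rfl ?_
      simp only; omega
    rw [e, us_closed (hL.top _ (by omega) (by omega))]
    by_cases h1 : i % 2 = 0
    · rw [decide_eq_true h1, decide_eq_true (by omega)]
    · rw [decide_eq_false h1, decide_eq_false (by omega)]
  refine (exc_card hT (N := N) (p0 := H + 2) (up := true) (fun h => by simp at h)
    (fun c => by rw [hprt]; have := c.2; omega)
    ([0, 2 * H + (N + 4) - 1, H, H + 1, H + N + 2, H + N + 3].toFinset) ?_).trans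
    (List.toFinset_card_le _)
  intro l hl hlive
  simp only [List.mem_toFinset, List.mem_cons, List.not_mem_nil, or_false, not_or] at hlive
  rcases Nat.lt_or_ge l H with q1 | q1
  · -- left side
    right
    intro c
    rw [hprt]
    rcases Nat.mod_two_eq_zero_or_one (H - 1 - l) with q2 | q2
    · have := dead_left hW0 hH0 hT (j := H - 1 - l) (by omega)
        (by rw [usL _ (by omega)]; exact decide_eq_false (by omega))
        (by rw [usL _ (by omega)]; exact decide_eq_true (by omega))
      have e : H - 1 - (H - 1 - l) = l := by omega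
      rw [e] at this
      omega
    · have := dead_left hW0 hH0 hT (j := H - 2 - l) (by omega)
        (by rw [usL _ (by omega)]; exact decide_eq_false (by omega))
        (by rw [usL _ (by omega)]; exact decide_eq_true (by omega))
      have e : H - 1 - (H - 2 - l) = l + 1 := by omega
      have e' : H - 1 - (H - 2 - l + 1) = l := by omega
      rw [e, e'] at this
      have := TD_pair hT (by omega) this
      omega
  rcases Nat.lt_or_ge l (H + (N + 4)) with q3 | q3
  · left
    refine ⟨⟨l - H - 2, by omega⟩, ?_⟩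
    rw [hprt]
    simp only
    omega
  rcases Nat.lt_or_ge l (H + (N + 4) + H) with q4 | q4
  · -- right side
    right
    intro c
    have hc := c.2
    rw [hprt]
    obtain ⟨j', rfl⟩ : ∃ j', l = H + (N + 4) + j' := ⟨l - (H + (N + 4)), by omega⟩
    rcases Nat.mod_two_eq_zero_or_one j' with q2 | q2
    · have := dead_right hW0 hH0 hT (j := j') (by omega)
        (by rw [usR _ (by omega)]; exact decide_eq_true (by omega))
        (by rw [usR _ (by omega)]; exact decide_eq_false (by omega))
      omega
    · have := dead_right hW0 hH0 hT (j := j' - 1) (by omega)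
        (by rw [usR _ (by omega)]; exact decide_eq_true (by omega))
        (by rw [usR _ (by omega)]; exact decide_eq_false (by omega))
      have e : H + (N + 4) + (j' - 1 + 1) = H + (N + 4) + j' := by omega
      rw [e] at this
      have := TD_pair hT (by omega) this
      omega
  · -- top side
    right
    intro c
    have hc := c.2
    rw [hprt]
    obtain ⟨i, hi, rfl⟩ : ∃ i, i < N + 4 ∧ l = 2 * (H + (N + 4)) - 1 - i :=
      ⟨2 * (H + (N + 4)) - 1 - l, by omega, by omega⟩
    rcases Nat.mod_two_eq_zero_or_one i with q2 | q2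
    · have := dead_top hW0 hH0 hT (i := i) (by omega)
        (by rw [usT _ (by omega)]; exact decide_eq_true (by omega))
        (by rw [usT _ (by omega)]; exact decide_eq_false (by omega))
      omega
    · have := dead_top hW0 hH0 hT (i := i - 1) (by omega)
        (by rw [usT _ (by omega)]; exact decide_eq_true (by omega))
        (by rw [usT _ (by omega)]; exact decide_eq_false (by omega))
      have e : 2 * (H + (N + 4)) - 1 - (i - 1 + 1) = 2 * (H + (N + 4)) - 1 - i := by omega
      rw [e] at this
      have := TD_pair hT (by omega) this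
      omega

/-- the matching below the row `j - 1` -/
lemma exc_dn (hL : Lay L N h) (hN : N % 2 = 0) (j2 : j % 2 = 0) (hj : j ≤ h)
    {H : ℕ} (hH : (H : ℤ) = j + 1) {M : ℕ → ℕ}
    (hT : TD (uf L) (ud L) (Bx' (TT (-2) (-2)) (N + 4) 0 H) (H + (N + 4)) (se (TT (-2) (-2)) (N + 4) H)
      (fun k => UW (se (TT (-2) (-2)) (N + 4) H k)) (Kp (N + 4) H) M) :
    (exc N M false (2 * (H + (N + 4)) - 1 - 2)).card ≤ 12 := by
  have hH0 : 0 < H := by omega
  have hH2 : H % 2 = 1 := by omega
  have hW0 : 0 < N + 4 := by omega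
  have hprt : ∀ c : Fin N, prt false (2 * (H + (N + 4)) - 1 - 2) c =
    2 * (H + (N + 4)) - 1 - 2 - c := fun _ => rfl
  have usL : ∀ j' : ℕ, 0 < j' → j' + 1 < H → us L (TT (-2) (-2) 0 j') = decide (j' % 2 = 1) := by
    intro j' hj0' hj'
    have e : TT (-2) (-2) 0 j' = (-2, -2 + (j' : ℤ)) := by unfold TT; simp
    rw [e, us_open (hL.left _ (by omega) (by omega))]
    by_cases h1 : j' % 2 = 1
    · rw [decide_eq_true h1, decide_eq_true (by omega)]
    · rw [decide_eq_false h1, decide_eq_false (by omega)]
  have usR : ∀ j' : ℕ, 0 < j' → j' + 1 < H →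
      us L (TT (-2) (-2) (N + 4 - 1) j') = decide (j' % 2 = 0) := by
    intro j' hj0' hj'
    have e : TT (-2) (-2) (N + 4 - 1) j' = ((N : ℤ) + 1, -2 + (j' : ℤ)) := by
      unfold TT
      have : ((N + 4 - 1 : ℕ) : ℤ) = N + 3 := by omega
      rw [this]
      refine Prod.ext ?_ rfl
      simp only; ring
    rw [e, us_open (hL.right _ (by omega) (by omega))]
    by_cases h1 : j' % 2 = 0
    · rw [decide_eq_true h1, decide_eq_true (by omega)]
    · rw [decide_eq_false h1, decide_eq_false (by omega)]
  have usB : ∀ i : ℕ, i < N + 4 → us L (TT (-2) (-2) i 0) = decide (i % 2 = 0) := by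
    intro i hi
    have e : TT (-2) (-2) i 0 = (-2 + (i : ℤ), -2) := by unfold TT; simp
    rw [e, us_closed (hL.bot _ (by omega) (by omega))]
    by_cases h1 : i % 2 = 0
    · rw [decide_eq_true h1, decide_eq_true (by omega)]
    · rw [decide_eq_false h1, decide_eq_false (by omega)]
  refine (exc_card hT (N := N) (p0 := 2 * (H + (N + 4)) - 1 - 2) (up := false) (fun _ => by omega)
    (fun c => by rw [hprt]; have := c.2; omega)
    ([2 * (H + (N + 4)) - 1, 2 * (H + (N + 4)) - 2, 2 * H + N + 5, 2 * H + N + 4,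
      H - 1, H - 2, 0, H + (N + 4), H + (N + 4) + 1, 2 * H + (N + 4) - 1, H,
      H + (N + 4) - 1].toFinset) ?_).trans (List.toFinset_card_le _)
  intro l hl hlive
  simp only [List.mem_toFinset, List.mem_cons, List.not_mem_nil, or_false, not_or] at hlive
  rcases Nat.lt_or_ge l H with q1 | q1
  · -- left side
    right
    intro c
    have hc := c.2
    rw [hprt]
    rcases Nat.mod_two_eq_zero_or_one (H - 1 - l) with q2 | q2
    · have := dead_left hW0 hH0 hT (j := H - 1 - l) (by omega)
        (by rw [usL _ (by omega) (by omega)]; exact decide_eq_false (by omega))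
        (by rw [usL _ (by omega) (by omega)]; exact decide_eq_true (by omega))
      have e : H - 1 - (H - 1 - l) = l := by omega
      rw [e] at this
      omega
    · have := dead_left hW0 hH0 hT (j := H - 2 - l) (by omega)
        (by rw [usL _ (by omega) (by omega)]; exact decide_eq_false (by omega))
        (by rw [usL _ (by omega) (by omega)]; exact decide_eq_true (by omega))
      have e : H - 1 - (H - 2 - l) = l + 1 := by omega
      have e' : H - 1 - (H - 2 - l + 1) = l := by omega
      rw [e, e'] at this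
      have := TD_pair hT (by omega) this
      omega
  rcases Nat.lt_or_ge l (H + (N + 4)) with q3 | q3
  · -- bottom side
    right
    intro c
    have hc := c.2
    rw [hprt]
    obtain ⟨i, rfl⟩ : ∃ i, l = H + i := ⟨l - H, by omega⟩
    rcases Nat.mod_two_eq_zero_or_one i with q2 | q2
    · have := dead_bot hW0 hH0 hT (i := i - 1) (by omega)
        (by rw [usB _ (by omega)]; exact decide_eq_false (by omega))
        (by rw [usB _ (by omega)]; exact decide_eq_true (by omega))
      have e : H + (i - 1 + 1) = H + i := by omega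
      rw [e] at this
      have := TD_pair hT (by omega) this
      omega
    · have := dead_bot hW0 hH0 hT (i := i) (by omega)
        (by rw [usB _ (by omega)]; exact decide_eq_false (by omega))
        (by rw [usB _ (by omega)]; exact decide_eq_true (by omega))
      omega
  rcases Nat.lt_or_ge l (H + (N + 4) + H) with q4 | q4
  · -- right side
    right
    intro c
    have hc := c.2
    rw [hprt]
    obtain ⟨j', rfl⟩ : ∃ j', l = H + (N + 4) + j' := ⟨l - (H + (N + 4)), by omega⟩
    rcases Nat.mod_two_eq_zero_or_one j' with q2 | q2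
    · have := dead_right hW0 hH0 hT (j := j') (by omega)
        (by rw [usR _ (by omega) (by omega)]; exact decide_eq_true (by omega))
        (by rw [usR _ (by omega) (by omega)]; exact decide_eq_false (by omega))
      omega
    · have := dead_right hW0 hH0 hT (j := j' - 1) (by omega)
        (by rw [usR _ (by omega) (by omega)]; exact decide_eq_true (by omega))
        (by rw [usR _ (by omega) (by omega)]; exact decide_eq_false (by omega))
      have e : H + (N + 4) + (j' - 1 + 1) = H + (N + 4) + j' := by omega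
      rw [e] at this
      have := TD_pair hT (by omega) this
      omega
  · -- top side: the columns of the row
    left
    refine ⟨⟨2 * (H + (N + 4)) - 1 - 2 - l, by omega⟩, ?_⟩
    rw [hprt]
    simp only
    omega

/-- **The frame of the row `j - 1` of the rectangle.** -/
theorem frame_R45 (hL : Lay L N h) (hN : N % 2 = 0) (h2 : h % 2 = 0) (j2 : j % 2 = 0)
    (hj0 : 0 ≤ j) (hj : j ≤ h) : ∃ F : Frame L N 0 (j - 1), F.EU.card ≤ 6 ∧ F.ED.card ≤ 12 ∧
      ∀ x y : ℤ, F.In (lbt x y) → -2 ≤ x ∧ x < N + 2 ∧ -2 ≤ y ∧ y ≤ h := by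
  obtain ⟨H, hH⟩ : ∃ H : ℕ, (H : ℤ) = h + 1 - j := ⟨(h + 1 - j).toNat, by omega⟩
  obtain ⟨H', hH'⟩ : ∃ H' : ℕ, (H' : ℤ) = j + 1 := ⟨(j + 1).toNat, by omega⟩
  obtain ⟨M, hM⟩ := rectTD L (-2) j (w := N + 4) (h := H) (by omega) (by omega)
  obtain ⟨M', hM'⟩ := rectTD L (-2) (-2) (w := N + 4) (h := H') (by omega) (by omega)
  have e1 : (0 : ℤ) - ((2 : ℕ) : ℤ) = -2 := by norm_num
  have e2 : (j - 1 + 1 : ℤ) = j := by ring
  have e3 : (j - 1 - (H' : ℤ)) = -2 := by omega
  refine ⟨⟨2, N + 4, H, 2, N + 4, H', by omega, by omega, by omega, by omega, M, M', ?_, ?_⟩,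
    ?_, ?_, ?_⟩
  · rw [e1, e2]; exact hM
  · rw [e1, e3]; exact hM'
  · exact exc_up hL hN h2 j2 hj0 hj hH hM
  · exact exc_dn hL hN j2 hj hH' hM'
  · intro x y hxy
    rcases hxy with ⟨x', y', e, a1, a2, a3, a4⟩ | ⟨x', y', e, a1, a2, a3, a4⟩ | ⟨c, e⟩
    · obtain ⟨rfl, rfl⟩ := lbt_inj e
      simp only at a1 a2 a3 a4
      push_cast at a1 a2 a3 a4
      omega
    · obtain ⟨rfl, rfl⟩ := lbt_inj e
      simp only at a1 a2 a3 a4
      push_cast at a1 a2 a3 a4
      omega
    · have hc := c.2
      obtain ⟨rfl, rfl⟩ := lbt_inj e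
      omega

end Pool.Agent.H30.Mid
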