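import Mathlib
import Pool.Agent.H30.Mid.Plan
import Pool.Agent.Q1.M6b.Boxes
import Pool.Agent.Q1.M6b.Seam

set_option autoImplicit false
open Finset

/-! # The glued form of the coupon sums; the geometry of the glued row -/

namespace Pool.Agent.H30.Mid

open Pool.Agent.H75.Perc Pool.Agent.H75.TwoArm Pool.Agent.Q1 Pool.Agent.H81.G1
open Pool.Agent.H69.M6b (lbt lbt_inj lbt_odd pr0)
open Pool.Agent.Q1.M6b.Gl
open Pool.Agent.Q1.M6b.Gd (Iso Nr RowGeo sm)

/-! ### Plane-like environments -/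

/-- outside the random labels the step map is that of the open labels `W` -/
structure PO (X : Env) (W : Finset (ℤ × ℤ)) : Prop where
  disj : Disjoint X.E W
  out : ∀ c, lab c ∉ X.E → X.out c = nx W c ∧ X.dout c = del W c

lemma PO.outL {X : Env} {W : Finset (ℤ × ℤ)} (h : PO X W) : OutL X W := h.out

/-- open labels after freezing the labels outside `E'` in the state `t` -/
def fW (X : Env) (W E' t : Finset (ℤ × ℤ)) : Finset (ℤ × ℤ) := W ∪ (t ∩ (X.E \ E'))

lemma PO.freeze {X : Env} {W : Finset (ℤ × ℤ)} (h : PO X W) (E' t : Finset (ℤ × ℤ)) :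
    PO (X.freeze E' t) (fW X W E' t) := by
  constructor
  · rw [Env.freeze_E, disjoint_left]
    intro e he he'
    unfold fW at he'
    rw [mem_union, mem_inter, mem_sdiff] at he'
    rw [mem_inter] at he
    rcases he' with h1 | h1
    · exact disjoint_left.1 h.disj he.1 h1
    · exact h1.2.2 he.2
  · intro c hc
    rw [Env.freeze_E, mem_inter] at hc
    change (if lab c ∈ X.E then nx t c else X.out c) = _ ∧
      (if lab c ∈ X.E then del t c else X.dout c) = _
    by_cases hE : lab c ∈ X.E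
    · rw [if_pos hE, if_pos hE]
      have hE' : lab c ∉ E' := fun h1 => hc ⟨hE, h1⟩
      have h1 : lab c ∈ t ↔ lab c ∈ fW X W E' t := by
        unfold fW
        rw [mem_union, mem_inter, mem_sdiff]
        constructor
        · intro h2; exact Or.inr ⟨h2, hE, hE'⟩
        · rintro (h2 | h2)
          · exact absurd h2 (disjoint_left.1 h.disj hE)
          · exact h2.1
      unfold nx del
      by_cases h2 : lab c ∈ t
      · rw [if_pos h2, if_pos h2, if_pos (h1.1 h2), if_pos (h1.1 h2)]; exact ⟨rfl, rfl⟩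
      · rw [if_neg h2, if_neg h2, if_neg (fun h3 => h2 (h1.2 h3)), if_neg (fun h3 => h2 (h1.2 h3))]
        exact ⟨rfl, rfl⟩
    · rw [if_neg hE, if_neg hE, (h.out c hE).1, (h.out c hE).2]
      have h1 : lab c ∈ W ↔ lab c ∈ fW X W E' t := by
        unfold fW
        rw [mem_union, mem_inter, mem_sdiff]
        constructor
        · intro h2; exact Or.inl h2
        · rintro (h2 | h2)
          · exact h2
          · exact absurd h2.2.1 hE
      unfold nx del
      by_cases h2 : lab c ∈ W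
      · rw [if_pos h2, if_pos h2, if_pos (h1.1 h2), if_pos (h1.1 h2)]; exact ⟨rfl, rfl⟩
      · rw [if_neg h2, if_neg h2, if_neg (fun h3 => h2 (h1.2 h3)), if_neg (fun h3 => h2 (h1.2 h3))]
        exact ⟨rfl, rfl⟩

/-- the plane environments -/
lemma PO.of_plane {E W : Finset (ℤ × ℤ)} {c0 : ℤ × ℤ} {k0 : ℤ} {g : ℤ × ℤ}
    {hE : ∀ e ∈ E, (e.1 + e.2) % 2 = 1} {hd : Disjoint E W} {hk : k0 % 4 = ty c0}
    {hroot : plab c0 ∉ E} {hg : DCo (E ∪ W) (fi c0) g}
    {hlow : ∀ v, Co (E ∪ W) (vx c0) v → g.2 < v.2} :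
    PO (Env.plane E W c0 k0 g hE hd hk hroot hg hlow) W :=
  ⟨hd, fun _ _ => ⟨rfl, rfl⟩⟩

/-! ### Ungluing -/

variable {v : ℤ × ℤ}

/-- the configuration before the removal of the row -/
def ug (EL EU : Finset (ℤ × ℤ)) (v : ℤ × ℤ) (ω : Finset (ℤ × ℤ)) : Finset (ℤ × ℤ) :=
  (ω ∩ EL) ∪ (EU \ ω.map (tr (-v)))

lemma ug_sub {EL EU ω : Finset (ℤ × ℤ)} : ug EL EU v ω ⊆ EL ∪ EU :=
  union_subset_union inter_subset_right sdiff_subset

lemma mem_ug {EL EU ω : Finset (ℤ × ℤ)} {e : ℤ × ℤ} :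
    e ∈ ug EL EU v ω ↔ (e ∈ ω ∧ e ∈ EL) ∨ (e ∈ EU ∧ e + v ∉ ω) := by
  unfold ug
  rw [mem_union, mem_inter, mem_sdiff, mem_tr, sub_neg_eq_add]

lemma ug_gc {EL EU : Finset (ℤ × ℤ)} (hd' : Disjoint EL (EU.map (tr v))) {ω : Finset (ℤ × ℤ)}
    (hω : ω ⊆ EL ∪ EU) : ug EL EU v (gc EL EU v ω) = ω := by
  have hm : ∀ e, e ∈ EU → e + v ∈ EU.map (tr v) := fun e he => by
    rw [mem_tr, add_sub_cancel_right]; exact he
  ext e
  rw [mem_ug]
  unfold gc
  rw [mem_union, mem_union, mem_inter, mem_inter, mem_tr, mem_tr, mem_sdiff, mem_sdiff,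
    add_sub_cancel_right]
  constructor
  · rintro (⟨h1 | h1, h2⟩ | ⟨h1, h2⟩)
    · exact h1.1
    · exact absurd (mem_tr.2 h1.1) (disjoint_left.1 hd' h2)
    · by_contra h3
      exact h2 (Or.inr ⟨h1, h3⟩)
  · intro h
    rcases mem_union.1 (hω h) with h1 | h1
    · exact Or.inl ⟨Or.inl ⟨h, h1⟩, h1⟩
    · refine Or.inr ⟨h1, ?_⟩
      rintro (h2 | h2)
      · exact disjoint_left.1 hd' h2.2 (hm e h1)
      · exact h2.2 h

/-- averages before the removal of the row as averages of glued configurations -/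
theorem Ec_unglue {EL EU : Finset (ℤ × ℤ)} (hd : Disjoint EL EU) (hd' : Disjoint EL (EU.map (tr v)))
    (F : Finset (ℤ × ℤ) → ℂ) : Ec (fun _ => (1 / 2 : ℂ)) (EL ∪ EU) F =
      Ec (fun _ => (1 / 2 : ℂ)) (gE EL EU v) (fun ω => F (ug EL EU v ω)) := by
  rw [← Ec_glue hd hd' (fun ω => F (ug EL EU v ω))]
  exact Ec_congr fun ω hω => by rw [ug_gc hd' hω]

/-! ### The coupon sums -/

variable {N : ℕ}

/-- the columns of a set of positions relative to the mark `k` -/
def cs (N : ℕ) (k : ℤ) (s : Finset ℤ) : Finset (Fin N) := univ.filter (fun c => ((c : ℕ) : ℤ) - k ∈ s)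

/-- amplitude of the coupons at the positions `s`, on glued configurations -/
noncomputable def Amp (X : Env) (x0 y0 : ℤ) (y : Fin N × Dir) (a b : ℂ) (EL EU : Finset (ℤ × ℤ))
    (k : ℤ) (s : Finset ℤ) (ω : Finset (ℤ × ℤ)) : ℂ :=
  AR X x0 y0 y (cA (cs N k s) a) (cB (cs N k s) b) (ug EL EU (1, -1) ω)

/-- **The sum over `m` coupons**, glued. -/
theorem coupon_sum (X : Env) (x0 y0 : ℤ) (y : Fin N × Dir) (a b : ℂ) {EL EU : Finset (ℤ × ℤ)}
    (hd : Disjoint EL EU) (hd' : Disjoint EL (EU.map (tr (1, -1)))) (k : ℤ) (m : ℕ) :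
    ∑ S ∈ powersetCard m (univ : Finset (Fin N)), Ec (fun _ => (1 / 2 : ℂ)) (EL ∪ EU)
        (AR X x0 y0 y (cA S a) (cB S b)) =
      ∑ s ∈ powersetCard m (Finset.Ico (-k) ((N : ℤ) - k)), Ec (fun _ => (1 / 2 : ℂ))
        (gE EL EU (1, -1)) (Amp X x0 y0 y a b EL EU k s) := by
  symm
  have hinj : ∀ s ⊆ Finset.Ico (-k) ((N : ℤ) - k),
      (cs N k s).image (fun c : Fin N => ((c : ℕ) : ℤ) - k) = s := by
    intro s hs
    ext i
    rw [mem_image]
    constructor
    · rintro ⟨c, hc, rfl⟩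
      unfold cs at hc
      exact (mem_filter.1 hc).2
    · intro hi
      have h1 := mem_Ico.1 (hs hi)
      refine ⟨⟨(i + k).toNat, by omega⟩, ?_, ?_⟩
      · unfold cs
        rw [mem_filter]
        refine ⟨mem_univ _, ?_⟩
        have e : (((i + k).toNat : ℕ) : ℤ) - k = i := by omega
        simp only [e]
        exact hi
      · simp only
        omega
  have hI : Function.Injective (fun c : Fin N => ((c : ℕ) : ℤ) - k) := by
    intro c c' h
    simp only at h
    exact Fin.ext (by omega)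
  refine sum_bij' (fun s _ => cs N k s) (fun S _ => S.image (fun c : Fin N => ((c : ℕ) : ℤ) - k))
    ?_ ?_ ?_ ?_ ?_
  · intro s hs
    rw [mem_powersetCard] at hs ⊢
    refine ⟨subset_univ _, ?_⟩
    rw [← hs.2, ← card_image_of_injective (cs N k s) hI, hinj s hs.1]
  · intro S hS
    rw [mem_powersetCard] at hS ⊢
    refine ⟨?_, ?_⟩
    · intro i hi
      obtain ⟨c, -, rfl⟩ := mem_image.1 hi
      have := c.2
      rw [mem_Ico]
      omega
    · rw [card_image_of_injective _ hI]; exact hS.2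
  · intro s hs
    exact hinj s (mem_powersetCard.1 hs).1
  · intro S _
    ext c
    unfold cs
    rw [mem_filter, mem_image]
    constructor
    · rintro ⟨-, c', hc', h⟩
      rw [← hI h]; exact hc'
    · intro h
      exact ⟨mem_univ _, c, h, rfl⟩
  · intro s _
    rw [Ec_unglue hd hd']
    rfl

lemma Ec_sum' {α ι : Type*} [DecidableEq α] (q : α → ℂ) (E : Finset α) (T : Finset ι)
    (F : ι → Finset α → ℂ) : Ec q E (fun ω => ∑ i ∈ T, F i ω) = ∑ i ∈ T, Ec q E (F i) := by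
  unfold Ec
  rw [sum_comm]
  exact sum_congr rfl fun ω _ => by rw [mul_sum]

lemma Ec_smul' {α : Type*} [DecidableEq α] (q : α → ℂ) (E : Finset α) (c : ℂ)
    (F : Finset α → ℂ) : Ec q E (fun ω => c * F ω) = c * Ec q E F := by
  unfold Ec
  rw [mul_sum]
  exact sum_congr rfl fun ω _ => by ring

/-- **The expansion in coupons of the weighted increments**: `X.E = EL ∪ EU ∪ row`, weights `1/2` on
`EL ∪ EU`, `a + κ`, `b - κ` on the row. -/
theorem incW_coupons {X : Env} {x0 y0 : ℤ} (h : HasRow X N x0 y0) {EL EU : Finset (ℤ × ℤ)}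
    (hE : X.E \ RS N x0 y0 = EL ∪ EU) (hd : Disjoint EL EU)
    (hd' : Disjoint EL (EU.map (tr (1, -1)))) {q : ℤ × ℤ → ℂ} (hq : ∀ e ∈ EL ∪ EU, q e = 1 / 2)
    {a b κ : ℂ} (hA : ∀ c : Fin N, wA (rl x0 y0) (rp x0 y0) q c = a + κ)
    (hB : ∀ c : Fin N, wB (rl x0 y0) (rp x0 y0) q c = b - κ) (y : Fin N × Dir) (k : ℤ) :
    X.incW q (rcr x0 y0 y) = ∑ m ∈ range (N + 1), κ ^ m *
      ∑ s ∈ powersetCard m (Finset.Ico (-k) ((N : ℤ) - k)), Ec (fun _ => (1 / 2 : ℂ))
        (gE EL EU (1, -1)) (Amp X x0 y0 y a b EL EU k s) := by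
  have e1 : wA (rl x0 y0) (rp x0 y0) q = fun _ : Fin N => a + κ := funext hA
  have e2 : wB (rl x0 y0) (rp x0 y0) q = fun _ : Fin N => b - κ := funext hB
  rw [incW_row h q y, hE, e1, e2, Ec_congr_q hq]
  have e3 : (fun ω => AR X x0 y0 y (fun _ => a + κ) (fun _ => b - κ) ω) = fun ω =>
      ∑ S : Finset (Fin N), κ ^ S.card * AR X x0 y0 y (cA S a) (cB S b) ω :=
    funext fun ω => AR_coupons X x0 y0 y a b κ ω
  have e4 : (AR X x0 y0 y (fun _ : Fin N => a + κ) (fun _ => b - κ)) = fun ω =>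
      ∑ S : Finset (Fin N), κ ^ S.card * AR X x0 y0 y (cA S a) (cB S b) ω := e3
  rw [e4, Ec_sum']
  simp only [Ec_smul']
  have hu : (univ : Finset (Finset (Fin N))) = (univ : Finset (Fin N)).powerset := by
    ext S; simp
  rw [hu, Finset.sum_powerset, card_univ, Fintype.card_fin]
  refine sum_congr rfl fun m _ => ?_
  rw [← coupon_sum X x0 y0 y a b hd hd' k m, mul_sum]
  refine sum_congr rfl fun S hS => ?_
  rw [(mem_powersetCard.1 hS).2]

end Pool.Agent.H30.Mid
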