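import Mathlib
import Pool.Agent.H30.Mid.Gl

set_option autoImplicit false
open Finset

/-! # The geometry of the glued row

Tile frame of the glued environment: the row `y0` is removed, the labels above it are moved down by one;
position of the column `k + j`: the corner `he (x0 + k + j, y0) = sm true y0 (x0 + k - y0 + 1 + j)`. -/

namespace Pool.Agent.H30.Mid

open Pool.Agent.H75.Perc Pool.Agent.H75.TwoArm Pool.Agent.Q1
open Pool.Agent.H69.M6b (lbt lbt_inj lbt_odd)
open Pool.Agent.Q1.M6b.Gl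
open Pool.Agent.Q1.M6b.Gd (Iso Nr RowGeo sm)
open Pool.Agent.H74.R45 (he)

lemma sm_he (y0 x : ℤ) : sm true y0 (x - y0 + 1) = he (x, y0) := by
  unfold sm he
  simp only [if_true]
  refine Prod.ext rfl ?_
  simp only; ring

lemma lbt_add (x y : ℤ) : lbt x y + (1, -1) = lbt x (y - 1) := by
  unfold lbt
  refine Prod.ext ?_ ?_ <;> simp <;> ring

lemma exists_lbt {e : ℤ × ℤ} (h : (e.1 + e.2) % 2 = 1) : ∃ x y, e = lbt x y := by
  refine ⟨(e.1 + e.2 - 1) / 2, (e.2 - e.1 - 1) / 2, ?_⟩
  unfold lbt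
  refine Prod.ext ?_ ?_ <;> simp only <;> omega

lemma iso_sm (y0 j0 : ℤ) : Iso (fun j => sm true y0 (j0 + j)) := by
  constructor
  · intro j j'
    unfold Nr sm
    simp only [if_true]
    constructor
    · rw [show j0 + j - (j0 + j') = j - j' by ring]
    · rw [show j0 + j + 2 * y0 - (j0 + j' + 2 * y0) = j - j' by ring]
  · intro j j' d h
    unfold Nr sm at h
    simp only [if_true] at h
    have := h.1
    rwa [show j0 + j - (j0 + j') = j - j' by ring] at this

/-- the labels `B` are near the walls, away from the row -/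
def Sep (B : Finset (ℤ × ℤ)) (N : ℕ) (x0 y0 : ℤ) : Prop :=
  ∀ x y : ℤ, lbt x y ∈ B → 2 * (x - x0) ≤ |y - y0| + 2 ∨ 2 * (x0 + N - x) ≤ |y - y0| + 2

/-- **`RowGeo` of the glued row.** -/
theorem rowGeo_rect {E B : Finset (ℤ × ℤ)} {N k : ℕ} {x0 y0 ya yb K0 : ℤ} (hk1 : 1 ≤ k)
    (hkN : k + 1 ≤ N) (hK : 6 ≤ K0) (hya : (N : ℤ) < K0 * (y0 - ya + 1))
    (hyb : (N : ℤ) < K0 * (yb - y0 + 1))
    (hE : ∀ x y : ℤ, x0 ≤ x → x < x0 + N → ya ≤ y → y < yb → lbt x y ∉ B → lbt x y ∈ E)
    (hB : Sep B N x0 y0) :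
    RowGeo E (fun j => sm true y0 (x0 + k - y0 + 1 + j)) K0 k (N - k) := by
  have h2 : ((N - k : ℕ) : ℤ) = N - k := by omega
  refine ⟨iso_sm _ _, ?_, ?_⟩
  · intro j d hj h3 h4 e he hN
    obtain ⟨x, y, rfl⟩ := exists_lbt he
    rw [h2] at h4
    unfold Nr sm lbt at hN
    simp only [if_true] at hN
    have n1 := abs_le.1 hN.1
    have n2 := abs_le.1 hN.2
    have hd0 : 0 ≤ d := by omega
    have hd : 6 * d ≤ K0 * d := by nlinarith
    have hd1 : 1 ≤ d := by omega
    have hda : d < y0 - ya + 1 := by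
      by_contra h
      have : K0 * (y0 - ya + 1) ≤ K0 * d := by nlinarith
      omega
    have hdb : d < yb - y0 + 1 := by
      by_contra h
      have : K0 * (yb - y0 + 1) ≤ K0 * d := by nlinarith
      omega
    refine hE x y (by omega) (by omega) (by omega) (by omega) ?_
    intro hb
    have hs := hB x y hb
    have hyy : |y - y0| ≤ d + 1 := abs_le.2 ⟨by omega, by omega⟩
    omega
  · intro j d hj h3 h4 e he hN
    obtain ⟨x, y, rfl⟩ := exists_lbt he
    unfold Nr sm lbt at hN
    simp only [if_true] at hN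
    have n1 := abs_le.1 hN.1
    have n2 := abs_le.1 hN.2
    have hd0 : 0 ≤ d := by omega
    have hd : 6 * d ≤ K0 * d := by nlinarith
    have hd1 : 1 ≤ d := by omega
    have hda : d < y0 - ya + 1 := by
      by_contra h
      have : K0 * (y0 - ya + 1) ≤ K0 * d := by nlinarith
      omega
    have hdb : d < yb - y0 + 1 := by
      by_contra h
      have : K0 * (yb - y0 + 1) ≤ K0 * d := by nlinarith
      omega
    refine hE x y (by omega) (by omega) (by omega) (by omega) ?_
    intro hb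
    have hs := hB x y hb
    have hyy : |y - y0| ≤ d + 1 := abs_le.2 ⟨by omega, by omega⟩
    omega

/-- the glued random labels: `EL` = labels below, `EU` = labels above the row, without `B` -/
theorem rowGeo_glued {EL EU BL BU : Finset (ℤ × ℤ)} {N k : ℕ} {x0 y0 ya yb K0 : ℤ} (hk1 : 1 ≤ k)
    (hkN : k + 1 ≤ N) (hK : 6 ≤ K0) (hya : (N : ℤ) < K0 * (y0 - ya + 1))
    (hyb : (N : ℤ) < K0 * (yb - y0))
    (hL : ∀ x y : ℤ, x0 ≤ x → x < x0 + N → ya ≤ y → y < y0 → lbt x y ∉ BL → lbt x y ∈ EL)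
    (hU : ∀ x y : ℤ, x0 ≤ x → x < x0 + N → y0 < y → y < yb → lbt x y ∉ BU → lbt x y ∈ EU)
    (hBL : Sep BL N x0 y0) (hBU : Sep BU N x0 (y0 + 1)) :
    RowGeo (gE EL EU (1, -1)) (fun j => sm true y0 (x0 + k - y0 + 1 + j)) K0 k (N - k) := by
  refine rowGeo_rect (B := BL ∪ BU.map (tr (1, -1))) (ya := ya) (yb := yb - 1) hk1 hkN hK hya
    (by rw [show yb - 1 - y0 + 1 = yb - y0 by ring]; exact hyb) ?_ ?_
  · intro x y h1 h2 h3 h4 h5
    rw [mem_union, not_or, mem_tr] at h5
    have e : lbt x y - (1, -1) = lbt x (y + 1) := by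
      have := lbt_add x (y + 1)
      rw [add_sub_cancel_right] at this
      rw [← this, add_sub_cancel_right]
    rw [e] at h5
    unfold gE
    rw [mem_union, mem_tr, e]
    rcases lt_or_ge y y0 with h6 | h6
    · exact Or.inl (hL x y h1 h2 h3 h6 h5.1)
    · exact Or.inr (hU x (y + 1) h1 h2 (by omega) (by omega) h5.2)
  · intro x y h
    rw [mem_union, mem_tr] at h
    rcases h with h | h
    · exact hBL x y h
    · have e : lbt x y - (1, -1) = lbt x (y + 1) := by
        have := lbt_add x (y + 1)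
        rw [add_sub_cancel_right] at this
        rw [← this, add_sub_cancel_right]
      rw [e] at h
      have := hBU x (y + 1) h
      rwa [show y + 1 - (y0 + 1) = y - y0 by ring] at this

end Pool.Agent.H30.Mid
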