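import Mathlib
import Pool.Agent.H30.Mid.RGeo
import Pool.Agent.H30.Mid.R45
import Pool.Agent.H13.R45.Tie

set_option autoImplicit false
open Finset

/-! # The frozen environments of the row `j - 1` of the rectangle (R45)

`XF` : the tied form `XT` of `XJ` (`0 < j < h`), all labels frozen in the state `t` except the row and the
labels of the rectangle which are not in `B`. -/

namespace Pool.Agent.H30.Mid

open Pool.Agent.H75.Perc Pool.Agent.H75.TwoArm Pool.Agent.Q1 Pool.Agent.H81.G1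
open Pool.Agent.H69.M6b (lbt lbt_inj lbt_odd)
open Pool.Agent.Q1.M6b.Gl
open Pool.Agent.Q1.M6b.Gd (Iso Nr RowGeo sm)
open Pool.Agent.Q1.M6b.Strand (Planar)
open Pool.Agent.H74.R45 Pool.Agent.H13.R45 Pool.Agent.H33.Q1

variable {w h j x y : ℤ} {N : ℕ} {B t ω : Finset (ℤ × ℤ)}

/-- the root corner is not next to the rectangle and its walls -/
def RootFar (O : Out w h) : Prop :=
  ∀ x y : ℤ, plab O.c0 = lbt x y → ¬ (-2 ≤ x ∧ x < w + 2 ∧ -2 ≤ y ∧ y ≤ h)

lemma odd_plab' (c : ℤ × ℤ) : ((plab c).1 + (plab c).2) % 2 = 1 := by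
  rw [← lab_pv ∅ c]; exact lab_odd _

/-- labels below the row -/
noncomputable def BL (w j : ℤ) (B : Finset (ℤ × ℤ)) : Finset (ℤ × ℤ) := RT 0 w (-1) (j - 1) \ B

/-- labels above the row -/
noncomputable def BU (w h j : ℤ) (B : Finset (ℤ × ℤ)) : Finset (ℤ × ℤ) := RT 0 w j h \ B

lemma mem_BL : lbt x y ∈ BL w j B ↔ (0 ≤ x ∧ x < w ∧ -1 ≤ y ∧ y < j - 1) ∧ lbt x y ∉ B := by
  unfold BL
  rw [mem_sdiff, lbt_lt, lt_mem_RT]

lemma mem_BU : lbt x y ∈ BU w h j B ↔ (0 ≤ x ∧ x < w ∧ j ≤ y ∧ y < h) ∧ lbt x y ∉ B := by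
  unfold BU
  rw [mem_sdiff, lbt_lt, lt_mem_RT]

lemma mem_RSx (hN : (N : ℤ) = w) : lbt x y ∈ RS N 0 (j - 1) ↔ 0 ≤ x ∧ x < w ∧ y = j - 1 := by
  rw [mem_RS]
  constructor
  · rintro ⟨c, hc⟩
    have := c.2
    obtain ⟨h1, h2⟩ := lbt_inj hc
    omega
  · rintro ⟨h1, h2, h3⟩
    refine ⟨⟨x.toNat, by omega⟩, ?_⟩
    unfold rl
    rw [h3]
    congr 1
    simp only
    omega

lemma odd_BL {e : ℤ × ℤ} (he : e ∈ BL w j B) : (e.1 + e.2) % 2 = 1 := odd_RT (mem_sdiff.1 he).1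

lemma odd_BU {e : ℤ × ℤ} (he : e ∈ BU w h j B) : (e.1 + e.2) % 2 = 1 := odd_RT (mem_sdiff.1 he).1

lemma disj_LU : Disjoint (BL w j B) (BU w h j B) := by
  rw [disjoint_left]
  intro e h1 h2
  obtain ⟨x, y, rfl⟩ := exists_lbt (odd_BL h1)
  rw [mem_BL] at h1
  rw [mem_BU] at h2
  omega

lemma disj_LU' : Disjoint (BL w j B) ((BU w h j B).map (tr (1, -1))) := by
  rw [disjoint_left]
  intro e h1 h2
  obtain ⟨x, y, rfl⟩ := exists_lbt (odd_BL h1)
  rw [mem_tr] at h2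
  have e1 : lbt x y - (1, -1) = lbt x (y + 1) := by
    have := lbt_add x (y + 1)
    rw [add_sub_cancel_right] at this
    rw [← this, add_sub_cancel_right]
  rw [e1, mem_BU] at h2
  rw [mem_BL] at h1
  omega

section

variable (O : Out w h) (h0 : 0 ≤ j) (h1 : j ≤ h) (j2 : j % 2 = 0)

lemma po_XT : PO (XT O j h0 h1 j2) (WT w h j O.Wo) := PO.of_plane

/-- the labels which stay random -/
noncomputable def EF (N : ℕ) (w h j : ℤ) (B : Finset (ℤ × ℤ)) : Finset (ℤ × ℤ) :=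
  BL w j B ∪ BU w h j B ∪ RS N 0 (j - 1)

/-- **The frozen environment.** -/
noncomputable def XF (N : ℕ) (B t : Finset (ℤ × ℤ)) : Env := (XT O j h0 h1 j2).freeze (EF N w h j B) t

include O h0 h1 j2 in
lemma EF_sub (hN : (N : ℤ) = w) (g0 : 0 < j) (g1 : j < h) : EF N w h j B ⊆ ET w h j := by
  have hw := O.hw
  intro e he
  unfold EF at he
  rw [mem_union, mem_union] at he
  have ho : (e.1 + e.2) % 2 = 1 := by
    rcases he with (he | he) | he
    · exact odd_BL he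
    · exact odd_BU he
    · obtain ⟨c, rfl⟩ := mem_RS.1 he
      exact lbt_odd _ _
  obtain ⟨x, y, rfl⟩ := exists_lbt ho
  rw [mem_BL, mem_BU, mem_RSx hN] at he
  rw [lbt_lt, Pool.Agent.H13.R45.mem_ET (by omega) O.w2 O.h2 h0 h1 j2, mem_EJ]
  omega

lemma XF_E (hN : (N : ℤ) = w) (g0 : 0 < j) (g1 : j < h) :
    (XF O h0 h1 j2 N B t).E = EF N w h j B := by
  unfold XF
  rw [Env.freeze_E, XT_E]
  exact inter_eq_right.2 (EF_sub O h0 h1 j2 hN g0 g1)

lemma hasRow_XF (hN : (N : ℤ) = w) (g0 : 0 < j) (g1 : j < h) :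
    HasRow (XF O h0 h1 j2 N B t) N 0 (j - 1) := by
  unfold HasRow
  rw [XF_E O h0 h1 j2 hN g0 g1]
  exact subset_union_right

lemma XF_sdiff (hN : (N : ℤ) = w) (g0 : 0 < j) (g1 : j < h) :
    (XF O h0 h1 j2 N B t).E \ RS N 0 (j - 1) = BL w j B ∪ BU w h j B := by
  rw [XF_E O h0 h1 j2 hN g0 g1]
  unfold EF
  rw [union_sdiff_right, Finset.sdiff_eq_self_iff_disjoint, disjoint_left]
  intro e he he'
  obtain ⟨c, rfl⟩ := mem_RS.1 he'
  unfold rl at he
  have hc := c.2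
  rw [mem_union, mem_BL, mem_BU] at he
  omega

/-- open labels of the frozen environment -/
noncomputable def WF (N : ℕ) (B t : Finset (ℤ × ℤ)) : Finset (ℤ × ℤ) :=
  fW (XT O j h0 h1 j2) (WT w h j O.Wo) (EF N w h j B) t

lemma po_XF : PO (XF O h0 h1 j2 N B t) (WF O h0 h1 j2 N B t) := (po_XT O h0 h1 j2).freeze _ _

/-- open labels after freezing also the labels of the rectangle in the state `ω` -/
noncomputable def LF (N : ℕ) (B t ω : Finset (ℤ × ℤ)) : Finset (ℤ × ℤ) :=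
  fW (XF O h0 h1 j2 N B t) (WF O h0 h1 j2 N B t) (RS N 0 (j - 1)) ω

lemma outL_XF : OutL ((XF O h0 h1 j2 N B t).freeze (RS N 0 (j - 1)) ω) (LF O h0 h1 j2 N B t ω) :=
  ((po_XF O h0 h1 j2).freeze _ _).outL

lemma not_LF {e : ℤ × ℤ} (h2 : e ∉ WT w h j O.Wo) (h3 : e ∉ ET w h j) :
    e ∉ LF O h0 h1 j2 N B t ω := by
  unfold LF WF fW
  rw [mem_union, mem_union, mem_inter, mem_inter, mem_sdiff, mem_sdiff]
  rintro ((h4 | h4) | h4)
  · exact h2 h4
  · exact h3 h4.2.1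
  · have h5 := h4.2.1
    unfold XF at h5
    rw [Env.freeze_E, mem_inter] at h5
    exact h3 h5.1

/-- the outer layers are deterministic -/
theorem lay_XF (hN : (N : ℤ) = w) : Lay (LF O h0 h1 j2 N B t ω) N h := by
  have hw := O.hw
  have w2 := O.w2
  have h2 := O.h2
  have hh := O.hh
  have hWJ : ∀ e, e ∈ WR w h j → e ∈ LF O h0 h1 j2 N B t ω := by
    intro e he
    unfold LF WF fW WT WJ
    exact mem_union_left _ (mem_union_left _ (mem_union_left _ (mem_union_left _ he)))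
  have hOut : ∀ x y : ℤ, -2 ≤ x → x < w + 2 → (y = h ∨ y = -2) →
      lbt x y ∉ LF O h0 h1 j2 N B t ω := by
    intro x y h3 h4 h5
    apply not_LF
    · unfold WT WJ
      rw [mem_union, mem_union, lbt_lt, Pool.Agent.H74.R45.mem_WR, mem_OT (by omega) w2 h2 h0 h1 j2]
      have hf := O.far x y
      rintro ((h6 | h6) | h6)
      · omega
      · exact hf h6 ⟨h3, h4, by omega, by omega⟩
      · omega
    · intro h6
      have h7 := ET_sub h6
      rw [lbt_lt, mem_EJ] at h7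
      omega
  refine ⟨?_, ?_, ?_, ?_⟩
  · intro y h3 h4
    apply hWJ
    rw [lbt_lt, Pool.Agent.H74.R45.mem_WR]
    omega
  · intro y h3 h4
    apply hWJ
    rw [lbt_lt, Pool.Agent.H74.R45.mem_WR]
    omega
  · intro x h3 h4
    exact hOut x h h3 (by omega) (Or.inl rfl)
  · intro x h3 h4
    exact hOut x (-2) h3 (by omega) (Or.inr rfl)

/-- **Planarity of the networks of the row `j - 1`.** -/
theorem planar_XF (hN : (N : ℤ) = w) (g0 : 0 < j) (g1 : j < h) (hr : RootFar O) (B t ω : Finset (ℤ × ℤ)) :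
    ∃ F : Frame (LF O h0 h1 j2 N B t ω) N 0 (j - 1), F.EU.card ≤ 6 ∧ F.ED.card ≤ 12 ∧
      ¬ F.In (plab O.c0) ∧
      ∀ {Nw : Net (Fin N)} {n0 : ℕ}, Wired ((XF O h0 h1 j2 N B t).freeze (RS N 0 (j - 1)) ω)
        (rl 0 (j - 1)) (rp 0 (j - 1)) (rcr 0 (j - 1)) Nw n0 → ∀ {k : Fin N},
        (Nw.y0 = (k, .W) ∨ Nw.y0 = (k, .E)) → ∀ {sp : Finset (Fin N)}, F.EU ⊆ sp → F.ED ⊆ sp →
        Planar Nw (Pool.Agent.Q1.M6b.PB.Kn Nw sp) F.U F.D (fun _ => 0) := by
  have w2 := O.w2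
  obtain ⟨F, f1, f2, f3⟩ := frame_R45 (lay_XF O h0 h1 j2 (B := B) (t := t) (ω := ω) hN)
    (by omega) O.h2 j2 h0 h1
  have hroot : ¬ F.In (plab O.c0) := by
    intro hIn
    obtain ⟨x, y, e⟩ := exists_lbt (odd_plab' O.c0)
    rw [e] at hIn
    have := f3 x y hIn
    exact hr x y e (by omega)
  refine ⟨F, f1, f2, hroot, ?_⟩
  intro Nw n0 W k hy sp s1 s2
  exact Frame.planar W (outL_XF O h0 h1 j2) (frz_E (hasRow_XF O h0 h1 j2 hN g0 g1) ω) hroot hy s1 s2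

/-- **`RowGeo` of the glued row `j - 1`**, mark at the corner `ve (k, j - 1)`. -/
theorem rowGeo_XF (hN : (N : ℤ) = w) {k : ℕ} (hk1 : 1 ≤ k) (hkN : k + 1 ≤ N) {K0 : ℤ} (hK : 6 ≤ K0)
    (hya : w < K0 * (j + 1)) (hyb : w < K0 * (h - j + 1)) (hB : Sep B N 0 (j - 1))
    (hB' : Sep B N 0 j) :
    RowGeo (gE (BL w j B) (BU w h j B) (1, -1)) (fun i => sm true (j - 1) ((k : ℤ) - (j - 1) + 1 + i))
      K0 k (N - k) := by
  have h3 := rowGeo_glued (EL := BL w j B) (EU := BU w h j B) (BL := B) (BU := B) (N := N) (k := k)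
    (x0 := 0) (y0 := j - 1) (ya := -1) (yb := h) (K0 := K0) hk1 hkN hK (by rw [hN]; ring_nf; ring_nf at hya; exact hya)
    (by rw [hN]; ring_nf; ring_nf at hyb; exact hyb)
    (fun x y a1 a2 a3 a4 a5 => mem_BL.2 ⟨⟨a1, by omega, a3, a4⟩, a5⟩)
    (fun x y a1 a2 a3 a4 a5 => mem_BU.2 ⟨⟨a1, by omega, by omega, a4⟩, a5⟩) hB
    (by rw [sub_add_cancel]; exact hB')
  rw [zero_add] at h3
  exact h3

end

/-! ### Weights of the row -/

variable {a b : ℂ}

lemma qT_row (hN : (N : ℤ) = w) (g0 : 0 < j) (g1 : j < h) (c : Fin N) :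
    qT w h j a b (rl 0 (j - 1) c) = if (((c : ℕ) : ℤ) + (j - 1)) % 2 = 0 then a else 1 - a := by
  have hc := c.2
  have e : rl 0 (j - 1) c = lt ((c : ℕ), j - 1) := by
    unfold rl; rw [zero_add]; rfl
  rw [e]
  unfold qT
  rw [tt_lt]
  simp only
  rw [if_neg (by omega), if_neg (by omega), qJ_row (by omega) rfl]

lemma wA_row (hN : (N : ℤ) = w) (g0 : 0 < j) (g1 : j < h) (c : Fin N) :
    wA (rl 0 (j - 1)) (rp 0 (j - 1)) (qT w h j a b) c = a := by
  unfold wA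
  rw [qT_row hN g0 g1]
  cases hp : rp 0 (j - 1) c
  · have := (rp_false c).1 hp
    rw [if_neg (by simp), if_pos (by omega)]
  · have := (rp_true c).1 hp
    rw [if_pos rfl, if_neg (by omega)]
    ring

lemma wB_row (hN : (N : ℤ) = w) (g0 : 0 < j) (g1 : j < h) (c : Fin N) :
    wB (rl 0 (j - 1)) (rp 0 (j - 1)) (qT w h j a b) c = 1 - a := by
  unfold wB
  rw [qT_row hN g0 g1]
  cases hp : rp 0 (j - 1) c
  · have := (rp_false c).1 hp
    rw [if_neg (by simp), if_pos (by omega)]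
  · have := (rp_true c).1 hp
    rw [if_pos rfl, if_neg (by omega)]

/-- weights of the labels of the rectangle -/
lemma qT_bulk (g0 : 0 < j) (g1 : j < h) {e : ℤ × ℤ} (he : e ∈ BL w j B ∪ BU w h j B) :
    qT w h j a b e = 1 / 2 := by
  have ho : (e.1 + e.2) % 2 = 1 := by
    rcases mem_union.1 he with he | he
    · exact odd_BL he
    · exact odd_BU he
  obtain ⟨x, y, rfl⟩ := exists_lbt ho
  rw [mem_union, mem_BL, mem_BU] at he
  rw [lbt_lt]
  unfold qT qJ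
  rw [tt_lt]
  simp only
  rw [if_neg (by omega), if_neg (by omega), if_neg (by omega), if_neg (by omega)]

/-- **The weighted increments of the frozen environment: sum over the coupons.** -/
theorem incW_XF (O : Out w h) (h0 : 0 ≤ j) (h1 : j ≤ h) (j2 : j % 2 = 0) (hN : (N : ℤ) = w)
    (g0 : 0 < j) (g1 : j < h) {a0 b0 κ : ℂ} (ha : a = a0 + κ) (hab : a0 + b0 = 1)
    (y : Fin N × Dir) (k : ℤ) (B t : Finset (ℤ × ℤ)) :
    (XF O h0 h1 j2 N B t).incW (qT w h j a b) (rcr 0 (j - 1) y) = ∑ m ∈ range (N + 1), κ ^ m *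
      ∑ s ∈ powersetCard m (Finset.Ico (-k) ((N : ℤ) - k)), Ec (fun _ => (1 / 2 : ℂ))
        (gE (BL w j B) (BU w h j B) (1, -1))
        (Amp (XF O h0 h1 j2 N B t) 0 (j - 1) y a0 b0 (BL w j B) (BU w h j B) k s) := by
  refine incW_coupons (hasRow_XF O h0 h1 j2 hN g0 g1) (XF_sdiff O h0 h1 j2 hN g0 g1) disj_LU disj_LU'
    (fun e he => qT_bulk g0 g1 he) (fun c => ?_) (fun c => ?_) y k
  · rw [wA_row hN g0 g1, ha]
  · rw [wB_row hN g0 g1, ha]
    linear_combination -hab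

end Pool.Agent.H30.Mid
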