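import Mathlib
import Pool.Agent.Q1.M6b.Nest4
import Pool.Agent.H13.R45.Grid

set_option autoImplicit false
open Finset

/-! # The index of closed strands at the grid points of the tile frame

`ix O x y` : index of the grid point `(x, y)` (a vertex if `x + y` is even, a face otherwise) with respect
to an invariant finite set `O` of corners. It is the same at the two vertices of an open tile, at the two
faces of a closed tile, at the two ends of a corner which is not in `O`, and zero far away. -/

namespace Pool.Agent.H30.Mid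

open Pool.Agent.H75.Perc Pool.Agent.H75.TwoArm Pool.Agent.Q1 Pool.Agent.H33.Q1
open Pool.Agent.Q1.M6b.Nest Pool.Agent.H74.R45 Pool.Agent.H13.R45

/-- index of a grid point -/
def ix (O : Finset (ℤ × ℤ)) (x y : ℤ) : ZMod 2 := S O (ve (x, y))

variable {w O Gt : Finset (ℤ × ℤ)} {x y : ℤ}

lemma ix_vertex (h : (x + y) % 2 = 0) : ixv O (gp (x, y)) = ix O x y := by
  unfold ixv ix gp ve
  congr 1
  simp only [Prod.mk.injEq]
  omega

lemma ix_face (h : (x + y) % 2 = 1) : ixf O (gp (x, y)) = ix O x y := by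
  unfold ixf ix gp ve
  congr 1
  simp only [Prod.mk.injEq]
  omega

lemma vx_ve0 (h : (x + y) % 2 = 0) : vx (ve (x, y)) = gp (x, y) ∧ fi (ve (x, y)) = gp (x, y + 1) := by
  unfold vx fi ve gp
  simp only [Prod.mk.injEq, and_true]
  omega

lemma vx_ve1 (h : (x + y) % 2 = 1) : vx (ve (x, y)) = gp (x, y + 1) ∧ fi (ve (x, y)) = gp (x, y) := by
  unfold vx fi ve gp
  simp only [Prod.mk.injEq, true_and]
  omega

lemma vx_he0 (h : (x + y) % 2 = 0) : vx (he (x, y)) = gp (x, y) ∧ fi (he (x, y)) = gp (x + 1, y) := by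
  unfold vx fi he gp
  simp only [Prod.mk.injEq, true_and]
  omega

lemma vx_he1 (h : (x + y) % 2 = 1) : vx (he (x, y)) = gp (x + 1, y) ∧ fi (he (x, y)) = gp (x, y) := by
  unfold vx fi he gp
  simp only [Prod.mk.injEq]
  omega

/-- indices of the two ends of a corner -/
lemma ends_ve : (ixv O (vx (ve (x, y))) = ix O x y ∧ ixf O (fi (ve (x, y))) = ix O x (y + 1)) ∨
    (ixv O (vx (ve (x, y))) = ix O x (y + 1) ∧ ixf O (fi (ve (x, y))) = ix O x y) := by
  rcases Int.emod_two_eq_zero_or_one (x + y) with h | h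
  · left
    rw [(vx_ve0 h).1, (vx_ve0 h).2]
    exact ⟨ix_vertex h, ix_face (by omega)⟩
  · right
    rw [(vx_ve1 h).1, (vx_ve1 h).2]
    exact ⟨ix_vertex (by omega), ix_face h⟩

lemma ends_he : (ixv O (vx (he (x, y))) = ix O x y ∧ ixf O (fi (he (x, y))) = ix O (x + 1) y) ∨
    (ixv O (vx (he (x, y))) = ix O (x + 1) y ∧ ixf O (fi (he (x, y))) = ix O x y) := by
  rcases Int.emod_two_eq_zero_or_one (x + y) with h | h
  · left
    rw [(vx_he0 h).1, (vx_he0 h).2]
    exact ⟨ix_vertex h, ix_face (by omega)⟩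
  · right
    rw [(vx_he1 h).1, (vx_he1 h).2]
    exact ⟨ix_vertex (by omega), ix_face h⟩

/-- across a corner which is not in `O` -/
lemma ix_ve (h : Inv w O) (hc : ve (x, y) ∉ O) : ix O x y = ix O x (y + 1) := by
  have h1 := ix_across h.tile hc
  rcases ends_ve (O := O) (x := x) (y := y) with ⟨h2, h3⟩ | ⟨h2, h3⟩
  · rw [← h2, ← h3, h1]
  · rw [← h2, ← h3, h1]

lemma ix_he (h : Inv w O) (hc : he (x, y) ∉ O) : ix O x y = ix O (x + 1) y := by
  have h1 := ix_across h.tile hc
  rcases ends_he (O := O) (x := x) (y := y) with ⟨h2, h3⟩ | ⟨h2, h3⟩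
  · rw [← h2, ← h3, h1]
  · rw [← h2, ← h3, h1]

/-- both ends of a corner have index zero: the corner is not in `O` -/
lemma not_mem_ve (h : Inv w O) (h1 : ix O x y = 0) (h2 : ix O x (y + 1) = 0) : ve (x, y) ∉ O := by
  intro hc
  have h3 := ix_corner h.tile (ve (x, y))
  unfold A at h3
  rw [if_pos hc] at h3
  rcases ends_ve (O := O) (x := x) (y := y) with ⟨h4, h5⟩ | ⟨h4, h5⟩
  · rw [h4, h5, h1, h2] at h3
    exact absurd h3 (by decide)
  · rw [h4, h5, h1, h2] at h3
    exact absurd h3 (by decide)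

lemma not_mem_he (h : Inv w O) (h1 : ix O x y = 0) (h2 : ix O (x + 1) y = 0) : he (x, y) ∉ O := by
  intro hc
  have h3 := ix_corner h.tile (he (x, y))
  unfold A at h3
  rw [if_pos hc] at h3
  rcases ends_he (O := O) (x := x) (y := y) with ⟨h4, h5⟩ | ⟨h4, h5⟩
  · rw [h4, h5, h1, h2] at h3
    exact absurd h3 (by decide)
  · rw [h4, h5, h1, h2] at h3
    exact absurd h3 (by decide)

/-- the two vertices of an open tile -/
lemma ix_open0 (h : Inv w O) (hw : lt (x, y) ∈ w) (h0 : (x + y) % 2 = 0) :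
    ix O x y = ix O (x + 1) (y + 1) := by
  have h1 := h.ixv_nx (he (x, y))
  rw [(NE h0 hw).1, (vx_ve1 (by omega : (x + 1 + y) % 2 = 1)).1, (vx_he0 h0).1, ix_vertex h0,
    ix_vertex (by omega)] at h1
  exact h1.symm

lemma ix_open1 (h : Inv w O) (hw : lt (x, y) ∈ w) (h0 : (x + y) % 2 = 1) :
    ix O (x + 1) y = ix O x (y + 1) := by
  have h1 := h.ixv_nx (ve (x, y))
  rw [(ES h0 hw).1, (vx_he1 h0).1, (vx_ve1 h0).1, ix_vertex (by omega), ix_vertex (by omega)] at h1
  exact h1

/-- the two faces of a closed tile -/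
lemma ix_clo0 (h : Inv w O) (hw : lt (x, y) ∉ w) (h0 : (x + y) % 2 = 0) :
    ix O (x + 1) y = ix O x (y + 1) := by
  have h1 := h.ixf_nx (he (x, y))
  rw [(NW h0 hw).1, (vx_ve0 h0).2, (vx_he0 h0).2, ix_face (by omega), ix_face (by omega)] at h1
  exact h1.symm

lemma ix_clo1 (h : Inv w O) (hw : lt (x, y) ∉ w) (h0 : (x + y) % 2 = 1) :
    ix O x y = ix O (x + 1) (y + 1) := by
  have h1 := h.ixf_nx (ve (x, y))
  rw [(EN h0 hw).1, (vx_he0 (by omega : (x + (y + 1)) % 2 = 0)).2, (vx_ve1 h0).2,
    ix_face (by omega), ix_face h0] at h1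
  exact h1.symm

/-- **the corners of a tile**: if the vertices of the open tile resp. the faces of the closed tile have
index zero, the vertex resp. the face of every corner `c` with `lab c` = the tile has index zero -/
theorem ix_tile (h : Inv w O) (hv : lt (x, y) ∈ w → ((x + y) % 2 = 0 → ix O x y = 0) ∧
      ((x + y) % 2 = 1 → ix O (x + 1) y = 0))
    (hf : lt (x, y) ∉ w → ((x + y) % 2 = 0 → ix O (x + 1) y = 0) ∧ ((x + y) % 2 = 1 → ix O x y = 0))
    {c : ℤ × ℤ} (hc : lab c = lt (x, y)) :
    (lt (x, y) ∈ w → ixv O (vx c) = 0) ∧ (lt (x, y) ∉ w → ixf O (fi c) = 0) := by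
  rcases Int.emod_two_eq_zero_or_one (x + y) with h0 | h0
  · -- the corners he (x, y), he (x, y + 1)
    have hcc : c = he (x, y) ∨ c = he (x, y + 1) := by
      rcases corner_cases c with ⟨a, b, rfl⟩ | ⟨a, b, rfl⟩
      · rcases Int.emod_two_eq_zero_or_one (a + b) with h1 | h1
        · rw [lab_ve_W h1] at hc
          have := lt_inj hc
          simp only [Prod.mk.injEq] at this
          omega
        · rw [lab_ve_E h1] at hc
          have := lt_inj hc
          simp only [Prod.mk.injEq] at this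
          omega
      · rcases Int.emod_two_eq_zero_or_one (a + b) with h1 | h1
        · rw [lab_he_N h1] at hc
          have := lt_inj hc
          simp only [Prod.mk.injEq] at this
          left; rw [this.1, this.2]
        · rw [lab_he_S h1] at hc
          have := lt_inj hc
          simp only [Prod.mk.injEq] at this
          right; rw [this.1, ← this.2, sub_add_cancel]
    refine ⟨fun hw => ?_, fun hw => ?_⟩
    · have e1 := (hv hw).1 h0
      have e2 := ix_open0 h hw h0
      rcases hcc with rfl | rfl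
      · rw [(vx_he0 h0).1, ix_vertex h0, e1]
      · rw [(vx_he1 (by omega : (x + (y + 1)) % 2 = 1)).1, ix_vertex (by omega), ← e2, e1]
    · have e1 := (hf hw).1 h0
      have e2 := ix_clo0 h hw h0
      rcases hcc with rfl | rfl
      · rw [(vx_he0 h0).2, ix_face (by omega), e1]
      · rw [(vx_he1 (by omega : (x + (y + 1)) % 2 = 1)).2, ix_face (by omega), ← e2, e1]
  · have hcc : c = ve (x, y) ∨ c = ve (x + 1, y) := by
      rcases corner_cases c with ⟨a, b, rfl⟩ | ⟨a, b, rfl⟩
      · rcases Int.emod_two_eq_zero_or_one (a + b) with h1 | h1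
        · rw [lab_ve_W h1] at hc
          have := lt_inj hc
          simp only [Prod.mk.injEq] at this
          right; rw [← this.1, this.2, sub_add_cancel]
        · rw [lab_ve_E h1] at hc
          have := lt_inj hc
          simp only [Prod.mk.injEq] at this
          left; rw [this.1, this.2]
      · rcases Int.emod_two_eq_zero_or_one (a + b) with h1 | h1
        · rw [lab_he_N h1] at hc
          have := lt_inj hc
          simp only [Prod.mk.injEq] at this
          omega
        · rw [lab_he_S h1] at hc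
          have := lt_inj hc
          simp only [Prod.mk.injEq] at this
          omega
    refine ⟨fun hw => ?_, fun hw => ?_⟩
    · have e1 := (hv hw).2 h0
      have e2 := ix_open1 h hw h0
      rcases hcc with rfl | rfl
      · rw [(vx_ve1 h0).1, ix_vertex (by omega), ← e2, e1]
      · rw [(vx_ve0 (by omega : (x + 1 + y) % 2 = 0)).1, ix_vertex (by omega), e1]
    · have e1 := (hf hw).2 h0
      have e2 := ix_clo1 h hw h0
      rcases hcc with rfl | rfl
      · rw [(vx_ve1 h0).2, ix_face h0, e1]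
      · rw [(vx_ve0 (by omega : (x + 1 + y) % 2 = 0)).2, ix_face (by omega), ← e2, e1]

/-! ### Far away -/

/-- far grid points have index zero -/
lemma ix_far (h : Inv w O) : ∃ M : ℤ, ∀ x y : ℤ, (M < |x| ∨ M < |y|) → ix O x y = 0 := by
  classical
  obtain ⟨a, ha⟩ : ∃ a : ℤ, ∀ d ∈ O, |d.1| ≤ a ∧ |d.2| ≤ a := by
    refine ⟨(O.sup fun d => d.1.natAbs + d.2.natAbs : ℕ), fun d hd => ?_⟩
    have h1 : d.1.natAbs + d.2.natAbs ≤ O.sup fun d => d.1.natAbs + d.2.natAbs :=
      Finset.le_sup (f := fun d : ℤ × ℤ => d.1.natAbs + d.2.natAbs) hd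
    constructor
    · have : |d.1| = (d.1.natAbs : ℤ) := Int.abs_eq_natAbs d.1
      omega
    · have : |d.2| = (d.2.natAbs : ℤ) := Int.abs_eq_natAbs d.2
      omega
  refine ⟨|a| + 2, fun x y hxy => ?_⟩
  unfold ix ve
  refine S_out h.tile (a := -a) (b := a) (p := -a) (q := a) (fun d hd => ?_) ?_ ?_
  · have := ha d hd
    rw [abs_le, abs_le] at this
    omega
  · simp only; omega
  · simp only
    have h1 := le_abs_self a
    have h2 := neg_abs_le a
    rw [lt_abs, lt_abs] at hxy
    omega

/-- the face on the vertical line `x` between `y` and `y + 1` -/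
def fr (y x : ℤ) (O : Finset (ℤ × ℤ)) : ZMod 2 := if (x + y) % 2 = 1 then ix O x y else ix O x (y + 1)

/-- the face on the horizontal line `y` between `x` and `x + 1` -/
def fu (x y : ℤ) (O : Finset (ℤ × ℤ)) : ZMod 2 := if (x + y) % 2 = 1 then ix O x y else ix O (x + 1) y

lemma fr_step (h : Inv w O) (hw : lt (x, y) ∉ w) : fr y x O = fr y (x + 1) O := by
  unfold fr
  rcases Int.emod_two_eq_zero_or_one (x + y) with h0 | h0
  · rw [if_neg (by omega), if_pos (by omega)]
    exact (ix_clo0 h hw h0).symm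
  · rw [if_pos h0, if_neg (by omega)]
    exact ix_clo1 h hw h0

lemma fu_step (h : Inv w O) (hw : lt (x, y) ∉ w) : fu x y O = fu x (y + 1) O := by
  unfold fu
  rcases Int.emod_two_eq_zero_or_one (x + y) with h0 | h0
  · rw [if_neg (by omega), if_pos (by omega)]
    exact ix_clo0 h hw h0
  · rw [if_pos h0, if_neg (by omega)]
    exact ix_clo1 h hw h0

lemma fr_far {M : ℤ} (hM : ∀ x y : ℤ, (M < |x| ∨ M < |y|) → ix O x y = 0) (h : M < |x|) :
    fr y x O = 0 := by
  unfold fr
  split_ifs
  · exact hM _ _ (Or.inl h)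
  · exact hM _ _ (Or.inl h)

lemma fu_far {M : ℤ} (hM : ∀ x y : ℤ, (M < |x| ∨ M < |y|) → ix O x y = 0) (h : M < |y|) :
    fu x y O = 0 := by
  unfold fu
  split_ifs
  · exact hM _ _ (Or.inr h)
  · exact hM _ _ (Or.inr h)

/-- a ray of closed tiles to the right -/
theorem ray_r (h : Inv w O) (hw : ∀ x' : ℤ, x ≤ x' → lt (x', y) ∉ w) : fr y x O = 0 := by
  obtain ⟨M, hM⟩ := ix_far h
  have key : ∀ n : ℕ, fr y x O = fr y (x + n) O := by
    intro n
    induction n with
    | zero => simp
    | succ n ih =>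
      rw [ih, fr_step h (hw (x + n) (by omega))]
      push_cast; rw [add_assoc]
  rw [key (M - x + 1).toNat.succ]
  refine fr_far hM ?_
  rw [lt_abs]; left
  push_cast
  omega

theorem ray_l (h : Inv w O) (hw : ∀ x' : ℤ, x' < x → lt (x', y) ∉ w) : fr y x O = 0 := by
  obtain ⟨M, hM⟩ := ix_far h
  have key : ∀ n : ℕ, fr y x O = fr y (x - n) O := by
    intro n
    induction n with
    | zero => simp
    | succ n ih =>
      have h1 := fr_step h (hw (x - (n + 1 : ℕ)) (by push_cast; omega))
      rw [ih, h1]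
      congr 1
      push_cast; ring
  rw [key (x + M + 1).toNat.succ]
  refine fr_far hM ?_
  rw [lt_abs]; right
  push_cast
  omega

theorem ray_u (h : Inv w O) (hw : ∀ y' : ℤ, y ≤ y' → lt (x, y') ∉ w) : fu x y O = 0 := by
  obtain ⟨M, hM⟩ := ix_far h
  have key : ∀ n : ℕ, fu x y O = fu x (y + n) O := by
    intro n
    induction n with
    | zero => simp
    | succ n ih =>
      rw [ih, fu_step h (hw (y + n) (by omega))]
      push_cast; rw [add_assoc]
  rw [key (M - y + 1).toNat.succ]
  refine fu_far hM ?_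
  rw [lt_abs]; left
  push_cast
  omega

theorem ray_d (h : Inv w O) (hw : ∀ y' : ℤ, y' < y → lt (x, y') ∉ w) : fu x y O = 0 := by
  obtain ⟨M, hM⟩ := ix_far h
  have key : ∀ n : ℕ, fu x y O = fu x (y - n) O := by
    intro n
    induction n with
    | zero => simp
    | succ n ih =>
      have h1 := fu_step h (hw (y - (n + 1 : ℕ)) (by push_cast; omega))
      rw [ih, h1]
      congr 1
      push_cast; ring
  rw [key (y + M + 1).toNat.succ]
  refine fu_far hM ?_
  rw [lt_abs]; right
  push_cast
  omega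

lemma fr_odd (h : (x + y) % 2 = 1) : fr y x O = ix O x y := if_pos h
lemma fr_even (h : (x + y) % 2 = 0) : fr y x O = ix O x (y + 1) := if_neg (by omega)
lemma fu_odd (h : (x + y) % 2 = 1) : fu x y O = ix O x y := if_pos h
lemma fu_even (h : (x + y) % 2 = 0) : fu x y O = ix O (x + 1) y := if_neg (by omega)

end Pool.Agent.H30.Mid
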