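import Mathlib
import Pool.Agent.H30.Mid.Gix

set_option autoImplicit false
open Finset

/-! # Index zero on the walls of the glued rectangle

`Cfg` : what is open and closed outside the rectangle `[0, w) × [-1, h - 1)`; `GtX` : the gates. A union
`O` of closed strands which contains no gate has index zero at all points of the walls. -/

namespace Pool.Agent.H30.Mid

open Pool.Agent.H75.Perc Pool.Agent.H75.TwoArm Pool.Agent.Q1 Pool.Agent.H33.Q1
open Pool.Agent.Q1.M6b.Nest Pool.Agent.H74.R45 Pool.Agent.H13.R45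

variable {w h j x y : ℤ} {t W' O : Finset (ℤ × ℤ)}

/-- the labels outside the rectangle in the glued configuration `W'`; `t` : the open ties before gluing -/
structure Cfg (w h j : ℤ) (t W' : Finset (ℤ × ℤ)) : Prop where
  w2 : w % 2 = 0
  hw : 2 ≤ w
  h2 : h % 2 = 0
  j2 : j % 2 = 0
  g0 : 0 < j
  g1 : j < h
  out : ∀ x y : ℤ, (x < -2 ∨ w + 2 ≤ x ∨ y ≤ -2 ∨ h ≤ y) → lt (x, y) ∉ W'
  l2 : ∀ y : ℤ, -1 ≤ y → y < j - 1 → lt (-2, y) ∈ W'
  l1 : ∀ y : ℤ, -1 ≤ y → y < j - 1 → lt (-1, y) ∈ W'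
  r2 : ∀ y : ℤ, -1 ≤ y → y < j - 1 → lt (w + 1, y) ∈ W'
  r1 : ∀ y : ℤ, -1 ≤ y → y < j - 1 → (y % 2 = 0 ∨ lt (w, y) ∉ t) → lt (w, y) ∉ W'
  top : ∀ x : ℤ, -2 ≤ x → x < w + 2 → lt (x, h - 1) ∈ W'
  ul2 : ∀ y : ℤ, j - 1 ≤ y → y < h - 1 → lt (-2, y) ∉ W'
  ur : ∀ y : ℤ, j - 1 ≤ y → y < h - 1 → lt (w, y) ∉ W' ∧ lt (w + 1, y) ∉ W'
  ul1e : ∀ y : ℤ, j - 1 ≤ y → y < h - 2 → y % 2 = 0 → lt (-1, y) ∈ W'
  ul1o : ∀ y : ℤ, j ≤ y → y < h - 1 → y % 2 = 1 → lt (-1, y + 1) ∉ t → lt (-1, y) ∈ W'

/-- positions of the ties -/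
def Tp (w h j : ℤ) (p : ℤ × ℤ) : Prop :=
  (p.1 = -1 ∧ j < p.2 ∧ p.2 < h ∧ p.2 % 2 = 0) ∨ (p.1 = w ∧ -1 ≤ p.2 ∧ p.2 < j - 1 ∧ p.2 % 2 = 1)

/-- the gate of a tie -/
def gt (e : ℤ × ℤ) : ℤ × ℤ :=
  if (tt e).1 = -1 then ve (-1, (tt e).2) else ve ((tt e).1 + 1, (tt e).2)

open Classical in
/-- the gates -/
noncomputable def GtX (w h j : ℤ) (t : Finset (ℤ × ℤ)) : Finset (ℤ × ℤ) :=
  {ve (-1, -2), ve (0, h), ve (w + 1, -2), ve (-1, j)} ∪
    (t.filter fun e => Tp w h j (tt e)).image gt

lemma card_GtX {A : Finset (ℤ × ℤ)} (hA : ∀ e ∈ t, Tp w h j (tt e) → e ∈ A) :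
    (GtX w h j t).card ≤ 4 + A.card := by
  classical
  unfold GtX
  refine (card_union_le _ _).trans (Nat.add_le_add ?_ ?_)
  · refine (card_insert_le _ _).trans ?_
    refine Nat.succ_le_succ ((card_insert_le _ _).trans ?_)
    refine Nat.succ_le_succ ((card_insert_le _ _).trans ?_)
    rw [card_singleton]
  · refine card_image_le.trans (card_le_card ?_)
    intro e he
    rw [mem_filter] at he
    exact hA e he.1 he.2

lemma gt_A : ve (-1, -2) ∈ GtX w h j t := by
  unfold GtX; exact mem_union_left _ (by simp)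

lemma gt_C : ve (0, h) ∈ GtX w h j t := by
  unfold GtX; exact mem_union_left _ (by simp)

lemma gt_E : ve (w + 1, -2) ∈ GtX w h j t := by
  unfold GtX; exact mem_union_left _ (by simp)

lemma gt_J : ve (-1, j) ∈ GtX w h j t := by
  unfold GtX; exact mem_union_left _ (by simp)

lemma gt_L (h1 : lt (-1, y) ∈ t) (h2 : j < y) (h3 : y < h) (h4 : y % 2 = 0) :
    ve (-1, y) ∈ GtX w h j t := by
  classical
  unfold GtX
  refine mem_union_right _ (mem_image.2 ⟨lt (-1, y), mem_filter.2 ⟨h1, ?_⟩, ?_⟩)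
  · rw [tt_lt]; left; exact ⟨rfl, h2, h3, h4⟩
  · unfold gt; rw [tt_lt, if_pos rfl]

lemma gt_R (hw : 0 ≤ w) (h1 : lt (w, y) ∈ t) (h2 : -1 ≤ y) (h3 : y < j - 1) (h4 : y % 2 = 1) :
    ve (w + 1, y) ∈ GtX w h j t := by
  classical
  unfold GtX
  refine mem_union_right _ (mem_image.2 ⟨lt (w, y), mem_filter.2 ⟨h1, ?_⟩, ?_⟩)
  · rw [tt_lt]; right; exact ⟨rfl, h2, h3, h4⟩
  · unfold gt; rw [tt_lt, if_neg (by simp only; omega)]

section

variable (C : Cfg w h j t W') (hO : Inv W' O) (hg : ∀ g ∈ GtX w h j t, g ∉ O)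

include C hO hg

/-- the left wall below the row -/
lemma z_la (n : ℕ) : 2 * (n : ℤ) ≤ j → ix O (-1) (2 * n - 1) = 0 := by
  induction n with
  | zero =>
    intro _
    have e1 : fu (-1) (-2) O = 0 := ray_d hO fun y' hy' => C.out _ _ (by omega)
    rw [fu_odd (by norm_num)] at e1
    have e2 := ix_ve hO (hg _ gt_A)
    rw [e1] at e2
    simpa using e2.symm
  | succ n ih =>
    intro hn
    push_cast at hn
    have e0 := ih (by omega)
    have e1 := ix_open0 hO (C.l1 (2 * n - 1) (by omega) (by omega)) (by omega)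
    have e2 := ix_open1 hO (C.l1 (2 * n) (by omega) (by omega)) (by omega)
    rw [e0] at e1
    rw [show (2 * (n : ℤ) - 1 + 1) = 2 * n by ring] at e1
    push_cast
    rw [show 2 * ((n : ℤ) + 1) - 1 = 2 * n + 1 by ring, ← e2]
    exact e1.symm

lemma z_l1 (h1 : -1 ≤ y) (h2 : y ≤ j - 1) (h3 : y % 2 = 1) : ix O (-1) y = 0 := by
  have := z_la C hO hg ((y + 1) / 2).toNat (by omega)
  rwa [show 2 * ((((y + 1) / 2).toNat : ℕ) : ℤ) - 1 = y by omega] at this

lemma z_l0 (h1 : 0 ≤ y) (h2 : y ≤ j - 1) (h3 : y % 2 = 0) : ix O 0 y = 0 ∧ ix O (-2) y = 0 := by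
  have e0 := z_l1 C hO hg (y := y - 1) (by omega) (by omega) (by omega)
  have e1 := ix_open0 hO (C.l1 (y - 1) (by omega) (by omega)) (by omega)
  have e2 := ix_open1 hO (C.l2 (y - 1) (by omega) (by omega)) (by omega)
  rw [e0, sub_add_cancel] at e1
  norm_num at e2
  rw [e0] at e2
  exact ⟨e1.symm, e2.symm⟩

/-- the ceiling -/
lemma z_ta (n : ℕ) : 2 * (n : ℤ) ≤ w + 2 → ix O (2 * n) h = 0 := by
  induction n with
  | zero =>
    intro _
    have e1 : fu 0 (h + 1) O = 0 := ray_u hO fun y' hy' => C.out _ _ (by omega)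
    rw [fu_odd (by have := C.h2; omega)] at e1
    have e2 := ix_ve hO (hg _ gt_C)
    rw [e1] at e2
    simpa using e2
  | succ n ih =>
    intro hn
    push_cast at hn
    have h2 := C.h2
    have e0 := ih (by omega)
    have e1 := ix_open1 hO (C.top (2 * n) (by omega) (by omega)) (by omega)
    have e2 := ix_open0 hO (C.top (2 * n + 1) (by omega) (by omega)) (by omega)
    rw [sub_add_cancel] at e1 e2
    rw [e0] at e1
    rw [e1] at e2
    push_cast
    rw [show 2 * ((n : ℤ) + 1) = 2 * n + 1 + 1 by ring]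
    exact e2.symm

lemma z_t0 (h1 : 0 ≤ x) (h2 : x ≤ w + 2) (h3 : x % 2 = 0) : ix O x h = 0 := by
  have := z_ta C hO hg (x / 2).toNat (by omega)
  rwa [show 2 * (((x / 2).toNat : ℕ) : ℤ) = x by omega] at this

lemma z_t1 (h1 : -1 ≤ x) (h2 : x ≤ w + 1) (h3 : x % 2 = 1) : ix O x (h - 1) = 0 := by
  have hh := C.h2
  have e1 := ix_open0 hO (C.top x (by omega) (by omega)) (by omega)
  rw [sub_add_cancel, z_t0 C hO hg (by omega) (by omega) (by omega)] at e1
  exact e1

omit hg in
/-- faces to the left of the upper part -/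
lemma z_ulf (h1 : x ≤ -1) (h2 : j - 1 ≤ y) (h3 : y ≤ h) (h4 : (x + y) % 2 = 1) : ix O x y = 0 := by
  have hh := C.h2
  rw [← fr_odd h4]
  refine ray_l hO fun x' hx' => ?_
  rcases lt_or_ge x' (-2) with h5 | h5
  · exact C.out _ _ (by omega)
  · have e : x' = -2 := by omega
    subst e
    have e' : x = -1 := by omega
    subst e'
    rcases eq_or_lt_of_le h3 with h6 | h6
    · exact C.out _ _ (by omega)
    · exact C.ul2 y h2 (by omega)

/-- the left wall above the row -/
lemma z_ua (n : ℕ) : j - 1 + 2 * (n : ℤ) ≤ h - 1 → ix O (-1) (j - 1 + 2 * n) = 0 := by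
  have hh := C.h2
  have hj := C.j2
  have g0 := C.g0
  have g1 := C.g1
  have hw := C.hw
  induction n with
  | zero =>
    intro _
    have := z_l1 C hO hg (y := j - 1) (by omega) (by omega) (by omega)
    simpa using this
  | succ n ih =>
    intro hn
    push_cast at hn ⊢
    have e0 := ih (by omega)
    rw [show j - 1 + 2 * ((n : ℤ) + 1) = j + 2 * n + 1 by ring]
    have eF := z_ulf C hO (x := -1) (y := j + 2 * n) (by omega) (by omega) (by omega) (by omega)
    by_cases hgt : ve (-1, j + 2 * (n : ℤ)) ∈ GtX w h j t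
    · rw [← ix_ve hO (hg _ hgt)]
      exact eF
    · by_cases hT : j + 2 * (n : ℤ) = h - 2
      · rw [hT, show h - 2 + 1 = h - 1 by ring]
        exact z_t1 C hO hg (by omega) (by omega) (by omega)
      · have hn0 : 0 < (n : ℤ) := by
          by_contra h5
          have h6 : (n : ℤ) = 0 := by omega
          rw [h6, mul_zero, add_zero] at hgt
          exact hgt gt_J
        have o1 : lt (-1, j - 1 + 2 * (n : ℤ)) ∈ W' := by
          refine C.ul1o _ (by omega) (by omega) (by omega) fun h5 => hgt ?_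
          rw [show j - 1 + 2 * (n : ℤ) + 1 = j + 2 * n by ring] at h5
          exact gt_L h5 (by omega) (by omega) (by omega)
        have o2 : lt (-1, j + 2 * (n : ℤ)) ∈ W' := C.ul1e _ (by omega) (by omega) (by omega)
        have e1 := ix_open0 hO o1 (by omega)
        have e2 := ix_open1 hO o2 (by omega)
        rw [e0, show j - 1 + 2 * (n : ℤ) + 1 = j + 2 * n by ring] at e1
        rw [← e2]
        exact e1.symm

lemma z_u1 (h1 : j - 1 ≤ y) (h2 : y ≤ h - 1) (h3 : y % 2 = 1) : ix O (-1) y = 0 := by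
  have hj := C.j2
  have := z_ua C hO hg ((y - (j - 1)) / 2).toNat (by omega)
  rwa [show j - 1 + 2 * ((((y - (j - 1)) / 2).toNat : ℕ) : ℤ) = y by omega] at this

/-- the right wall below the row, second layer -/
lemma z_ra (n : ℕ) : 2 * (n : ℤ) ≤ j → ix O (w + 1) (2 * n - 1) = 0 := by
  have hw2 := C.w2
  have hw := C.hw
  induction n with
  | zero =>
    intro _
    have e1 : fu (w + 1) (-2) O = 0 := ray_d hO fun y' hy' => C.out _ _ (by omega)
    rw [fu_odd (by omega)] at e1
    have e2 := ix_ve hO (hg _ gt_E)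
    rw [e1] at e2
    simpa using e2.symm
  | succ n ih =>
    intro hn
    push_cast at hn
    have e0 := ih (by omega)
    have e1 := ix_open0 hO (C.r2 (2 * n - 1) (by omega) (by omega)) (by omega)
    have e2 := ix_open1 hO (C.r2 (2 * n) (by omega) (by omega)) (by omega)
    rw [e0] at e1
    rw [show (2 * (n : ℤ) - 1 + 1) = 2 * n by ring] at e1
    push_cast
    rw [show 2 * ((n : ℤ) + 1) - 1 = 2 * n + 1 by ring, ← e2]
    exact e1.symm

lemma z_r1 (h1 : -1 ≤ y) (h2 : y ≤ j - 1) (h3 : y % 2 = 1) : ix O (w + 1) y = 0 := by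
  have := z_ra C hO hg ((y + 1) / 2).toNat (by omega)
  rwa [show 2 * ((((y + 1) / 2).toNat : ℕ) : ℤ) - 1 = y by omega] at this

lemma z_r0 (h1 : 0 ≤ y) (h2 : y ≤ j - 1) (h3 : y % 2 = 0) : ix O (w + 2) y = 0 := by
  have hw2 := C.w2
  have e0 := z_r1 C hO hg (y := y - 1) (by omega) (by omega) (by omega)
  have e1 := ix_open0 hO (C.r2 (y - 1) (by omega) (by omega)) (by omega)
  rw [e0, sub_add_cancel, add_assoc] at e1
  exact e1.symm

/-- the right wall below the row, faces of the first layer -/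
lemma z_fa (n : ℕ) : 2 * (n : ℤ) ≤ j → ix O w (2 * n - 1) = 0 ∧
    (0 < (n : ℤ) → ix O (w + 1) (2 * n - 2) = 0) := by
  have hw2 := C.w2
  have hw := C.hw
  induction n with
  | zero =>
    intro _
    have e1 : fu w (-1) O = 0 := ray_d hO fun y' hy' => C.out _ _ (by omega)
    rw [fu_odd (by omega)] at e1
    refine ⟨by simpa using e1, fun h5 => absurd h5 (by simp)⟩
  | succ n ih =>
    intro hn
    push_cast at hn
    obtain ⟨e0, -⟩ := ih (by omega)
    have e3 : ix O (w + 1) (2 * n) = 0 := by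
      by_cases hT : lt (w, 2 * (n : ℤ) - 1) ∈ t
      · have hgt : ve (w + 1, 2 * (n : ℤ) - 1) ∈ GtX w h j t :=
          gt_R (by omega) hT (by omega) (by omega) (by omega)
        have e1 := ix_ve hO (hg _ hgt)
        rw [sub_add_cancel] at e1
        rw [← e1]
        exact z_ra C hO hg n (by omega)
      · have e1 := ix_clo1 hO (C.r1 (2 * n - 1) (by omega) (by omega) (Or.inr hT)) (by omega)
        rw [sub_add_cancel] at e1
        rw [← e1, e0]
    have e4 := ix_clo0 hO (C.r1 (2 * n) (by omega) (by omega) (Or.inl (by omega))) (by omega)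
    push_cast
    rw [show 2 * ((n : ℤ) + 1) - 1 = 2 * n + 1 by ring, show 2 * ((n : ℤ) + 1) - 2 = 2 * n by ring]
    exact ⟨e4.symm.trans e3, fun _ => e3⟩

lemma z_f1 (h1 : -1 ≤ y) (h2 : y ≤ j - 1) (h3 : y % 2 = 1) : ix O w y = 0 := by
  have := (z_fa C hO hg ((y + 1) / 2).toNat (by omega)).1
  rwa [show 2 * ((((y + 1) / 2).toNat : ℕ) : ℤ) - 1 = y by omega] at this

lemma z_f0 (h1 : 0 ≤ y) (h2 : y ≤ j - 1) (h3 : y % 2 = 0) : ix O (w + 1) y = 0 := by
  have hj := C.j2
  have := (z_fa C hO hg ((y + 2) / 2).toNat (by omega)).2 (by omega)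
  rwa [show 2 * ((((y + 2) / 2).toNat : ℕ) : ℤ) - 2 = y by omega] at this

omit hg in
/-- faces to the right of the lower part -/
lemma z_rf (h1 : w + 2 ≤ x) (h4 : (x + y) % 2 = 1) : ix O x y = 0 := by
  rw [← fr_odd h4]
  exact ray_r hO fun x' hx' => C.out _ _ (by omega)

omit hg in
/-- faces to the right of the upper part -/
lemma z_urf (h1 : w ≤ x) (h2 : j - 1 ≤ y) (h3 : y < h - 1) (h4 : (x + y) % 2 = 1) :
    ix O x y = 0 := by
  rw [← fr_odd h4]
  refine ray_r hO fun x' hx' => ?_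
  rcases lt_or_ge x' (w + 2) with h5 | h5
  · have e := C.ur y h2 h3
    rcases eq_or_lt_of_le (h1.trans hx') with h6 | h6
    · rw [← h6]; exact e.1
    · have h7 : x' = w + 1 := by omega
      rw [h7]; exact e.2
  · exact C.out _ _ (by omega)

/-- **The corners of the labels outside the rectangle.** -/
theorem z_tile {c : ℤ × ℤ} (hr : ¬ (0 ≤ x ∧ x < w ∧ -1 ≤ y ∧ y < h - 1)) (hc : lab c = lt (x, y)) :
    (lt (x, y) ∈ W' → ixv O (vx c) = 0) ∧ (lt (x, y) ∉ W' → ixf O (fi c) = 0) := by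
  have hw2 := C.w2
  have hw := C.hw
  have hh2 := C.h2
  have hj2 := C.j2
  have g0 := C.g0
  have g1 := C.g1
  rcases lt_or_ge x (-2) with a1 | a1
  · -- left of the frame
    have hn : lt (x, y) ∉ W' := C.out _ _ (by omega)
    refine ix_tile hO (fun h => absurd h hn) (fun _ => ⟨fun h => ?_, fun h => ?_⟩) hc
    · rw [← fr_odd (by omega)]
      exact ray_l hO fun x' hx' => C.out _ _ (by omega)
    · rw [← fr_odd (by omega)]
      exact ray_l hO fun x' hx' => C.out _ _ (by omega)
  rcases le_or_gt (w + 2) x with a2 | a2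
  · have hn : lt (x, y) ∉ W' := C.out _ _ (by omega)
    refine ix_tile hO (fun h => absurd h hn) (fun _ => ⟨fun h => ?_, fun h => ?_⟩) hc
    · exact z_rf C hO (by omega) (by omega)
    · exact z_rf C hO (by omega) (by omega)
  rcases le_or_gt y (-2) with a3 | a3
  · have hn : lt (x, y) ∉ W' := C.out _ _ (by omega)
    refine ix_tile hO (fun h => absurd h hn) (fun _ => ⟨fun h => ?_, fun h => ?_⟩) hc
    · rw [← fu_even h]
      exact ray_d hO fun y' hy' => C.out _ _ (by omega)
    · rw [← fu_odd h]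
      exact ray_d hO fun y' hy' => C.out _ _ (by omega)
  rcases le_or_gt h y with a4 | a4
  · have hn : lt (x, y) ∉ W' := C.out _ _ (by omega)
    refine ix_tile hO (fun h => absurd h hn) (fun _ => ⟨fun h => ?_, fun h => ?_⟩) hc
    · rw [← fu_even h]
      exact ray_u hO fun y' hy' => C.out _ _ (by omega)
    · rw [← fu_odd h]
      exact ray_u hO fun y' hy' => C.out _ _ (by omega)
  rcases eq_or_ne y (h - 1) with a5 | a5
  · subst a5
    have hn := C.top x a1 a2
    refine ix_tile hO (fun _ => ⟨fun h => ?_, fun h => ?_⟩) (fun h => absurd hn h) hc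
    · exact z_t1 C hO hg (by omega) (by omega) (by omega)
    · exact z_t1 C hO hg (by omega) (by omega) (by omega)
  rcases lt_or_ge y (j - 1) with b | b
  · -- lower part
    have hx : x = -2 ∨ x = -1 ∨ x = w ∨ x = w + 1 := by omega
    rcases hx with rfl | rfl | rfl | rfl
    · have hn := C.l2 y (by omega) b
      refine ix_tile hO (fun _ => ⟨fun h => ?_, fun h => ?_⟩) (fun h => absurd hn h) hc
      · exact (z_l0 C hO hg (by omega) (by omega) (by omega)).2
      · exact z_l1 C hO hg (by omega) (by omega) (by omega)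
    · have hn := C.l1 y (by omega) b
      refine ix_tile hO (fun _ => ⟨fun h => ?_, fun h => ?_⟩) (fun h => absurd hn h) hc
      · exact z_l1 C hO hg (by omega) (by omega) (by omega)
      · exact (z_l0 C hO hg (by omega) (by omega) (by omega)).1
    · refine ix_tile hO (fun hn => ⟨fun h => ?_, fun h => ?_⟩) (fun _ => ⟨fun h => ?_, fun h => ?_⟩) hc
      · exact absurd hn (C.r1 y (by omega) b (Or.inl (by omega)))
      · exact z_r1 C hO hg (by omega) (by omega) (by omega)
      · exact z_f0 C hO hg (by omega) (by omega) (by omega)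
      · exact z_f1 C hO hg (by omega) (by omega) (by omega)
    · have hn := C.r2 y (by omega) b
      refine ix_tile hO (fun _ => ⟨fun h => ?_, fun h => ?_⟩) (fun h => absurd hn h) hc
      · exact z_r1 C hO hg (by omega) (by omega) (by omega)
      · rw [add_assoc]
        exact z_r0 C hO hg (by omega) (by omega) (by omega)
  · have hx : x = -2 ∨ x = -1 ∨ x = w ∨ x = w + 1 := by omega
    rcases hx with rfl | rfl | rfl | rfl
    · have hn := C.ul2 y b (by omega)
      refine ix_tile hO (fun h => absurd h hn) (fun _ => ⟨fun h => ?_, fun h => ?_⟩) hc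
      · exact z_ulf C hO (by omega) b (by omega) (by omega)
      · exact z_ulf C hO (by omega) b (by omega) (by omega)
    · refine ix_tile hO (fun hn => ⟨fun h => ?_, fun h => ?_⟩) (fun hn => ⟨fun h => ?_, fun h => ?_⟩) hc
      · exact z_u1 C hO hg b (by omega) (by omega)
      · rw [ix_open1 hO hn h]
        exact z_u1 C hO hg (by omega) (by omega) (by omega)
      · rw [ix_clo0 hO hn h]
        exact z_ulf C hO (by omega) (by omega) (by omega) (by omega)
      · exact z_ulf C hO (by omega) b (by omega) (by omega)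
    · have hn := (C.ur y b (by omega)).1
      refine ix_tile hO (fun h => absurd h hn) (fun _ => ⟨fun h => ?_, fun h => ?_⟩) hc
      · exact z_urf C hO (by omega) b (by omega) (by omega)
      · exact z_urf C hO (by omega) b (by omega) (by omega)
    · have hn := (C.ur y b (by omega)).2
      refine ix_tile hO (fun h => absurd h hn) (fun _ => ⟨fun h => ?_, fun h => ?_⟩) hc
      · exact z_urf C hO (by omega) b (by omega) (by omega)
      · exact z_urf C hO (by omega) b (by omega) (by omega)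

end

end Pool.Agent.H30.Mid
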