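import Mathlib
import Pool.Agent.H30.Mid.Zix
import Pool.Agent.H81.G1.Glu

set_option autoImplicit false
open Finset

/-! # The hypotheses `hK`, `hW` of `count_loops` for the glued configuration of `XF`

`KvX`, `KfX` : vertices and faces at which all closed strands around `v` without gates have index zero. -/

namespace Pool.Agent.H30.Mid

open Pool.Agent.H75.Perc Pool.Agent.H75.TwoArm Pool.Agent.Q1 Pool.Agent.H81.G1
open Pool.Agent.H69.M6b (lbt lbt_inj lbt_odd)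
open Pool.Agent.Q1.M6b.Gl Pool.Agent.Q1.M6b.Nest
open Pool.Agent.H74.R45 Pool.Agent.H13.R45 Pool.Agent.H33.Q1

variable {w h j x y : ℤ} {N : ℕ} {B t ω W' Gt : Finset (ℤ × ℤ)} {v : ℤ × ℤ}

/-! ### The frozen open labels near the rectangle -/

/-- labels of the first layer which stay random in the tied form -/
def WL (w h j x y : ℤ) : Prop := (x = -1 ∧ j ≤ y ∧ y < h ∧ (y % 2 = 0 ∨ y = h - 1)) ∨
  (x = w ∧ -1 ≤ y ∧ y < j - 1 ∧ y % 2 = 1)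

/-- the walls of the rectangle -/
def WW (w h j x y : ℤ) : Prop := (x = -1 ∧ -1 ≤ y ∧ y < j - 1) ∨ (x = w ∧ j - 1 ≤ y ∧ y < h) ∨
  (x = -2 ∧ -1 ≤ y ∧ y < h) ∨ (x = w + 1 ∧ -1 ≤ y ∧ y < h)

lemma mem_ET' (O : Out w h) (h0 : 0 < j) (h1 : j < h) (j2 : j % 2 = 0) :
    lt (x, y) ∈ ET w h j ↔ (0 ≤ x ∧ x < w ∧ -1 ≤ y ∧ y < h) ∨ WL w h j x y := by
  have hw := O.hw
  have w2 := O.w2
  have h2 := O.h2
  rw [Pool.Agent.H13.R45.mem_ET (by omega) w2 h2 (by omega) (by omega) j2, mem_EJ]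
  unfold WL
  constructor
  · rintro ⟨h3 | h3 | h3, h4⟩
    · exact Or.inl h3
    · right; left
      refine ⟨h3.1, h3.2.1, h3.2.2, ?_⟩
      by_contra h5
      exact h4 (Or.inl ⟨h3.1, by omega, by omega, by omega⟩)
    · right; right
      refine ⟨h3.1, h3.2.1, h3.2.2, ?_⟩
      by_contra h5
      exact h4 (Or.inr (Or.inl ⟨h3.1, by omega, by omega, by omega⟩))
  · rintro (h3 | h3 | h3)
    · exact ⟨Or.inl h3, by omega⟩
    · exact ⟨Or.inr (Or.inl ⟨h3.1, h3.2.1, h3.2.2.1⟩), by omega⟩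
    · exact ⟨Or.inr (Or.inr ⟨h3.1, h3.2.1, h3.2.2.1⟩), by omega⟩

lemma mem_EF' (hN : (N : ℤ) = w) (h0 : 0 < j) (h1 : j < h) :
    lt (x, y) ∈ EF N w h j B ↔ (0 ≤ x ∧ x < w ∧ -1 ≤ y ∧ y < h) ∧ (y ≠ j - 1 → lt (x, y) ∉ B) := by
  unfold EF
  rw [mem_union, mem_union, ← lbt_lt, mem_BL, mem_BU, mem_RSx hN, lbt_lt]
  constructor
  · rintro ((h3 | h3) | h3)
    · exact ⟨by omega, fun _ => h3.2⟩
    · exact ⟨by omega, fun _ => h3.2⟩
    · exact ⟨by omega, fun h4 => absurd h3.2.2 h4⟩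
  · rintro ⟨h3, h4⟩
    rcases lt_trichotomy y (j - 1) with h5 | h5 | h5
    · exact Or.inl (Or.inl ⟨by omega, h4 (by omega)⟩)
    · exact Or.inr (by omega)
    · exact Or.inl (Or.inr ⟨by omega, h4 (by omega)⟩)

/-- **The frozen open labels near the rectangle.** -/
theorem mem_WF (O : Out w h) (h0 : 0 ≤ j) (h1 : j ≤ h) (j2 : j % 2 = 0) (hN : (N : ℤ) = w)
    (g0 : 0 < j) (g1 : j < h) (a1 : -2 ≤ x) (a2 : x < w + 2) (a3 : -2 ≤ y) (a4 : y ≤ h) :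
    lt (x, y) ∈ WF O h0 h1 j2 N B t ↔ WW w h j x y ∨ (lt (x, y) ∈ t ∧ (WL w h j x y ∨
      ((0 ≤ x ∧ x < w ∧ -1 ≤ y ∧ y < h) ∧ y ≠ j - 1 ∧ lt (x, y) ∈ B))) := by
  have hw := O.hw
  have w2 := O.w2
  have h2 := O.h2
  have hf := O.far x y
  unfold WF fW WT WJ
  rw [mem_union, mem_union, mem_union, mem_inter, mem_sdiff, XT_E, Pool.Agent.H74.R45.mem_WR,
    mem_OT (by omega) w2 h2 h0 h1 j2, mem_ET' O g0 g1 j2, mem_EF' hN g0 g1]
  constructor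
  · rintro (((h3 | h3) | h3) | h3)
    · exact Or.inl h3
    · exact absurd ⟨a1, a2, a3, a4⟩ (hf h3)
    · omega
    · right
      refine ⟨h3.1, ?_⟩
      rcases h3.2.1 with h4 | h4
      · right
        refine ⟨h4, ?_⟩
        have h5 := h3.2.2
        rw [not_and] at h5
        have h6 := h5 h4
        rw [Classical.not_imp, not_not] at h6
        exact h6
      · exact Or.inl h4
  · rintro (h3 | h3)
    · exact Or.inl (Or.inl (Or.inl h3))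
    · right
      refine ⟨h3.1, ?_⟩
      rcases h3.2 with h4 | h4
      · refine ⟨Or.inr h4, fun h5 => ?_⟩
        unfold WL at h4
        omega
      · exact ⟨Or.inl h4.1, fun h5 => h5.2 h4.2.1 h4.2.2⟩

/-- outside the rectangle -/
lemma mem_WF_out (O : Out w h) (h0 : 0 ≤ j) (h1 : j ≤ h) (j2 : j % 2 = 0) (hN : (N : ℤ) = w)
    (g0 : 0 < j) (g1 : j < h) (a1 : -2 ≤ x) (a2 : x < w + 2) (a3 : -2 ≤ y) (a4 : y ≤ h)
    (hx : x < 0 ∨ w ≤ x) : lt (x, y) ∈ WF O h0 h1 j2 N B t ↔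
      WW w h j x y ∨ (lt (x, y) ∈ t ∧ WL w h j x y) := by
  rw [mem_WF O h0 h1 j2 hN g0 g1 a1 a2 a3 a4]
  constructor
  · rintro (h3 | ⟨h3, h4 | h4⟩)
    · exact Or.inl h3
    · exact Or.inr ⟨h3, h4⟩
    · omega
  · rintro (h3 | ⟨h3, h4⟩)
    · exact Or.inl h3
    · exact Or.inr ⟨h3, Or.inl h4⟩

/-! ### The glued configuration -/

section

variable (O : Out w h) (h0 : 0 ≤ j) (h1 : j ≤ h) (j2 : j % 2 = 0)

/-- the glued configuration -/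
noncomputable def WX (N : ℕ) (B t ω : Finset (ℤ × ℤ)) : Finset (ℤ × ℤ) :=
  ω ∪ WGl w h j (WF O h0 h1 j2 N B t) (BU w h j B)

lemma not_BU (hx : ¬ (0 ≤ x ∧ x < w ∧ j ≤ y ∧ y < h)) : lt (x, y) ∉ BU w h j B := by
  intro hh
  rw [← lbt_lt, mem_BU] at hh
  exact hx hh.1

/-- labels of the glued configuration outside the rectangle, lower part -/
lemma mem_WX_lo
    (hω : ω ⊆ gE (BL w j B) (BU w h j B) (1, -1)) (a1 : -2 ≤ x) (a2 : x < w + 2) (a3 : -2 ≤ y)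
    (a4 : y < j - 1) (hx : x < 0 ∨ w ≤ x ∨ y = -2) :
    lt (x, y) ∈ WX O h0 h1 j2 N B t ω ↔ lt (x, y) ∈ WF O h0 h1 j2 N B t := by
  unfold WX
  rw [mem_union, ← lbt_lt, mem_WGl]
  constructor
  · rintro (h3 | h3 | h3)
    · have h4 := hω h3
      rw [mem_gE, mem_BL, mem_BU] at h4
      omega
    · exact h3.1
    · omega
  · intro h3
    exact Or.inr (Or.inl ⟨h3, a1, a2, a3, a4⟩)

/-- labels of the glued configuration outside the rectangle, upper part -/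
lemma mem_WX_up
    (hω : ω ⊆ gE (BL w j B) (BU w h j B) (1, -1)) (a1 : -2 ≤ x) (a2 : x < w + 2) (a3 : j - 1 ≤ y)
    (a4 : y < h) (hx : x < 0 ∨ w ≤ x ∨ y = h - 1) :
    lt (x, y) ∈ WX O h0 h1 j2 N B t ω ↔ lt (x, y + 1) ∉ WF O h0 h1 j2 N B t := by
  have hn : lt (x, y + 1) ∉ BU w h j B := not_BU (by omega)
  unfold WX
  rw [mem_union, ← lbt_lt, mem_WGl, lbt_lt, lbt_lt]
  constructor
  · rintro (h3 | h3 | h3)
    · have h4 := hω h3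
      rw [← lbt_lt, mem_gE, mem_BL, mem_BU] at h4
      omega
    · omega
    · exact h3.2.1
  · intro h3
    exact Or.inr (Or.inr ⟨⟨a1, a2, a3, a4⟩, h3, hn⟩)

lemma not_WX (hω : ω ⊆ gE (BL w j B) (BU w h j B) (1, -1)) (hj : 0 < j) (hjh : j < h)
    (hx : x < -2 ∨ w + 2 ≤ x ∨ y < -2 ∨ h ≤ y) : lt (x, y) ∉ WX O h0 h1 j2 N B t ω := by
  unfold WX
  rw [mem_union, ← lbt_lt, mem_WGl]
  rintro (h3 | h3 | h3)
  · have h4 := hω h3
    rw [mem_gE, mem_BL, mem_BU] at h4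
    omega
  · omega
  · omega

/-- **The labels outside the rectangle.** -/
theorem cfg_WX (hN : (N : ℤ) = w) (g0 : 0 < j) (g1 : j < h)
    (hω : ω ⊆ gE (BL w j B) (BU w h j B) (1, -1)) : Cfg w h j t (WX O h0 h1 j2 N B t ω) := by
  have hw := O.hw
  have w2 := O.w2
  have h2 := O.h2
  have lo : ∀ x y : ℤ, -2 ≤ x → x < w + 2 → -2 ≤ y → y < j - 1 → (x < 0 ∨ w ≤ x) →
      (lt (x, y) ∈ WX O h0 h1 j2 N B t ω ↔ WW w h j x y ∨ (lt (x, y) ∈ t ∧ WL w h j x y)) := by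
    intro x y a1 a2 a3 a4 a5
    rw [mem_WX_lo O h0 h1 j2 hω a1 a2 a3 a4 (by omega),
      mem_WF_out O h0 h1 j2 hN g0 g1 a1 a2 a3 (by omega) a5]
  have up : ∀ x y : ℤ, -2 ≤ x → x < w + 2 → j - 1 ≤ y → y < h → (x < 0 ∨ w ≤ x) →
      (lt (x, y) ∈ WX O h0 h1 j2 N B t ω ↔
        ¬ (WW w h j x (y + 1) ∨ (lt (x, y + 1) ∈ t ∧ WL w h j x (y + 1)))) := by
    intro x y a1 a2 a3 a4 a5
    rw [mem_WX_up O h0 h1 j2 hω a1 a2 a3 a4 (by omega),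
      mem_WF_out O h0 h1 j2 hN g0 g1 a1 a2 (by omega) (by omega) a5]
  refine ⟨w2, hw, h2, j2, g0, g1, ?_, ?_, ?_, ?_, ?_, ?_, ?_, ?_, ?_, ?_⟩
  · intro x y hx
    by_cases h3 : x < -2 ∨ w + 2 ≤ x ∨ y < -2 ∨ h ≤ y
    · exact not_WX O h0 h1 j2 hω g0 g1 h3
    · have h4 : y = -2 := by omega
      subst h4
      rw [mem_WX_lo O h0 h1 j2 hω (by omega) (by omega) (by omega) (by omega) (by omega),
        mem_WF O h0 h1 j2 hN g0 g1 (by omega) (by omega) (by omega) (by omega)]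
      unfold WW WL
      omega
  · intro y a1 a2
    rw [lo _ _ (by omega) (by omega) (by omega) a2 (by omega)]
    left; unfold WW; omega
  · intro y a1 a2
    rw [lo _ _ (by omega) (by omega) (by omega) a2 (by omega)]
    left; unfold WW; omega
  · intro y a1 a2
    rw [lo _ _ (by omega) (by omega) (by omega) a2 (by omega)]
    left; unfold WW; omega
  · intro y a1 a2 a3
    rw [lo _ _ (by omega) (by omega) (by omega) a2 (by omega)]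
    rintro (h3 | ⟨h3, h4⟩)
    · unfold WW at h3; omega
    · rcases a3 with a3 | a3
      · unfold WL at h4; omega
      · exact a3 h3
  · intro x a1 a2
    rw [mem_WX_up O h0 h1 j2 hω a1 a2 (by omega) (by omega) (by omega), sub_add_cancel,
      mem_WF O h0 h1 j2 hN g0 g1 (by omega) (by omega) (by omega) le_rfl]
    unfold WW WL
    omega
  · intro y a1 a2
    rw [up _ _ (by omega) (by omega) a1 (by omega) (by omega), not_not]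
    left; unfold WW; omega
  · intro y a1 a2
    rw [up _ _ (by omega) (by omega) a1 (by omega) (by omega), not_not,
      up _ _ (by omega) (by omega) a1 (by omega) (by omega), not_not]
    constructor
    · left; unfold WW; omega
    · left; unfold WW; omega
  · intro y a1 a2 a3
    rw [up _ _ (by omega) (by omega) a1 (by omega) (by omega)]
    rintro (h3 | ⟨-, h4⟩)
    · unfold WW at h3; omega
    · unfold WL at h4; omega
  · intro y a1 a2 a3 a4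
    rw [up _ _ (by omega) (by omega) (by omega) (by omega) (by omega)]
    rintro (h3 | ⟨h3, -⟩)
    · unfold WW at h3; omega
    · exact a4 h3

end

/-! ### Index zero -/

/-- vertices with index zero -/
def KvX (W' : Finset (ℤ × ℤ)) (v : ℤ × ℤ) (Gt : Finset (ℤ × ℤ)) : Set (ℤ × ℤ) :=
  {u | ∀ (O : Set (ℤ × ℤ)) (hO : O ∈ Lp W' v), (∀ g ∈ Gt, g ∉ O) → ixv hO.2.1.toFinset u = 0}

/-- faces with index zero -/
def KfX (W' : Finset (ℤ × ℤ)) (v : ℤ × ℤ) (Gt : Finset (ℤ × ℤ)) : Set (ℤ × ℤ) :=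
  {f | ∀ (O : Set (ℤ × ℤ)) (hO : O ∈ Lp W' v), (∀ g ∈ Gt, g ∉ O) → ixf hO.2.1.toFinset f = 0}

theorem kx_index (O : Set (ℤ × ℤ)) (hO : O ∈ Lp W' v) (hg : ∀ g ∈ Gt, g ∉ O) :
    (∀ u ∈ KvX W' v Gt, ixv hO.2.1.toFinset u = 0) ∧ ∀ f ∈ KfX W' v Gt, ixf hO.2.1.toFinset f = 0 :=
  ⟨fun _ hu => hu O hO hg, fun _ hf => hf O hO hg⟩

lemma ixv_eq (O : Finset (ℤ × ℤ)) (u : ℤ × ℤ) : ixv O u = ix O (u.1 + u.2) (u.2 - u.1) := by
  unfold ixv ix ve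
  congr 1
  refine Prod.ext ?_ ?_ <;> simp only <;> ring

lemma ixf_eq (O : Finset (ℤ × ℤ)) (f : ℤ × ℤ) : ixf O f = ix O (f.1 + f.2 - 1) (f.2 - f.1) := by
  unfold ixf ix ve
  congr 1
  refine Prod.ext ?_ ?_ <;> simp only <;> ring

lemma lp_inv {O : Set (ℤ × ℤ)} (hO : O ∈ Lp W' v) (hg : ∀ g ∈ Gt, g ∉ O) :
    Inv W' hO.2.1.toFinset ∧ ∀ g ∈ Gt, g ∉ hO.2.1.toFinset := by
  obtain ⟨a, ha⟩ := hO.1
  exact ⟨inv_of_orbit ha hO.2.1, fun g h1 h2 => hg g h1 ((Set.Finite.mem_toFinset _).1 h2)⟩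

section

variable (C : Cfg w h j t W')

include C

theorem cfg_left {u : ℤ × ℤ} (h1 : u.1 + u.2 = -1) (h2 : j - 1 ≤ u.2 - u.1) (h3 : u.2 - u.1 ≤ h) :
    u ∈ KvX W' v (GtX w h j t) := by
  intro O hO hg
  obtain ⟨a1, a2⟩ := lp_inv hO hg
  have hh := C.h2
  rw [ixv_eq, h1]
  exact z_u1 C a1 a2 (by omega) (by omega) (by omega)

theorem cff_left {f : ℤ × ℤ} (h1 : f.1 + f.2 ≤ 0) (h2 : j - 1 ≤ f.2 - f.1) (h3 : f.2 - f.1 ≤ h) :
    f ∈ KfX W' v (GtX w h j t) := by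
  intro O hO hg
  obtain ⟨a1, a2⟩ := lp_inv hO hg
  rw [ixf_eq]
  exact z_ulf C a1 (by omega) (by omega) (by omega) (by omega)

theorem cfg_right {u : ℤ × ℤ} (h1 : w + 1 ≤ u.1 + u.2) (h2 : u.1 + u.2 ≤ w + 2)
    (h3 : -1 ≤ u.2 - u.1) (h4 : u.2 - u.1 ≤ j - 1) : u ∈ KvX W' v (GtX w h j t) := by
  intro O hO hg
  obtain ⟨a1, a2⟩ := lp_inv hO hg
  have hw := C.w2
  rw [ixv_eq]
  rcases eq_or_lt_of_le h1 with h5 | h5
  · rw [← h5]
    exact z_r1 C a1 a2 (by omega) (by omega) (by omega)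
  · have h6 : u.1 + u.2 = w + 2 := by omega
    rw [h6]
    exact z_r0 C a1 a2 (by omega) (by omega) (by omega)

theorem cff_right {f : ℤ × ℤ} (h1 : w + 2 ≤ f.1 + f.2) (h2 : f.1 + f.2 ≤ w + 3)
    (h3 : -1 ≤ f.2 - f.1) (h4 : f.2 - f.1 ≤ j - 1) : f ∈ KfX W' v (GtX w h j t) := by
  intro O hO hg
  obtain ⟨a1, a2⟩ := lp_inv hO hg
  have hw := C.w2
  rw [ixf_eq]
  rcases eq_or_lt_of_le h1 with h5 | h5
  · rw [← h5, show w + 2 - 1 = w + 1 by ring]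
    exact z_f0 C a1 a2 (by omega) (by omega) (by omega)
  · have h6 : f.1 + f.2 = w + 3 := by omega
    rw [h6, show w + 3 - 1 = w + 2 by ring]
    exact z_rf C a1 (by omega) (by omega)

/-- **The hypothesis `hW`.** -/
theorem cfg_out {c : ℤ × ℤ} (hc : ∀ x y : ℤ, lab c = lt (x, y) →
    ¬ (0 ≤ x ∧ x < w ∧ -1 ≤ y ∧ y < h - 1)) :
    vx c ∈ KvX W' v (GtX w h j t) ∨ fi c ∈ KfX W' v (GtX w h j t) := by
  obtain ⟨x, y, e⟩ := exists_lt (lab_odd c)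
  by_cases hw : lt (x, y) ∈ W'
  · left
    intro O hO hg
    obtain ⟨a1, a2⟩ := lp_inv hO hg
    exact (z_tile C a1 a2 (hc x y e) e).1 hw
  · right
    intro O hO hg
    obtain ⟨a1, a2⟩ := lp_inv hO hg
    exact (z_tile C a1 a2 (hc x y e) e).2 hw

end

/-! ### The frozen environment -/

section

variable (O : Out w h) (h0 : 0 ≤ j) (h1 : j ≤ h) (j2 : j % 2 = 0)

theorem kv_left (hN : (N : ℤ) = w) (g0 : 0 < j) (g1 : j < h)
    (hω : ω ⊆ gE (BL w j B) (BU w h j B) (1, -1)) {u : ℤ × ℤ} (a1 : u.1 + u.2 = -1)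
    (a2 : j - 1 ≤ u.2 - u.1) (a3 : u.2 - u.1 ≤ h) :
    u ∈ KvX (ω ∪ WGl w h j (WF O h0 h1 j2 N B t) (BU w h j B)) v (GtX w h j t) :=
  cfg_left (cfg_WX O h0 h1 j2 hN g0 g1 hω) a1 a2 a3

theorem kf_left (hN : (N : ℤ) = w) (g0 : 0 < j) (g1 : j < h)
    (hω : ω ⊆ gE (BL w j B) (BU w h j B) (1, -1)) {f : ℤ × ℤ} (a1 : f.1 + f.2 ≤ 0)
    (a2 : j - 1 ≤ f.2 - f.1) (a3 : f.2 - f.1 ≤ h) :
    f ∈ KfX (ω ∪ WGl w h j (WF O h0 h1 j2 N B t) (BU w h j B)) v (GtX w h j t) :=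
  cff_left (cfg_WX O h0 h1 j2 hN g0 g1 hω) a1 a2 a3

theorem kv_right (hN : (N : ℤ) = w) (g0 : 0 < j) (g1 : j < h)
    (hω : ω ⊆ gE (BL w j B) (BU w h j B) (1, -1)) {u : ℤ × ℤ} (a1 : w + 1 ≤ u.1 + u.2)
    (a2 : u.1 + u.2 ≤ w + 2) (a3 : -1 ≤ u.2 - u.1) (a4 : u.2 - u.1 ≤ j - 1) :
    u ∈ KvX (ω ∪ WGl w h j (WF O h0 h1 j2 N B t) (BU w h j B)) v (GtX w h j t) :=
  cfg_right (cfg_WX O h0 h1 j2 hN g0 g1 hω) a1 a2 a3 a4

theorem kf_right (hN : (N : ℤ) = w) (g0 : 0 < j) (g1 : j < h)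
    (hω : ω ⊆ gE (BL w j B) (BU w h j B) (1, -1)) {f : ℤ × ℤ} (a1 : w + 2 ≤ f.1 + f.2)
    (a2 : f.1 + f.2 ≤ w + 3) (a3 : -1 ≤ f.2 - f.1) (a4 : f.2 - f.1 ≤ j - 1) :
    f ∈ KfX (ω ∪ WGl w h j (WF O h0 h1 j2 N B t) (BU w h j B)) v (GtX w h j t) :=
  cff_right (cfg_WX O h0 h1 j2 hN g0 g1 hω) a1 a2 a3 a4

/-- **The hypothesis `hW` for `XF`.** -/
theorem hW_XF (hN : (N : ℤ) = w) (g0 : 0 < j) (g1 : j < h)
    (hω : ω ⊆ gE (BL w j B) (BU w h j B) (1, -1)) {c : ℤ × ℤ}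
    (hc : lab c ∉ gE (BL w j B) (BU w h j B) (1, -1))
    (hb : lab c ∉ gE (RT 0 w (-1) (j - 1) ∩ B) (RT 0 w j h ∩ B) (1, -1)) :
    vx c ∈ KvX (ω ∪ WGl w h j (WF O h0 h1 j2 N B t) (BU w h j B)) v (GtX w h j t) ∨
      fi c ∈ KfX (ω ∪ WGl w h j (WF O h0 h1 j2 N B t) (BU w h j B)) v (GtX w h j t) := by
  refine cfg_out (cfg_WX O h0 h1 j2 hN g0 g1 hω) fun x y e hr => ?_
  rw [e, ← lbt_lt, mem_gE, mem_BL, mem_BU, lbt_lt, lbt_lt] at hc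
  rw [e, ← lbt_lt, mem_gE, lbt_lt, lbt_lt, mem_inter, mem_inter, lt_mem_RT, lt_mem_RT] at hb
  rcases lt_or_ge y (j - 1) with h3 | h3
  · by_cases h4 : lt (x, y) ∈ B
    · exact hb (Or.inl ⟨⟨hr.1, hr.2.1, hr.2.2.1, h3⟩, h4⟩)
    · exact hc (Or.inl ⟨⟨hr.1, hr.2.1, hr.2.2.1, h3⟩, h4⟩)
  · by_cases h4 : lt (x, y + 1) ∈ B
    · exact hb (Or.inr ⟨⟨hr.1, hr.2.1, by omega, by omega⟩, h4⟩)
    · exact hc (Or.inr ⟨⟨hr.1, hr.2.1, by omega, by omega⟩, h4⟩)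

end

end Pool.Agent.H30.Mid
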